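import Pool.Agent.H36.BL.Defs

set_option autoImplicit false

open Set Filter Topology

/-!
# Module BlidBump: blid maps at a sphere give bumps

PROOF. `U = {x | x ≠ 0}` is a neighbourhood of the sphere (see the end of
`Pool/Agent/Results/MP_a52dbe_an/NoBlid.lean`). Let `H` be the blid map, `H = id` on `V ∈ 𝓝ˢ (sphere 0 r)`.
`H 0 ≠ 0`; take a functional `l` with `l (H 0) = ‖H 0‖` (`exists_dual_vector`). Put
`b x = if ‖x‖ < r then l (H x - x) else 0`. `ContDiff`: at `x` with `‖x‖ < r` it is `l (H · - ·)` near `x`; at `x` with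
`‖x‖ > r` it is `0` near `x`; at `‖x‖ = r` near `x` we have `H y = y` (`subset_of_mem_nhdsSet`, interior of `V`),
so `b y = 0` near `x` in both branches. `b 0 ≠ 0`, support in the ball of radius `r`.
-/

namespace Pool.Agent.H36.BL

theorem hasBump_of_admits {X : Type*} [NormedAddCommGroup X] [NormedSpace ℝ X] {q : ℕ∞} {r : ℝ}
    (hr : 0 < r) (h : AdmitsBlidMaps q (Metric.sphere (0 : X) r)) : HasBump X q := by
  classical
  obtain ⟨H, hH, hU, V, hV, -, hHV⟩ := h {x : X | x ≠ 0} (by
    rw [mem_nhdsSet_iff_forall]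
    intro x hx
    apply IsOpen.mem_nhds isOpen_ne
    intro h0
    rw [h0, mem_sphere_iff_norm, sub_zero, norm_zero] at hx
    exact hr.ne hx)
  have hne : H 0 ≠ 0 := hU 0
  obtain ⟨l, -, hl⟩ := exists_dual_vector ℝ (H 0) (norm_ne_zero_iff.mpr hne)
  have hl' : l (H 0) = ‖H 0‖ := by simpa using hl
  have hg : ContDiff ℝ q (fun x : X => l (H x - x)) := l.contDiff.comp (hH.sub contDiff_id)
  refine ⟨fun x => if ‖x‖ < r then l (H x - x) else 0, ?_, ⟨0, ?_⟩, ?_⟩
  · rw [contDiff_iff_contDiffAt]
    intro x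
    rcases lt_trichotomy ‖x‖ r with hx | hx | hx
    · have hev : (fun x : X => if ‖x‖ < r then l (H x - x) else 0) =ᶠ[𝓝 x] fun x => l (H x - x) := by
        have : ∀ᶠ y in 𝓝 x, ‖y‖ < r := continuous_norm.continuousAt.eventually_lt_const hx
        filter_upwards [this] with y hy
        simp [hy]
      exact hg.contDiffAt.congr_of_eventuallyEq hev
    · have hev : (fun x : X => if ‖x‖ < r then l (H x - x) else 0) =ᶠ[𝓝 x] fun _ => (0 : ℝ) := by
        have hVx : V ∈ 𝓝 x := by
          rw [mem_nhdsSet_iff_forall] at hV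
          exact hV x (by rw [mem_sphere_iff_norm, sub_zero]; exact hx)
        filter_upwards [hVx] with y hy
        rw [hHV y hy, sub_self, map_zero, ite_self]
      exact contDiffAt_const.congr_of_eventuallyEq hev
    · have hev : (fun x : X => if ‖x‖ < r then l (H x - x) else 0) =ᶠ[𝓝 x] fun _ => (0 : ℝ) := by
        have : ∀ᶠ y in 𝓝 x, r < ‖y‖ := continuous_norm.continuousAt.eventually_const_lt hx
        filter_upwards [this] with y hy
        simp [not_lt.mpr hy.le]
      exact contDiffAt_const.congr_of_eventuallyEq hev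
  · simp only [norm_zero, hr, if_true, sub_zero, hl']
    exact norm_ne_zero_iff.mpr hne
  · refine (Metric.isBounded_ball (x := (0 : X)) (r := r)).subset ?_
    intro x hx
    rw [Function.mem_support] at hx
    rw [mem_ball_zero_iff]
    by_contra hcon
    exact hx (if_neg hcon)

end Pool.Agent.H36.BL
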