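import Pool.Agent.H36.BL.Defs

set_option autoImplicit false

open Set Filter Topology

/-!
# Module BlidDiff: differentiable blid maps at a sphere give differentiable bumps
-/

namespace Pool.Agent.H36.BL

variable {X : Type*} [NormedAddCommGroup X] [NormedSpace ℝ X]

/-- `S` admits blid maps that are Frechet differentiable at every point. -/
def AdmitsDiffBlidMaps (S : Set X) : Prop :=
  ∀ U ∈ 𝓝ˢ S, ∃ H : X → X, Differentiable ℝ H ∧ (∀ x, H x ∈ U) ∧
    ∃ V : Set X, V ∈ 𝓝ˢ S ∧ V ⊆ U ∧ ∀ x ∈ V, H x = x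

theorem diffBump_of_admits {r : ℝ} (hr : 0 < r)
    (h : AdmitsDiffBlidMaps (Metric.sphere (0 : X) r)) :
    ∃ b : X → ℝ, Differentiable ℝ b ∧ (∃ x, b x ≠ 0) ∧
      Bornology.IsBounded (Function.support b) := by
  classical
  obtain ⟨H, hH, hU, V, hV, -, hHV⟩ := h {x : X | x ≠ 0} (by
    rw [mem_nhdsSet_iff_forall]
    intro x hx
    apply IsOpen.mem_nhds isOpen_ne
    intro h0
    rw [h0, mem_sphere_iff_norm, sub_zero, norm_zero] at hx
    exact hr.ne hx)
  have h0 : H 0 ≠ 0 := hU 0
  obtain ⟨l, -, hl⟩ := exists_dual_vector ℝ (H 0) (norm_ne_zero_iff.mpr h0)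
  have hl0 : l (H 0) ≠ 0 := by
    rw [hl]
    simpa using h0
  refine ⟨fun x => if ‖x‖ < r then l (H x - x) else 0, ?_, ⟨0, ?_⟩, ?_⟩
  · intro x
    rcases lt_trichotomy ‖x‖ r with hx | hx | hx
    · have h1 : (fun x => if ‖x‖ < r then l (H x - x) else 0) =ᶠ[𝓝 x] fun x => l (H x - x) := by
        have h2 : {y : X | ‖y‖ < r} ∈ 𝓝 x := (isOpen_lt continuous_norm continuous_const).mem_nhds hx
        filter_upwards [h2] with y hy
        rw [if_pos hy]
      refine DifferentiableAt.congr_of_eventuallyEq ?_ h1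
      exact l.differentiableAt.comp x ((hH x).sub differentiableAt_id)
    · have h2 : V ∈ 𝓝 x := by
        apply mem_nhdsSet_iff_forall.mp hV
        rw [mem_sphere_iff_norm, sub_zero, hx]
      have h1 : (fun x => if ‖x‖ < r then l (H x - x) else 0) =ᶠ[𝓝 x] fun _ => 0 := by
        filter_upwards [h2] with y hy
        rw [hHV y hy, sub_self, map_zero, ite_self]
      exact (differentiableAt_const 0).congr_of_eventuallyEq h1
    · have h1 : (fun x => if ‖x‖ < r then l (H x - x) else 0) =ᶠ[𝓝 x] fun _ => 0 := by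
        have h2 : {y : X | r < ‖y‖} ∈ 𝓝 x := (isOpen_lt continuous_const continuous_norm).mem_nhds hx
        filter_upwards [h2] with y hy
        rw [if_neg (not_lt.mpr (le_of_lt hy))]
      exact (differentiableAt_const 0).congr_of_eventuallyEq h1
  · simp only [norm_zero, if_pos hr, sub_zero]
    exact hl0
  · apply Metric.isBounded_ball (x := (0 : X)) (r := r) |>.subset
    intro x hx
    rw [Function.mem_support] at hx
    rw [mem_ball_zero_iff]
    by_contra hcon
    exact hx (if_neg hcon)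

end Pool.Agent.H36.BL
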