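import Pool.Agent.H36.BL.Ekeland

set_option autoImplicit false

open Set Filter Topology

/-!
# Module BumpSep: a `C^1` bump on a separable Banach space makes the dual separable

PROOF. Let `b` be the bump, `D = {b ≠ 0}` (open, nonempty, bounded: `‖x‖ ≤ R` on `D`),
`u x = 1 / b x ^ 2` on `D`, differentiable on `D`. CLAIM: the set `{fderiv ℝ u x | x ∈ D}` is dense in the dual.
Let `f` be a functional and `ε > 0`. Fix `x0 ∈ D`, `F x = u x - f x`, `Y = {x ∈ D | F x ≤ F x0}`. On `Y`,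
`u x ≤ F x0 + f x`, hence `Y = {x | 1 ≤ (F x0 + f x) * b x ^ 2}` is closed, `F` is continuous
on it and bounded below by `- ‖f‖ R`. By `ekeland` there is `y ∈ Y` with `F y ≤ F x + ε dist x y` on `Y`; this holds for
all `x ∈ D` (if `F x > F x0` it is trivial since `F x0 ≥ F y`). With `L = fderiv u y - f`, the derivative of
`F` at `y`, this gives `L h ≥ - ε ‖h‖` for all `h` (first order expansion with `t • h`, `t → 0+`), so `‖L‖ ≤ ε`.
The image of `D` under `fderiv ℝ u` is separable although `fderiv ℝ u` need not be continuous: for `η, δ > 0` let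
`A(η, δ) = {x ∈ D | |u(x+h) - u x - u' x h| ≤ η ‖h‖ for all ‖h‖ ≤ δ}`. If `x, y ∈ A(η, δ)`, `‖x - y‖ ≤ δ/4` then
`‖u' x - u' y‖ ≤ 3 η`; the sets `A(η, δ)`, `δ = 1/(n+1)`, cover `D`.
-/

namespace Pool.Agent.H36.BL

private def AA {X : Type*} [NormedAddCommGroup X] [NormedSpace ℝ X] (u : X → ℝ) (D : Set X) (η δ : ℝ) :
    Set X :=
  {x | x ∈ D ∧ ∀ h : X, ‖h‖ ≤ δ → |u (x + h) - u x - fderiv ℝ u x h| ≤ η * ‖h‖}

private lemma aa_close {X : Type*} [NormedAddCommGroup X] [NormedSpace ℝ X] {u : X → ℝ} {D : Set X}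
    {η δ : ℝ} (hη : 0 ≤ η) (hδ : 0 < δ) {x y : X} (hx : x ∈ AA u D η δ) (hy : y ∈ AA u D η δ)
    (hxy : ‖x - y‖ ≤ δ / 4) : ‖fderiv ℝ u x - fderiv ℝ u y‖ ≤ 3 * η := by
  apply ContinuousLinearMap.opNorm_le_of_unit_norm (by positivity)
  intro e he
  set h : X := (δ / 2) • e with hh
  have hhn : ‖h‖ = δ / 2 := by
    rw [hh, norm_smul, he, mul_one, Real.norm_of_nonneg (by positivity)]
  set k : X := x + h - y with hk
  have hkn : ‖k‖ ≤ 3 * δ / 4 := by
    have : k = (x - y) + h := by rw [hk]; abel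
    rw [this]
    refine (norm_add_le _ _).trans ?_
    rw [hhn]; linarith
  have h1 := hx.2 h (by rw [hhn]; linarith)
  have h2 := hy.2 k (by linarith)
  have h3 := hy.2 (x - y) (by linarith)
  have e2 : y + k = x + h := by rw [hk]; abel
  have e3 : y + (x - y) = x := by abel
  rw [e2] at h2
  rw [e3] at h3
  have e4 : fderiv ℝ u y k = fderiv ℝ u y (x - y) + fderiv ℝ u y h := by
    rw [← map_add]; congr 1; rw [hk]; abel
  rw [e4] at h2
  have b1 : η * ‖h‖ ≤ η * (δ / 2) := by rw [hhn]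
  have b2 : η * ‖k‖ ≤ η * (3 * δ / 4) := mul_le_mul_of_nonneg_left hkn hη
  have b3 : η * ‖x - y‖ ≤ η * (δ / 4) := mul_le_mul_of_nonneg_left hxy hη
  have key : |(fderiv ℝ u x - fderiv ℝ u y) h| ≤ 3 * η * (δ / 2) := by
    rw [_root_.sub_apply]
    rw [abs_le] at h1 h2 h3 ⊢
    constructor <;> nlinarith
  rw [hh, map_smul, smul_eq_mul, abs_mul, abs_of_pos (by positivity : 0 < δ / 2)] at key
  rw [Real.norm_eq_abs]
  have : 0 < δ / 2 := by positivity
  nlinarith

private lemma sep_image {X : Type*} [NormedAddCommGroup X] [NormedSpace ℝ X]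
    [TopologicalSpace.SeparableSpace X] {u : X → ℝ} {D : Set X}
    (hu : ∀ x ∈ D, DifferentiableAt ℝ u x) :
    TopologicalSpace.IsSeparable ((fderiv ℝ u) '' D) := by
  have hc : ∀ p : ℕ × ℕ, ∃ c : Set X, c ⊆ AA u D (1 / ((p.1 : ℝ) + 1)) (1 / ((p.2 : ℝ) + 1)) ∧
      c.Countable ∧ AA u D (1 / ((p.1 : ℝ) + 1)) (1 / ((p.2 : ℝ) + 1)) ⊆ closure c := fun p =>
    (TopologicalSpace.IsSeparable.of_separableSpace _).exists_countable_dense_subset
  choose c hc1 hc2 hc3 using hc
  refine ⟨⋃ p, (fderiv ℝ u) '' (c p), countable_iUnion fun p => (hc2 p).image _, ?_⟩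
  rintro _ ⟨x, hx, rfl⟩
  rw [Metric.mem_closure_iff]
  intro ε hε
  obtain ⟨m, hm⟩ := exists_nat_one_div_lt (show (0 : ℝ) < ε / 4 by positivity)
  have hηp : (0 : ℝ) < 1 / ((m : ℝ) + 1) := by positivity
  have h1 := ((hu x hx).hasFDerivAt.isLittleO).def hηp
  rw [Metric.eventually_nhds_iff] at h1
  obtain ⟨δ, hδ, h2⟩ := h1
  obtain ⟨n, hn⟩ := exists_nat_one_div_lt hδ
  have hxA : x ∈ AA u D (1 / ((m : ℝ) + 1)) (1 / ((n : ℝ) + 1)) := by
    refine ⟨hx, fun h hh => ?_⟩
    have := @h2 (x + h) (by rw [dist_eq_norm, add_sub_cancel_left]; linarith)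
    rw [add_sub_cancel_left, Real.norm_eq_abs] at this
    exact this
  have hnp : (0 : ℝ) < 1 / ((n : ℝ) + 1) := by positivity
  have hx' := hc3 (m, n) hxA
  rw [Metric.mem_closure_iff] at hx'
  obtain ⟨y, hy, hxy⟩ := hx' (1 / ((n : ℝ) + 1) / 4) (by positivity)
  refine ⟨fderiv ℝ u y, mem_iUnion.2 ⟨(m, n), mem_image_of_mem _ hy⟩, ?_⟩
  rw [dist_eq_norm] at hxy ⊢
  have := aa_close hηp.le hnp hxA (hc1 (m, n) hy) hxy.le
  linarith

theorem separable_dual_of_diff_bump {X : Type*} [NormedAddCommGroup X] [NormedSpace ℝ X]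
    [CompleteSpace X] [TopologicalSpace.SeparableSpace X] {b : X → ℝ} (hb : Differentiable ℝ b)
    (hne : ∃ x, b x ≠ 0) (hbd : Bornology.IsBounded (Function.support b)) :
    TopologicalSpace.SeparableSpace (X →L[ℝ] ℝ) := by
  obtain ⟨x0, hx0⟩ := hne
  obtain ⟨R, hR⟩ := isBounded_iff_forall_norm_le.1 hbd
  set D : Set X := {x | b x ≠ 0} with hD
  set u : X → ℝ := fun x => (b x ^ 2)⁻¹ with hudef
  have hu : ∀ x ∈ D, DifferentiableAt ℝ u x := fun x hx =>
    ((hb x).pow 2).inv (pow_ne_zero 2 hx)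
  have hDo : IsOpen D := isOpen_ne_fun hb.continuous continuous_const
  have hsep := sep_image hu
  have hdense : ∀ (f : X →L[ℝ] ℝ) (ε : ℝ), 0 < ε → ∃ y ∈ D, ‖fderiv ℝ u y - f‖ ≤ ε := by
    intro f ε hε
    set F : X → ℝ := fun x => u x - f x with hF
    set Y : Set X := {x | 1 ≤ (F x0 + f x) * b x ^ 2} with hY
    have hYc : IsClosed Y := isClosed_le continuous_const
      ((continuous_const.add f.continuous).mul (hb.continuous.pow 2))
    have hYD : ∀ x ∈ Y, x ∈ D := by
      intro x hx h0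
      have : (1 : ℝ) ≤ (F x0 + f x) * b x ^ 2 := hx
      rw [h0] at this
      norm_num at this
    have hYiff : ∀ x ∈ D, (x ∈ Y ↔ F x ≤ F x0) := by
      intro x hx
      have hp : 0 < b x ^ 2 := by
        have : b x ≠ 0 := hx
        positivity
      have e : x ∈ Y ↔ u x ≤ F x0 + f x := by
        show 1 ≤ (F x0 + f x) * b x ^ 2 ↔ (b x ^ 2)⁻¹ ≤ F x0 + f x
        rw [inv_le_iff_one_le_mul₀ hp]
      rw [e]
      show u x ≤ F x0 + f x ↔ u x - f x ≤ F x0
      constructor <;> intro h <;> linarith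
    have hx0Y : x0 ∈ Y := (hYiff x0 hx0).2 le_rfl
    obtain ⟨y, hyY, hy⟩ := ekeland hYc ⟨x0, hx0Y⟩ (F := F)
      (fun x hx => (((hu x (hYD x hx)).continuousAt).sub f.continuous.continuousAt).continuousWithinAt)
      ⟨-(‖f‖ * R), fun x hx => by
        have h1 : 0 ≤ u x := by
          show 0 ≤ (b x ^ 2)⁻¹
          positivity
        have h2 : |f x| ≤ ‖f‖ * ‖x‖ := f.le_opNorm x
        have h3 : ‖x‖ ≤ R := hR x (hYD x hx)
        have h4 : ‖f‖ * ‖x‖ ≤ ‖f‖ * R := mul_le_mul_of_nonneg_left h3 (norm_nonneg _)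
        have h5 := (abs_le.1 h2).2
        show -(‖f‖ * R) ≤ u x - f x
        linarith⟩ hε
    have hyD := hYD y hyY
    have hyle : ∀ x ∈ D, F y ≤ F x + ε * dist x y := by
      intro x hx
      by_cases hxY : x ∈ Y
      · exact hy x hxY
      · have h1 : F x0 < F x := by
          by_contra hcon
          exact hxY ((hYiff x hx).2 (not_lt.1 hcon))
        have h2 : F y ≤ F x0 := (hYiff y hyD).1 hyY
        have h3 : 0 ≤ ε * dist x y := by positivity
        linarith
    refine ⟨y, hyD, ?_⟩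
    set L : X →L[ℝ] ℝ := fderiv ℝ u y - f with hL
    have hFL : HasFDerivAt F L y := (hu y hyD).hasFDerivAt.sub f.hasFDerivAt
    have hone : ∀ h : X, -(L h) ≤ ε * ‖h‖ := by
      intro h
      have hd : HasDerivAt (fun t : ℝ => F (y + t • h)) (L h) 0 := by
        have e1 : HasDerivAt (fun t : ℝ => y + t • h) h 0 := by
          have := ((hasDerivAt_id (0 : ℝ)).smul_const h).const_add y
          simpa using this
        have e2 : HasFDerivAt F L (y + (0 : ℝ) • h) := by simpa using hFL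
        exact e2.comp_hasDerivAt 0 e1
      have ht := hd.tendsto_slope_zero_right
      have hev : ∀ᶠ t : ℝ in 𝓝[>] 0, -(ε * ‖h‖) ≤
          t⁻¹ • (F (y + (0 + t) • h) - F (y + (0 : ℝ) • h)) := by
        have hD' : ∀ᶠ t : ℝ in 𝓝[>] 0, y + t • h ∈ D := by
          have hcont : ContinuousAt (fun t : ℝ => y + t • h) 0 := by fun_prop
          have : D ∈ 𝓝 (y + (0 : ℝ) • h) := by
            rw [zero_smul, add_zero]; exact hDo.mem_nhds hyD
          exact (hcont.eventually this).filter_mono nhdsWithin_le_nhds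
        filter_upwards [hD', self_mem_nhdsWithin] with t htD htp
        have htp' : (0 : ℝ) < t := htp
        rw [zero_add, zero_smul, add_zero, smul_eq_mul]
        have h1 := hyle _ htD
        rw [dist_eq_norm, add_sub_cancel_left, norm_smul, Real.norm_of_nonneg htp'.le] at h1
        rw [le_inv_mul_iff₀ htp']
        nlinarith
      have := ge_of_tendsto ht hev
      linarith
    apply ContinuousLinearMap.opNorm_le_bound _ hε.le
    intro h
    rw [Real.norm_eq_abs, abs_le]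
    have h1 := hone h
    have h2 := hone (-h)
    rw [map_neg, norm_neg, neg_neg] at h2
    constructor <;> linarith
  have hcl := hsep.closure
  have huniv : closure ((fderiv ℝ u) '' D) = univ := by
    rw [eq_univ_iff_forall]
    intro f
    rw [Metric.mem_closure_iff]
    intro ε hε
    obtain ⟨y, hyD, hy⟩ := hdense f (ε / 2) (by positivity)
    refine ⟨_, mem_image_of_mem _ hyD, ?_⟩
    rw [dist_comm, dist_eq_norm]
    linarith
  rw [huniv] at hcl
  exact TopologicalSpace.isSeparable_univ_iff.1 hcl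

theorem separable_dual_of_bump {X : Type*} [NormedAddCommGroup X] [NormedSpace ℝ X] [CompleteSpace X]
    [TopologicalSpace.SeparableSpace X] (hb : HasBump X 1) :
    TopologicalSpace.SeparableSpace (X →L[ℝ] ℝ) := by
  obtain ⟨b, h1, h2, h3⟩ := hb
  exact separable_dual_of_diff_bump (h1.differentiable (by norm_num)) h2 h3

end Pool.Agent.H36.BL
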