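import Pool.Agent.H36.BL.Defs

set_option autoImplicit false

open Set Filter Topology

/-!
# Module CDual: the dual of `C[0,1]` is not separable

PROOF. The evaluations `ContinuousMap.evalCLM ℝ t` (or `ContinuousMap.evalCLM`), `t ∈ [0,1]`, have mutual distance `≥ 1`
(for `s ≠ t` take the continuous function `u ↦ max 0 (1 - dist u t / dist s t)` of norm `≤ 1`, value `1` at `t` and
`0` at `s`). A separable metric space has no uncountable 1-separated subset
(`TopologicalSpace.IsSeparable`/`Set.Countable`: balls of radius 1/2 around the points are disjoint open sets: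
`Set.PairwiseDisjoint.countable_of_isOpen`). `[0,1]` is uncountable.
-/

namespace Pool.Agent.H36.BL

private theorem one_le_dist_eval {s t : Set.Icc (0:ℝ) 1} (h : s ≠ t) :
    1 ≤ dist (ContinuousMap.evalCLM ℝ t : C(Set.Icc (0:ℝ) 1, ℝ) →L[ℝ] ℝ)
      (ContinuousMap.evalCLM ℝ s) := by
  have hst : 0 < dist s t := dist_pos.2 h
  let φ : C(Set.Icc (0:ℝ) 1, ℝ) := ⟨fun u => max 0 (1 - dist u t / dist s t), by fun_prop⟩
  have hφ1 : ‖φ‖ ≤ 1 := by
    rw [ContinuousMap.norm_le _ zero_le_one]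
    intro u
    have h1 : 0 ≤ dist u t / dist s t := by positivity
    have h2 : φ u = max 0 (1 - dist u t / dist s t) := rfl
    rw [h2, Real.norm_eq_abs, abs_of_nonneg (le_max_left _ _)]
    exact max_le zero_le_one (by linarith)
  have ht : φ t = 1 := by
    have h2 : φ t = max 0 (1 - dist t t / dist s t) := rfl
    rw [h2, dist_self, zero_div, sub_zero]
    exact max_eq_right zero_le_one
  have hs : φ s = 0 := by
    have h2 : φ s = max 0 (1 - dist s t / dist s t) := rfl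
    rw [h2, div_self hst.ne', sub_self, max_self]
  set T : C(Set.Icc (0:ℝ) 1, ℝ) →L[ℝ] ℝ :=
    (ContinuousMap.evalCLM ℝ t : C(Set.Icc (0:ℝ) 1, ℝ) →L[ℝ] ℝ) - ContinuousMap.evalCLM ℝ s with hT
  have h3 := T.le_opNorm φ
  have h4 : T φ = 1 := by
    have : T φ = φ t - φ s := rfl
    rw [this, ht, hs, sub_zero]
  rw [h4, norm_one] at h3
  have h5 : 1 ≤ ‖T‖ := h3.trans (mul_le_of_le_one_right (norm_nonneg _) hφ1)
  have h6 : dist (ContinuousMap.evalCLM ℝ t : C(Set.Icc (0:ℝ) 1, ℝ) →L[ℝ] ℝ)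
      (ContinuousMap.evalCLM ℝ s) = ‖T‖ :=
    dist_eq_norm (ContinuousMap.evalCLM ℝ t : C(Set.Icc (0:ℝ) 1, ℝ) →L[ℝ] ℝ) (ContinuousMap.evalCLM ℝ s)
  exact h5.trans_eq h6.symm

theorem not_separable_dual_C :
    ¬ TopologicalSpace.SeparableSpace (C(Set.Icc (0:ℝ) 1, ℝ) →L[ℝ] ℝ) := by
  intro hsep
  obtain ⟨D, hDc, hDd⟩ := TopologicalSpace.exists_countable_dense
    (C(Set.Icc (0:ℝ) 1, ℝ) →L[ℝ] ℝ)
  have hex : ∀ t : Set.Icc (0:ℝ) 1, ∃ d ∈ D,
      dist (ContinuousMap.evalCLM ℝ t : C(Set.Icc (0:ℝ) 1, ℝ) →L[ℝ] ℝ) d < 1 / 2 := fun t =>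
    hDd.exists_dist_lt _ (by norm_num)
  choose f hfD hf using hex
  have hinj : Function.Injective fun t => (⟨f t, hfD t⟩ : D) := by
    intro s t hst
    by_contra hne
    have h1 : f s = f t := congrArg Subtype.val hst
    have h2 := one_le_dist_eval hne
    have h3 := dist_triangle_right (ContinuousMap.evalCLM ℝ t : C(Set.Icc (0:ℝ) 1, ℝ) →L[ℝ] ℝ)
      (ContinuousMap.evalCLM ℝ s) (f t)
    have h4 := hf t
    have h5 := hf s
    rw [h1] at h5
    linarith
  have hDc' : Countable D := hDc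
  have hc : Countable (Set.Icc (0:ℝ) 1) := hinj.countable
  have h0 := (Set.countable_coe_iff.1 hc).measure_zero MeasureTheory.volume
  rw [Real.volume_Icc] at h0
  norm_num at h0

end Pool.Agent.H36.BL
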