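import Mathlib

set_option autoImplicit false

open Set Filter Topology

/-!
# Blid maps in Banach spaces: definitions (project SphereDichotomy, MP_a52dbe_an)
-/

namespace Pool.Agent.H36.BL

variable {X : Type*} [NormedAddCommGroup X] [NormedSpace ℝ X]

/-- `H` is a `C^q` blid map at `S` for `U`: it is `C^q` on the whole space, its range lies in `U`,
and it is the identity on a neighbourhood `V ⊆ U` of `S`. -/
def IsBlidMap (q : ℕ∞) (S U : Set X) (H : X → X) : Prop :=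
  ContDiff ℝ q H ∧ (∀ x, H x ∈ U) ∧ ∃ V : Set X, V ∈ 𝓝ˢ S ∧ V ⊆ U ∧ ∀ x ∈ V, H x = x

/-- `S` admits `C^q` blid maps: for every neighbourhood `U` of `S` there is one. -/
def AdmitsBlidMaps (q : ℕ∞) (S : Set X) : Prop :=
  ∀ U ∈ 𝓝ˢ S, ∃ H : X → X, IsBlidMap q S U H

/-- `X` has a `C^q` bump: a `C^q` function `X → ℝ`, not identically zero, with bounded support. -/
def HasBump (X : Type*) [NormedAddCommGroup X] [NormedSpace ℝ X] (q : ℕ∞) : Prop :=
  ∃ b : X → ℝ, ContDiff ℝ q b ∧ (∃ x, b x ≠ 0) ∧ Bornology.IsBounded (Function.support b)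

/-- `C^1` in the sense of Gateaux and Bastiani: `H` is continuous and has at every point a Gateaux
derivative `H' x`, a continuous linear map, such that `(x, h) ↦ H' x h` is continuous. -/
def GateauxC1 {Y : Type*} [NormedAddCommGroup Y] [NormedSpace ℝ Y] (H : X → Y) : Prop :=
  Continuous H ∧ ∃ H' : X → (X →L[ℝ] Y),
    (∀ x h : X, HasDerivAt (fun s : ℝ => H (x + s • h)) (H' x h) 0) ∧
    Continuous (fun p : X × X => H' p.1 p.2)

/-- `S` admits blid maps of class `GateauxC1`. -/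
def AdmitsGateauxBlidMaps (S : Set X) : Prop :=
  ∀ U ∈ 𝓝ˢ S, ∃ H : X → X, GateauxC1 H ∧ (∀ x, H x ∈ U) ∧
    ∃ V : Set X, V ∈ 𝓝ˢ S ∧ V ⊆ U ∧ ∀ x ∈ V, H x = x

/-- A smoothness class: a set of continuous real functions closed under the algebra operations,
smooth functions of one variable, inversion of positive functions, and local. -/
structure SmClass (X : Type*) [TopologicalSpace X] where
  mem : (X → ℝ) → Prop
  cont : ∀ {f : X → ℝ}, mem f → Continuous f
  const : ∀ c : ℝ, mem (fun _ => c)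
  add : ∀ {f g : X → ℝ}, mem f → mem g → mem (fun x => f x + g x)
  mul : ∀ {f g : X → ℝ}, mem f → mem g → mem (fun x => f x * g x)
  comp : ∀ {f : X → ℝ} {θ : ℝ → ℝ}, mem f → ContDiff ℝ (⊤ : ℕ∞) θ → mem (fun x => θ (f x))
  inv : ∀ {f : X → ℝ}, mem f → (∀ x, 0 < f x) → mem (fun x => (f x)⁻¹)
  loc : ∀ {f : X → ℝ}, (∀ x, ∃ g, mem g ∧ f =ᶠ[𝓝 x] g) → mem f

/-- The class has enough functions: the sets `{φ ≠ 0}` form a base of the topology. -/
def SmClass.Enough {X : Type*} [TopologicalSpace X] (A : SmClass X) : Prop :=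
  ∀ x : X, ∀ U ∈ 𝓝 x, ∃ φ : X → ℝ, A.mem φ ∧ (∀ y, 0 ≤ φ y) ∧ 0 < φ x ∧ ∀ y, φ y ≠ 0 → y ∈ U

/-- common kernel of the first `n` functionals -/
def Kn (f : ℕ → (X →L[ℝ] ℝ)) (n : ℕ) : Submodule ℝ X where
  carrier := {x | ∀ i < n, f i x = 0}
  add_mem' := by
    intro a b ha hb i hi
    rw [map_add, ha i hi, hb i hi, add_zero]
  zero_mem' := by
    intro i _
    exact map_zero _
  smul_mem' := by
    intro c a ha i hi
    rw [map_smul, ha i hi, smul_zero]

/-- norm of the restriction of `h` to the common kernel of the first `n` functionals -/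
noncomputable def dn (f : ℕ → (X →L[ℝ] ℝ)) (n : ℕ) (h : X →L[ℝ] ℝ) : ℝ :=
  ‖h.comp (Kn f n).subtypeL‖

/-- The function `g` on the dual: `κ = 1` gives the Frechet smooth function, `κ = 0` the Gateaux
smooth one. -/
noncomputable def gf (κ : ℝ) (f : ℕ → (X →L[ℝ] ℝ)) (x : ℕ → X) (h : X →L[ℝ] ℝ) : ℝ :=
  ‖h‖ ^ 2 + κ * ∑' n, (1 / 2 : ℝ) ^ n * dn f n h ^ 2 + ∑' n, (1 / 2 : ℝ) ^ n * (h (x n)) ^ 2

/-- the conjugate function on `X` -/
noncomputable def phi (κ : ℝ) (f : ℕ → (X →L[ℝ] ℝ)) (x : ℕ → X) (y : X) : ℝ :=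
  ⨆ h : X →L[ℝ] ℝ, (h y - gf κ f x h)

end Pool.Agent.H36.BL
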