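import Pool.Agent.H36.BL.Defs

set_option autoImplicit false

open Set Filter Topology

/-!
# Module DnFacts: the seminorms `dn`

PROOFS. `dn f n h ≤ ‖h‖` since the inclusion has norm `≤ 1`. Triangle inequality from linearity of
`h ↦ h.comp (subtypeL)`. `dn_tendsto`: given `ε` choose `i` with `‖h - f i‖ < ε` (dense range); for `n > i` the
functional `f i` vanishes on `Kn f n`, so `dn f n h = dn f n (h - f i) ≤ ε`. `dn_split`: let `h'` be a Hahn-Banach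
extension of `h.comp (Kn f n).subtypeL` with the same norm (`Real.exists_extension_norm_eq`); `h - h'` vanishes on
the common kernel of `f 0, …, f (n-1)`, so it is a linear combination of them (`mem_span_of_iInf_ker_le_ker` or
`LinearMap.mem_span_iff_continuous`-type lemmas, applied to the underlying linear maps); the span is in the space of
continuous functionals.
`lt_norm_of_tendsto`: choose `y` with `‖y‖ ≤ 1`, `a < |k y|`; eventually `a < |h y| ≤ ‖h‖`. The same with `y` in the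
kernel for `dn`.
-/

namespace Pool.Agent.H36.BL

variable {X : Type*} [NormedAddCommGroup X] [NormedSpace ℝ X]

private theorem gen_smul {Y : Type*} [NormedAddCommGroup Y] [NormedSpace ℝ Y] (T : Y →L[ℝ] X) (c : ℝ)
    (h : X →L[ℝ] ℝ) : ‖(c • h).comp T‖ = |c| * ‖h.comp T‖ := by
  rw [ContinuousLinearMap.smul_comp, norm_smul, Real.norm_eq_abs]

private theorem gen_add {Y : Type*} [NormedAddCommGroup Y] [NormedSpace ℝ Y] (T : Y →L[ℝ] X)
    (h k : X →L[ℝ] ℝ) : ‖(h + k).comp T‖ ≤ ‖h.comp T‖ + ‖k.comp T‖ := by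
  rw [ContinuousLinearMap.add_comp]
  exact norm_add_le _ _

private theorem gen_nonneg {Y : Type*} [NormedAddCommGroup Y] [NormedSpace ℝ Y] (T : Y →L[ℝ] ℝ) :
    0 ≤ ‖T‖ := norm_nonneg _

theorem dn_nonneg (f : ℕ → (X →L[ℝ] ℝ)) (n : ℕ) (h : X →L[ℝ] ℝ) : 0 ≤ dn f n h := by
  unfold dn
  exact gen_nonneg _

theorem dn_le_norm (f : ℕ → (X →L[ℝ] ℝ)) (n : ℕ) (h : X →L[ℝ] ℝ) : dn f n h ≤ ‖h‖ := by
  unfold dn
  refine ContinuousLinearMap.opNorm_le_bound _ (norm_nonneg _) fun x => ?_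
  exact h.le_opNorm (x : X)

theorem dn_smul (f : ℕ → (X →L[ℝ] ℝ)) (n : ℕ) (c : ℝ) (h : X →L[ℝ] ℝ) :
    dn f n (c • h) = |c| * dn f n h := by
  unfold dn
  exact gen_smul _ c h

theorem dn_add_le (f : ℕ → (X →L[ℝ] ℝ)) (n : ℕ) (h k : X →L[ℝ] ℝ) :
    dn f n (h + k) ≤ dn f n h + dn f n k := by
  unfold dn
  exact gen_add _ h k

theorem dn_tendsto {f : ℕ → (X →L[ℝ] ℝ)} (hf : DenseRange f) (h : X →L[ℝ] ℝ) :
    Tendsto (fun n => dn f n h) atTop (𝓝 0) := by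
  rw [Metric.tendsto_atTop]
  intro ε hε
  obtain ⟨i, hi⟩ := hf.exists_dist_lt h hε
  refine ⟨i + 1, fun n hn => ?_⟩
  have h1 : (f i).comp (Kn f n).subtypeL = 0 := by
    ext x
    exact x.2 i (by omega)
  have h2 : dn f n h = dn f n (h - f i) := by
    unfold dn
    rw [ContinuousLinearMap.sub_comp, h1, sub_zero]
  rw [Real.dist_eq, sub_zero, abs_of_nonneg (dn_nonneg f n h), h2]
  refine lt_of_le_of_lt (dn_le_norm f n _) ?_
  rw [← dist_eq_norm]
  exact hi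

theorem dn_split (f : ℕ → (X →L[ℝ] ℝ)) (n : ℕ) (h : X →L[ℝ] ℝ) :
    ∃ h' y : X →L[ℝ] ℝ, h = h' + y ∧ ‖h'‖ = dn f n h ∧ y ∈ Submodule.span ℝ (f '' Iio n) := by
  obtain ⟨g, hg, hn⟩ := exists_extension_norm_eq (Kn f n) (h.comp (Kn f n).subtypeL)
  refine ⟨g, h - g, by abel, hn, ?_⟩
  have hker : ⨅ i : Fin n, LinearMap.ker (f i : X →L[ℝ] ℝ).toLinearMap ≤ LinearMap.ker (h - g).toLinearMap := by
    intro x hx
    rw [Submodule.mem_iInf] at hx
    have hx' : x ∈ Kn f n := by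
      intro i hi
      exact hx ⟨i, hi⟩
    have h1 := hg ⟨x, hx'⟩
    have h2 : g x = h x := h1
    change h x - g x = 0
    rw [h2, sub_self]
  have hspan := mem_span_of_iInf_ker_le_ker hker
  obtain ⟨c, hc⟩ := (Submodule.mem_span_range_iff_exists_fun ℝ).1 hspan
  have hy : h - g = ∑ i : Fin n, c i • f i := by
    ext x
    have h3 := LinearMap.congr_fun hc x
    have h4 : (h - g) x = ((h - g).toLinearMap) x := rfl
    rw [h4, ← h3]
    simp
  rw [hy]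
  refine Submodule.sum_mem _ fun i _ => Submodule.smul_mem _ _ (Submodule.subset_span ?_)
  exact ⟨i, i.2, rfl⟩

theorem lt_norm_of_tendsto {L : Filter (X →L[ℝ] ℝ)} {k : X →L[ℝ] ℝ}
    (hL : ∀ y, Tendsto (fun h : X →L[ℝ] ℝ => h y) L (𝓝 (k y))) {a : ℝ} (ha : a < ‖k‖) :
    ∀ᶠ h in L, a < ‖h‖ := by
  obtain ⟨y, hy1, hy2⟩ := k.exists_lt_apply_of_lt_opNorm ha
  have h1 := (hL y).norm.eventually_const_lt hy2
  filter_upwards [h1] with h hh
  refine lt_of_lt_of_le hh ?_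
  calc ‖h y‖ ≤ ‖h‖ * ‖y‖ := h.le_opNorm y
    _ ≤ ‖h‖ * 1 := mul_le_mul_of_nonneg_left hy1.le (norm_nonneg _)
    _ = ‖h‖ := mul_one _

theorem lt_dn_of_tendsto (f : ℕ → (X →L[ℝ] ℝ)) (n : ℕ) {L : Filter (X →L[ℝ] ℝ)} {k : X →L[ℝ] ℝ}
    (hL : ∀ y, Tendsto (fun h : X →L[ℝ] ℝ => h y) L (𝓝 (k y))) {a : ℝ} (ha : a < dn f n k) :
    ∀ᶠ h in L, a < dn f n h := by
  obtain ⟨y, hy1, hy2⟩ := (k.comp (Kn f n).subtypeL).exists_lt_apply_of_lt_opNorm ha
  have hy3 : a < ‖k (y : X)‖ := hy2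
  have h1 := (hL (y : X)).norm.eventually_const_lt hy3
  filter_upwards [h1] with h hh
  refine lt_of_lt_of_le hh ?_
  have h2 : ‖h (y : X)‖ ≤ dn f n h * ‖y‖ := (h.comp (Kn f n).subtypeL).le_opNorm y
  calc ‖h (y : X)‖ ≤ dn f n h * ‖y‖ := h2
    _ ≤ dn f n h * 1 := mul_le_mul_of_nonneg_left hy1.le (dn_nonneg f n h)
    _ = dn f n h := mul_one _

end Pool.Agent.H36.BL
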