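import Pool.Agent.H36.BL.Defs

set_option autoImplicit false

open Set Filter Topology

/-!
# Module Ekeland: Ekeland's variational principle on a closed set
-/

namespace Pool.Agent.H36.BL

theorem ekeland {M : Type*} [MetricSpace M] [CompleteSpace M] {Y : Set M} (hY : IsClosed Y)
    (hne : Y.Nonempty) {F : M → ℝ} (hF : ContinuousOn F Y) (hb : ∃ c, ∀ x ∈ Y, c ≤ F x) {ε : ℝ}
    (hε : 0 < ε) : ∃ y ∈ Y, ∀ x ∈ Y, F y ≤ F x + ε * dist x y := by
  classical
  obtain ⟨c, hc⟩ := hb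
  -- A x = {y ∈ Y | F y + ε dist x y ≤ F x}
  let A : M → Set M := fun x => {y | y ∈ Y ∧ F y + ε * dist x y ≤ F x}
  have hAself : ∀ x ∈ Y, x ∈ A x := by
    intro x hx
    exact ⟨hx, by rw [dist_self, mul_zero, add_zero]⟩
  have hAbdd : ∀ x, BddBelow (F '' A x) := by
    intro x
    refine ⟨c, ?_⟩
    rintro _ ⟨y, hy, rfl⟩
    exact hc y hy.1
  have hstep : ∀ (x : Y) (n : ℕ), ∃ y : Y, y.1 ∈ A x.1 ∧ F y.1 < sInf (F '' A x.1) + 1 / ((n:ℝ) + 1) := by
    intro x n
    have h1 : (F '' A x.1).Nonempty := ⟨F x.1, x.1, hAself x.1 x.2, rfl⟩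
    have h2 : sInf (F '' A x.1) < sInf (F '' A x.1) + 1 / ((n:ℝ) + 1) := by
      have : 0 < 1 / ((n:ℝ) + 1) := by positivity
      linarith
    obtain ⟨_, ⟨y, hy, rfl⟩, hy2⟩ := exists_lt_of_csInf_lt h1 h2
    exact ⟨⟨y, hy.1⟩, hy, hy2⟩
  choose nx hnxA hnxF using hstep
  obtain ⟨y0, hy0⟩ := hne
  let s : ℕ → Y := fun n => Nat.rec ⟨y0, hy0⟩ (fun n x => nx x n) n
  have hs : ∀ n, s (n + 1) = nx (s n) n := fun n => rfl
  have htrans : ∀ x y z : M, y ∈ A x → z ∈ A y → z ∈ A x := by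
    intro x y z hy hz
    refine ⟨hz.1, ?_⟩
    have h1 := hy.2
    have h2 := hz.2
    have h3 := dist_triangle x y z
    nlinarith
  have hsA : ∀ n m, n ≤ m → (s m).1 ∈ A (s n).1 := by
    intro n m hnm
    induction m, hnm using Nat.le_induction with
    | base => exact hAself _ (s n).2
    | succ m hm ih =>
      refine htrans _ _ _ ih ?_
      rw [hs]
      exact hnxA (s m) m
  -- every point of A (s (n+1)) is close to s (n+1)
  have hclose : ∀ n, ∀ z ∈ A (s (n + 1)).1, ε * dist (s (n+1)).1 z ≤ 1 / ((n:ℝ) + 1) := by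
    intro n z hz
    have h1 : z ∈ A (s n).1 := htrans _ _ _ (hsA n (n+1) (Nat.le_succ n)) hz
    have h2 : sInf (F '' A (s n).1) ≤ F z := csInf_le (hAbdd _) ⟨z, h1, rfl⟩
    have h3 := hnxF (s n) n
    rw [← hs] at h3
    have h4 := hz.2
    linarith
  have hcauchy : CauchySeq (fun n => (s n).1) := by
    rw [Metric.cauchySeq_iff']
    intro δ hδ
    obtain ⟨N, hN⟩ := exists_nat_gt (1 / (ε * δ))
    refine ⟨N + 1, fun n hn => ?_⟩
    have h1 := hclose N (s n).1 (hsA (N+1) n hn)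
    have h2 : 0 < ε * δ := by positivity
    have h3 : 1 / ((N:ℝ) + 1) < ε * δ := by
      rw [div_lt_iff₀ (by positivity)]
      rw [div_lt_iff₀ h2] at hN
      nlinarith
    rw [dist_comm]
    have h4 : ε * dist (s (N+1)).1 (s n).1 < ε * δ := lt_of_le_of_lt h1 h3
    exact lt_of_mul_lt_mul_left h4 hε.le
  obtain ⟨y, hy⟩ := cauchySeq_tendsto_of_complete hcauchy
  have hyY : y ∈ Y := hY.mem_of_tendsto hy (Eventually.of_forall fun n => (s n).2)
  have hFy : Tendsto (fun n => F (s n).1) atTop (𝓝 (F y)) := by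
    have h1 := hF y hyY
    exact h1.tendsto.comp (tendsto_nhdsWithin_iff.mpr ⟨hy, Eventually.of_forall fun n => (s n).2⟩)
  have hyA : ∀ n, y ∈ A (s n).1 := by
    intro n
    refine ⟨hyY, ?_⟩
    have h1 : Tendsto (fun m => F (s m).1 + ε * dist (s n).1 (s m).1) atTop
        (𝓝 (F y + ε * dist (s n).1 y)) :=
      hFy.add ((tendsto_const_nhds.dist hy).const_mul ε)
    refine le_of_tendsto h1 ?_
    filter_upwards [eventually_ge_atTop n] with m hm
    exact (hsA n m hm).2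
  refine ⟨y, hyY, fun x hx => ?_⟩
  by_contra hcon
  push Not at hcon
  have hxA : x ∈ A y := ⟨hx, by rw [dist_comm]; exact hcon.le⟩
  have hxy : x = y := by
    have h1 : ∀ n, x ∈ A (s n).1 := fun n => htrans _ _ _ (hyA n) hxA
    have h2 : Tendsto (fun n => (s (n+1)).1) atTop (𝓝 x) := by
      rw [tendsto_iff_dist_tendsto_zero]
      have h3 : Tendsto (fun n : ℕ => (1 / ((n:ℝ) + 1)) / ε) atTop (𝓝 (0 / ε)) :=
        tendsto_one_div_add_atTop_nhds_zero_nat.div_const ε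
      rw [zero_div] at h3
      refine squeeze_zero (fun n => dist_nonneg) (fun n => ?_) h3
      rw [le_div_iff₀ hε, mul_comm]
      exact hclose n x (h1 (n+1))
    exact tendsto_nhds_unique h2 ((tendsto_add_atTop_iff_nat 1).mpr hy)
  rw [hxy, dist_self, mul_zero, add_zero] at hcon
  exact lt_irrefl _ hcon

end Pool.Agent.H36.BL
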