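import Pool.Agent.H36.BL.BlidDiff

set_option autoImplicit false

open Set Filter Topology

/-!
# Module Encl: blid maps at a set that encloses a point of its complement give bumps
-/

namespace Pool.Agent.H36.BL

variable {X : Type*} [NormedAddCommGroup X] [NormedSpace ℝ X]

/-- the three cases for a function which is `F` on `D` and `0` outside, when `F = 0` near the frontier -/
theorem encl_cases {S D : Set X} (hD : IsOpen D) (hfr : frontier D ⊆ S) {H : X → X} {V : Set X}
    (hV : V ∈ 𝓝ˢ S) (hHV : ∀ x ∈ V, H x = x) (l : X →L[ℝ] ℝ) (x : X) [DecidablePred (· ∈ D)] :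
    (fun y => if y ∈ D then l (H y - y) else 0) =ᶠ[𝓝 x] (fun y => l (H y - y)) ∨
    (fun y => if y ∈ D then l (H y - y) else 0) =ᶠ[𝓝 x] fun _ => 0 := by
  by_cases hx : x ∈ D
  · left
    filter_upwards [hD.mem_nhds hx] with y hy
    rw [if_pos hy]
  · right
    by_cases hx2 : x ∈ closure D
    · have h1 : x ∈ frontier D := by
        rw [frontier, hD.interior_eq]
        exact ⟨hx2, hx⟩
      have h2 : V ∈ 𝓝 x := mem_nhdsSet_iff_forall.mp hV x (hfr h1)
      filter_upwards [h2] with y hy
      rw [hHV y hy, sub_self, map_zero, ite_self]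
    · filter_upwards [isClosed_closure.isOpen_compl.mem_nhds hx2] with y hy
      rw [if_neg (fun h => hy (subset_closure h))]

theorem hasBump_of_encl {q : ℕ∞} {S D : Set X} (hD : IsOpen D) (hb : Bornology.IsBounded D)
    (hfr : frontier D ⊆ S) (hDS : ¬ D ⊆ S) (h : AdmitsBlidMaps q S) : HasBump X q := by
  classical
  obtain ⟨x0, hx0, hx0S⟩ := not_subset.mp hDS
  obtain ⟨H, hH, hU, V, hV, -, hHV⟩ := h {x : X | x ≠ x0} (by
    rw [mem_nhdsSet_iff_forall]
    intro x hx
    exact isOpen_ne.mem_nhds (fun h0 => hx0S (h0 ▸ hx)))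
  have h0 : H x0 - x0 ≠ 0 := sub_ne_zero.mpr (hU x0)
  obtain ⟨l, -, hl⟩ := exists_dual_vector ℝ (H x0 - x0) (norm_ne_zero_iff.mpr h0)
  refine ⟨fun x => if x ∈ D then l (H x - x) else 0, ?_, ⟨x0, ?_⟩, ?_⟩
  · rw [contDiff_iff_contDiffAt]
    intro x
    rcases encl_cases hD hfr hV hHV l x with h1 | h1
    · refine ContDiffAt.congr_of_eventuallyEq ?_ h1
      exact l.contDiff.contDiffAt.comp x (hH.contDiffAt.sub contDiffAt_id)
    · exact contDiffAt_const.congr_of_eventuallyEq h1
  · simp only [if_pos hx0]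
    rw [hl]
    simpa using h0
  · apply hb.subset
    intro x hx
    rw [Function.mem_support] at hx
    by_contra hcon
    exact hx (if_neg hcon)

theorem diffBump_of_encl {S D : Set X} (hD : IsOpen D) (hb : Bornology.IsBounded D)
    (hfr : frontier D ⊆ S) (hDS : ¬ D ⊆ S) (h : AdmitsDiffBlidMaps S) :
    ∃ b : X → ℝ, Differentiable ℝ b ∧ (∃ x, b x ≠ 0) ∧
      Bornology.IsBounded (Function.support b) := by
  classical
  obtain ⟨x0, hx0, hx0S⟩ := not_subset.mp hDS
  obtain ⟨H, hH, hU, V, hV, -, hHV⟩ := h {x : X | x ≠ x0} (by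
    rw [mem_nhdsSet_iff_forall]
    intro x hx
    exact isOpen_ne.mem_nhds (fun h0 => hx0S (h0 ▸ hx)))
  have h0 : H x0 - x0 ≠ 0 := sub_ne_zero.mpr (hU x0)
  obtain ⟨l, -, hl⟩ := exists_dual_vector ℝ (H x0 - x0) (norm_ne_zero_iff.mpr h0)
  refine ⟨fun x => if x ∈ D then l (H x - x) else 0, ?_, ⟨x0, ?_⟩, ?_⟩
  · intro x
    rcases encl_cases hD hfr hV hHV l x with h1 | h1
    · refine DifferentiableAt.congr_of_eventuallyEq ?_ h1
      exact l.differentiableAt.comp x ((hH x).sub differentiableAt_id)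
    · exact (differentiableAt_const 0).congr_of_eventuallyEq h1
  · simp only [if_pos hx0]
    rw [hl]
    simpa using h0
  · apply hb.subset
    intro x hx
    rw [Function.mem_support] at hx
    by_contra hcon
    exact hx (if_neg hcon)

omit [NormedSpace ℝ X] in
/-- the sphere encloses the centre -/
theorem sphere_encl {r : ℝ} (hr : 0 < r) :
    frontier (Metric.ball (0 : X) r) ⊆ Metric.sphere 0 r ∧
      ¬ Metric.ball (0 : X) r ⊆ Metric.sphere 0 r := by
  constructor
  · exact Metric.frontier_ball_subset_sphere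
  · intro h
    have := h (Metric.mem_ball_self hr)
    rw [Metric.mem_sphere, dist_self] at this
    exact hr.ne this

end Pool.Agent.H36.BL
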