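import Pool.Agent.H36.BL.Defs

set_option autoImplicit false

open Set Filter Topology

/-!
# Module GClass: the class of real functions that are `C^1` in the sense of Gateaux and Bastiani

PROOFS. Sum, product, composition with a `C^1` function: differentiate `s ↦ f (x + s • h)` (`HasDerivAt.add`, `.mul`,
`.comp`), derivatives `f' x + g' x`, `f x • g' x + g x • f' x`, `θ' (f x) • f' x`, `- (f x ^ 2)⁻¹ • f' x`; joint continuity of
`(x, h) ↦ …` is clear. `loc`: choose for every `x` a member `g x` with `f =ᶠ[𝓝 x] g x` and let `f' x` be the derivative of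
`g x` at `x`; near `x` the derivatives agree with those of `g x` because `HasDerivAt` is unique.
`comp_affine`: `y ↦ f (K • (y - a))` has derivative `K • f' (K • (y - a))`.
`gateauxC1_sum`: near every point the sum is a finite sum; same locality argument for maps into `X`.
-/

namespace Pool.Agent.H36.BL

variable {X : Type*} [NormedAddCommGroup X] [NormedSpace ℝ X]

private lemma loc_gateaux {Y : Type*} [NormedAddCommGroup Y] [NormedSpace ℝ Y] {H : X → Y}
    (hloc : ∀ x, ∃ g : X → Y, GateauxC1 g ∧ H =ᶠ[𝓝 x] g) : GateauxC1 H := by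
  choose g hg hHg using hloc
  choose g' hg' cg' using fun x => (hg x).2
  have hder : ∀ x h : X, HasDerivAt (fun s : ℝ => H (x + s • h)) (g' x x h) 0 := by
    intro x h
    refine (hg' x x h).congr_of_eventuallyEq ?_
    have ht : Tendsto (fun s : ℝ => x + s • h) (𝓝 0) (𝓝 x) := by
      have hc : Continuous (fun s : ℝ => x + s • h) := by fun_prop
      have := hc.tendsto 0
      simpa using this
    exact ht.eventually (hHg x)
  refine ⟨?_, fun x => g' x x, hder, ?_⟩
  · rw [continuous_iff_continuousAt]
    intro x
    exact ((hg x).1.continuousAt).congr (hHg x).symm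
  · rw [continuous_iff_continuousAt]
    rintro ⟨x0, h0⟩
    have hev : ∀ᶠ y in 𝓝 x0, H =ᶠ[𝓝 y] g x0 := eventually_eventually_nhds.2 (hHg x0)
    have hev2 : ∀ᶠ p : X × X in 𝓝 (x0, h0), g' x0 p.1 p.2 = g' p.1 p.1 p.2 := by
      have := (continuous_fst.tendsto (x0, h0)).eventually hev
      filter_upwards [this] with p hp
      refine HasDerivAt.unique (hg' x0 p.1 p.2) ?_
      refine (hder p.1 p.2).congr_of_eventuallyEq ?_
      have ht : Tendsto (fun s : ℝ => p.1 + s • p.2) (𝓝 0) (𝓝 p.1) := by
        have hc : Continuous (fun s : ℝ => p.1 + s • p.2) := by fun_prop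
        have := hc.tendsto 0
        simpa using this
      exact ht.eventually hp.symm
    exact ((cg' x0).continuousAt).congr hev2

/-- the class `GateauxC1` of real functions -/
def gClass (X : Type*) [NormedAddCommGroup X] [NormedSpace ℝ X] : SmClass X where
  mem f := GateauxC1 f
  cont := by
    intro f hf
    exact hf.1
  const := by
    intro c
    refine ⟨continuous_const, fun _ => 0, ?_, ?_⟩
    · intro x h
      simpa using hasDerivAt_const (0 : ℝ) c
    · simpa using continuous_const
  add := by
    rintro f g ⟨hf, f', hf', cf'⟩ ⟨hg, g', hg', cg'⟩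
    refine ⟨hf.add hg, fun x => f' x + g' x, ?_, ?_⟩
    · intro x h
      exact (hf' x h).add (hg' x h)
    · exact cf'.add cg'
  mul := by
    rintro f g ⟨hf, f', hf', cf'⟩ ⟨hg, g', hg', cg'⟩
    refine ⟨hf.mul hg, fun x => g x • f' x + f x • g' x, ?_, ?_⟩
    · intro x h
      refine ((hf' x h).fun_mul (hg' x h)).congr_deriv ?_
      simp only [zero_smul, add_zero]
      show f' x h * g x + f x * g' x h = g x * f' x h + f x * g' x h
      ring
    · have h1 : Continuous (fun p : X × X => g p.1 * f' p.1 p.2) :=
        (hg.comp continuous_fst).mul cf'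
      have h2 : Continuous (fun p : X × X => f p.1 * g' p.1 p.2) :=
        (hf.comp continuous_fst).mul cg'
      exact h1.add h2
  comp := by
    rintro f θ ⟨hf, f', hf', cf'⟩ hθ
    have hθd : Differentiable ℝ θ := hθ.differentiable (by simp)
    have hθc : Continuous (deriv θ) := hθ.continuous_deriv (by simp)
    refine ⟨hθ.continuous.comp hf, fun x => deriv θ (f x) • f' x, ?_, ?_⟩
    · intro x h
      have h1 : HasDerivAt θ (deriv θ (f x)) (f (x + (0 : ℝ) • h)) := by
        simpa using (hθd (f x)).hasDerivAt
      have := HasDerivAt.comp (0 : ℝ) h1 (hf' x h)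
      simpa [Function.comp_def] using this
    · have h1 : Continuous (fun p : X × X => deriv θ (f p.1) * f' p.1 p.2) :=
        (hθc.comp (hf.comp continuous_fst)).mul cf'
      simpa using h1
  inv := by
    rintro f ⟨hf, f', hf', cf'⟩ hpos
    refine ⟨hf.inv₀ (fun x => (hpos x).ne'), fun x => (-(f x ^ 2)⁻¹) • f' x, ?_, ?_⟩
    · intro x h
      refine ((hf' x h).fun_inv (hpos _).ne').congr_deriv ?_
      simp only [zero_smul, add_zero]
      show -f' x h / f x ^ 2 = (-(f x ^ 2)⁻¹) * f' x h
      rw [neg_mul, neg_div, inv_mul_eq_div]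
    · have h0 : Continuous (fun p : X × X => -(f p.1 ^ 2)⁻¹) :=
        (((hf.comp continuous_fst).pow 2).inv₀
          (fun p => pow_ne_zero 2 (hpos p.1).ne')).neg
      have h1 : Continuous (fun p : X × X => (-(f p.1 ^ 2)⁻¹) * f' p.1 p.2) := h0.mul cf'
      simpa using h1
  loc := by
    intro f hf
    exact loc_gateaux hf

theorem GateauxC1.comp_affine {f : X → ℝ} (hf : GateauxC1 f) (K : ℝ) (a : X) :
    GateauxC1 (fun y => f (K • (y - a))) := by
  obtain ⟨hfc, f', hf', cf'⟩ := hf
  refine ⟨?_, fun y => K • f' (K • (y - a)), ?_, ?_⟩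
  · exact hfc.comp (by fun_prop)
  · intro y h
    have := hf' (K • (y - a)) (K • h)
    have h1 : (fun s : ℝ => f (K • (y + s • h - a))) =
        (fun s : ℝ => f (K • (y - a) + s • K • h)) := by
      funext s
      congr 1
      rw [smul_comm s K h, ← smul_add]
      congr 1
      abel
    show HasDerivAt (fun s : ℝ => f (K • (y + s • h - a))) _ 0
    rw [h1]
    refine this.congr_deriv ?_
    show f' (K • (y - a)) (K • h) = K • f' (K • (y - a)) h
    rw [map_smul]
  · have h1 : Continuous (fun p : X × X => ((K • (p.1 - a), p.2) : X × X)) := by fun_prop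
    have h2 : Continuous (fun p : X × X => K * f' (K • (p.1 - a)) p.2) :=
      continuous_const.mul (cf'.comp h1)
    simpa using h2

theorem gateauxC1_sum {θ : ℕ → X → ℝ} (hθ : ∀ n, GateauxC1 (θ n))
    (hlf : LocallyFinite fun n => Function.support (θ n)) (v : ℕ → X) :
    GateauxC1 (fun x => x + ∑ᶠ n, θ n x • v n) := by
  choose θ' hθ' cθ' using fun n => (hθ n).2
  refine loc_gateaux fun x0 => ?_
  obtain ⟨U, hU, hfin⟩ := hlf x0
  refine ⟨fun x => x + ∑ n ∈ hfin.toFinset, θ n x • v n, ?_, ?_⟩
  · refine ⟨?_, fun x => ContinuousLinearMap.id ℝ X +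
      ∑ n ∈ hfin.toFinset, (θ' n x).smulRight (v n), ?_, ?_⟩
    · refine continuous_id.add (continuous_finsetSum _ fun n _ => ?_)
      exact (hθ n).1.smul continuous_const
    · intro x h
      have h1 : HasDerivAt (fun s : ℝ => x + s • h) h 0 := by
        have := ((hasDerivAt_id (0 : ℝ)).smul_const h).const_add x
        simpa using this
      have h2 : HasDerivAt (fun s : ℝ => ∑ n ∈ hfin.toFinset, θ n (x + s • h) • v n)
          (∑ n ∈ hfin.toFinset, θ' n x h • v n) 0 :=
        HasDerivAt.fun_sum fun n _ => (hθ' n x h).smul_const (v n)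
      refine (h1.fun_add h2).congr_deriv ?_
      simp
    · have h1 : Continuous (fun p : X × X =>
          p.2 + ∑ n ∈ hfin.toFinset, θ' n p.1 p.2 • v n) :=
        continuous_snd.add (continuous_finsetSum _ fun n _ => (cθ' n).smul continuous_const)
      convert h1 using 1
      funext p
      simp
  · filter_upwards [hU] with x hx
    congr 1
    refine finsum_eq_sum_of_support_subset _ ?_
    intro n hn
    simp only [Function.mem_support, ne_eq] at hn
    simp only [Finite.coe_toFinset, Set.mem_ofPred_eq]
    refine ⟨x, ?_, hx⟩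
    simp only [Function.mem_support, ne_eq]
    intro h0
    exact hn (by rw [h0, zero_smul])

end Pool.Agent.H36.BL
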