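import Pool.Agent.H36.BL.DnFacts

set_option autoImplicit false

open Set Filter Topology

/-!
# Module GFacts: the function `gf`

All series are dominated by `∑ (1/2)^n * ‖h‖^2` (`dn ≤ ‖h‖`, `|h (x n)| ≤ ‖h‖`), sum `2 ‖h‖^2`.
`defect`: write `m = (1/2) • (h + k)`. Termwise: `‖m‖^2 ≤ (‖h‖^2 + ‖k‖^2) / 2`;
`dn m ^ 2 ≤ ((dn h + dn k) / 2)^2 = (dn h^2 + dn k^2) / 2 - (dn h - dn k)^2 / 4`;
`(m (x n))^2 = ((h (x n))^2 + (k (x n))^2) / 2 - ((h - k) (x n))^2 / 4`. Sum up and drop all the gains but one.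
`gf_le_of_tendsto`: for every `N` and `δ > 0`, eventually `‖h‖^2 + κ ∑ n<N … + ∑ n<N … > (the same for k) - δ`
(`lt_norm_of_tendsto`, `lt_dn_of_tendsto`, all quantities nonnegative), and `gf h` is at least the partial sum.
So the partial sums at `k` are `≤ c`; pass to the limit `N → ∞`.
-/

namespace Pool.Agent.H36.BL

variable {X : Type*} [NormedAddCommGroup X] [NormedSpace ℝ X]

private theorem dn_sq_le (f : ℕ → (X →L[ℝ] ℝ)) (n : ℕ) (h : X →L[ℝ] ℝ) : dn f n h ^ 2 ≤ ‖h‖ ^ 2 :=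
  pow_le_pow_left₀ (dn_nonneg f n h) (dn_le_norm f n h) 2

private theorem ev_sq_le {x : ℕ → X} (hx : ∀ n, ‖x n‖ ≤ 1) (n : ℕ) (h : X →L[ℝ] ℝ) :
    (h (x n)) ^ 2 ≤ ‖h‖ ^ 2 := by
  have h1 : |h (x n)| ≤ ‖h‖ := by
    have h2 := h.le_opNorm (x n)
    rw [Real.norm_eq_abs] at h2
    have h3 : ‖h‖ * ‖x n‖ ≤ ‖h‖ * 1 := mul_le_mul_of_nonneg_left (hx n) (norm_nonneg h)
    linarith
  exact sq_le_sq' (by linarith [(abs_le.1 h1).1]) (abs_le.1 h1).2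

private theorem sumA (f : ℕ → (X →L[ℝ] ℝ)) (h : X →L[ℝ] ℝ) :
    Summable fun n => (1 / 2 : ℝ) ^ n * dn f n h ^ 2 :=
  Summable.of_nonneg_of_le (fun n => by positivity)
    (fun n => mul_le_mul_of_nonneg_left (dn_sq_le f n h) (by positivity))
    (summable_geometric_two.mul_right (‖h‖ ^ 2))

private theorem sumB {x : ℕ → X} (hx : ∀ n, ‖x n‖ ≤ 1) (h : X →L[ℝ] ℝ) :
    Summable fun n => (1 / 2 : ℝ) ^ n * (h (x n)) ^ 2 :=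
  Summable.of_nonneg_of_le (fun n => by positivity)
    (fun n => mul_le_mul_of_nonneg_left (ev_sq_le hx n h) (by positivity))
    (summable_geometric_two.mul_right (‖h‖ ^ 2))

theorem norm_sq_le_gf {κ : ℝ} (hκ : 0 ≤ κ) (f : ℕ → (X →L[ℝ] ℝ)) {x : ℕ → X} (hx : ∀ n, ‖x n‖ ≤ 1)
    (h : X →L[ℝ] ℝ) : ‖h‖ ^ 2 ≤ gf κ f x h := by
  have h1 : 0 ≤ ∑' n, (1 / 2 : ℝ) ^ n * dn f n h ^ 2 := tsum_nonneg fun n => by positivity
  have h2 : 0 ≤ ∑' n, (1 / 2 : ℝ) ^ n * (h (x n)) ^ 2 := tsum_nonneg fun n => by positivity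
  have h3 := mul_nonneg hκ h1
  unfold gf
  linarith

private theorem tsum_le_two {u : ℕ → ℝ} (hu : Summable u) {c : ℝ} (h : ∀ n, u n ≤ (1 / 2 : ℝ) ^ n * c) :
    ∑' n, u n ≤ 2 * c := by
  have h1 := hu.tsum_le_tsum h (summable_geometric_two.mul_right c)
  rwa [tsum_mul_right, tsum_geometric_two] at h1

theorem gf_le {κ : ℝ} (hκ : 0 ≤ κ) (hκ1 : κ ≤ 1) (f : ℕ → (X →L[ℝ] ℝ)) {x : ℕ → X}
    (hx : ∀ n, ‖x n‖ ≤ 1) (h : X →L[ℝ] ℝ) : gf κ f x h ≤ 5 * ‖h‖ ^ 2 := by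
  have h1 : ∑' n, (1 / 2 : ℝ) ^ n * dn f n h ^ 2 ≤ 2 * ‖h‖ ^ 2 :=
    tsum_le_two (sumA f h) fun n => mul_le_mul_of_nonneg_left (dn_sq_le f n h) (by positivity)
  have h2 : ∑' n, (1 / 2 : ℝ) ^ n * (h (x n)) ^ 2 ≤ 2 * ‖h‖ ^ 2 :=
    tsum_le_two (sumB hx h) fun n => mul_le_mul_of_nonneg_left (ev_sq_le hx n h) (by positivity)
  have h3 : 0 ≤ ∑' n, (1 / 2 : ℝ) ^ n * dn f n h ^ 2 := tsum_nonneg fun n => by positivity
  have h4 : κ * ∑' n, (1 / 2 : ℝ) ^ n * dn f n h ^ 2 ≤ 1 * ∑' n, (1 / 2 : ℝ) ^ n * dn f n h ^ 2 :=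
    mul_le_mul_of_nonneg_right hκ1 h3
  unfold gf
  linarith

private theorem tsum_mid {u v w : ℕ → ℝ} (hu : Summable u) (hv : Summable v) (hw : Summable w)
    {g : ℕ → ℝ} (hg0 : ∀ n, 0 ≤ g n) (hg : ∀ n, w n + g n ≤ (u n + v n) / 2) (n : ℕ) :
    g n + ∑' n, w n ≤ ((∑' n, u n) + ∑' n, v n) / 2 := by
  have h1 : Summable fun n => (u n + v n) / 2 - w n := ((hu.add hv).div_const 2).sub hw
  have h2 : ∑' n, ((u n + v n) / 2 - w n) = ((∑' n, u n) + ∑' n, v n) / 2 - ∑' n, w n := by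
    rw [((hu.add hv).div_const 2).tsum_sub hw, tsum_div_const, hu.tsum_add hv]
  have h3 := h1.le_tsum n (fun j _ => by linarith [hg0 j, hg j])
  rw [h2] at h3
  linarith [hg n]

private theorem norm_mid (h k : X →L[ℝ] ℝ) :
    ‖(1 / 2 : ℝ) • (h + k)‖ ^ 2 ≤ (‖h‖ ^ 2 + ‖k‖ ^ 2) / 2 := by
  have h1 : ‖(1 / 2 : ℝ) • (h + k)‖ ≤ (‖h‖ + ‖k‖) / 2 := by
    rw [norm_smul, Real.norm_eq_abs, abs_of_pos (by norm_num : (0 : ℝ) < 1 / 2)]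
    have h2 := norm_add_le h k
    linarith
  have h2 := pow_le_pow_left₀ (norm_nonneg _) h1 2
  nlinarith [sq_nonneg (‖h‖ - ‖k‖)]

private theorem midA (f : ℕ → (X →L[ℝ] ℝ)) (h k : X →L[ℝ] ℝ) (n : ℕ) :
    (1 / 2 : ℝ) ^ n * dn f n ((1 / 2 : ℝ) • (h + k)) ^ 2 + (1 / 2 : ℝ) ^ n * (dn f n h - dn f n k) ^ 2 / 4 ≤
      ((1 / 2 : ℝ) ^ n * dn f n h ^ 2 + (1 / 2 : ℝ) ^ n * dn f n k ^ 2) / 2 := by
  have h1 : dn f n ((1 / 2 : ℝ) • (h + k)) ≤ (dn f n h + dn f n k) / 2 := by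
    rw [dn_smul, abs_of_pos (by norm_num : (0 : ℝ) < 1 / 2)]
    have h2 := dn_add_le f n h k
    linarith
  have h2 := pow_le_pow_left₀ (dn_nonneg f n _) h1 2
  have h3 : (0 : ℝ) < (1 / 2) ^ n := by positivity
  have h4 := mul_le_mul_of_nonneg_left h2 h3.le
  have h5 : (1 / 2 : ℝ) ^ n * ((dn f n h + dn f n k) / 2) ^ 2 =
      ((1 / 2 : ℝ) ^ n * dn f n h ^ 2 + (1 / 2 : ℝ) ^ n * dn f n k ^ 2) / 2 -
        (1 / 2 : ℝ) ^ n * (dn f n h - dn f n k) ^ 2 / 4 := by ring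
  linarith

private theorem midB {x : ℕ → X} (h k : X →L[ℝ] ℝ) (n : ℕ) :
    (1 / 2 : ℝ) ^ n * (((1 / 2 : ℝ) • (h + k)) (x n)) ^ 2 + (1 / 2 : ℝ) ^ n * ((h - k) (x n)) ^ 2 / 4 ≤
      ((1 / 2 : ℝ) ^ n * (h (x n)) ^ 2 + (1 / 2 : ℝ) ^ n * (k (x n)) ^ 2) / 2 := by
  have h1 : ((1 / 2 : ℝ) • (h + k)) (x n) = 1 / 2 * (h (x n) + k (x n)) := by
    simp
    ring
  have h2 : (h - k) (x n) = h (x n) - k (x n) := by
    simp
  rw [h1, h2]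
  apply le_of_eq
  ring

private theorem defect_gen {κ : ℝ} (hκ : 0 ≤ κ) (f : ℕ → (X →L[ℝ] ℝ)) {x : ℕ → X} (hx : ∀ n, ‖x n‖ ≤ 1)
    (h k : X →L[ℝ] ℝ) (n : ℕ) :
    κ * ((1 / 2 : ℝ) ^ n * (dn f n h - dn f n k) ^ 2 / 4) + (1 / 2 : ℝ) ^ n * ((h - k) (x n)) ^ 2 / 4 ≤
      (gf κ f x h + gf κ f x k) / 2 - gf κ f x ((1 / 2 : ℝ) • (h + k)) := by
  have h1 := norm_mid h k
  have h2 := tsum_mid (sumA f h) (sumA f k) (sumA f ((1 / 2 : ℝ) • (h + k)))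
    (g := fun n => (1 / 2 : ℝ) ^ n * (dn f n h - dn f n k) ^ 2 / 4) (fun n => by positivity)
    (midA f h k) n
  have h3 := tsum_mid (sumB hx h) (sumB hx k) (sumB hx ((1 / 2 : ℝ) • (h + k)))
    (g := fun n => (1 / 2 : ℝ) ^ n * ((h - k) (x n)) ^ 2 / 4) (fun n => by positivity)
    (midB h k) n
  have h4 := mul_le_mul_of_nonneg_left h2 hκ
  unfold gf
  linarith

theorem defect_dn {κ : ℝ} (hκ : 0 ≤ κ) (f : ℕ → (X →L[ℝ] ℝ)) {x : ℕ → X} (hx : ∀ n, ‖x n‖ ≤ 1)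
    (h k : X →L[ℝ] ℝ) (n : ℕ) :
    κ * ((1 / 2 : ℝ) ^ n * (dn f n h - dn f n k) ^ 2 / 4) ≤
      (gf κ f x h + gf κ f x k) / 2 - gf κ f x ((1 / 2 : ℝ) • (h + k)) := by
  have h1 := defect_gen hκ f hx h k n
  have h2 : 0 ≤ (1 / 2 : ℝ) ^ n * ((h - k) (x n)) ^ 2 / 4 := by positivity
  linarith

theorem defect_x {κ : ℝ} (hκ : 0 ≤ κ) (f : ℕ → (X →L[ℝ] ℝ)) {x : ℕ → X} (hx : ∀ n, ‖x n‖ ≤ 1)
    (h k : X →L[ℝ] ℝ) (n : ℕ) :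
    (1 / 2 : ℝ) ^ n * ((h - k) (x n)) ^ 2 / 4 ≤
      (gf κ f x h + gf κ f x k) / 2 - gf κ f x ((1 / 2 : ℝ) • (h + k)) := by
  have h1 := defect_gen hκ f hx h k n
  have h2 : 0 ≤ κ * ((1 / 2 : ℝ) ^ n * (dn f n h - dn f n k) ^ 2 / 4) := by positivity
  linarith

section Lsc

variable {α : Type*} {L : Filter α}

private theorem lsc_add {u v : α → ℝ} {r s : ℝ}
    (hu : ∀ ε > 0, ∀ᶠ h in L, r - ε < u h) (hv : ∀ ε > 0, ∀ᶠ h in L, s - ε < v h) :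
    ∀ ε > 0, ∀ᶠ h in L, r + s - ε < u h + v h := by
  intro ε hε
  filter_upwards [hu (ε / 2) (by linarith), hv (ε / 2) (by linarith)] with h h1 h2
  linarith

private theorem lsc_mul {u : α → ℝ} {r c : ℝ} (hc : 0 ≤ c)
    (hu : ∀ ε > 0, ∀ᶠ h in L, r - ε < u h) : ∀ ε > 0, ∀ᶠ h in L, c * r - ε < c * u h := by
  intro ε hε
  have hp : 0 < ε / (c + 1) := by positivity
  filter_upwards [hu _ hp] with h h1
  have h2 : c * (r - ε / (c + 1)) ≤ c * u h := mul_le_mul_of_nonneg_left h1.le hc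
  have h3 : c * (ε / (c + 1)) < ε := by
    have h4 : (c + 1) * (ε / (c + 1)) = ε := by field_simp
    linarith
  linarith

private theorem lsc_sum {u : ℕ → α → ℝ} {r : ℕ → ℝ}
    (hu : ∀ n, ∀ ε > 0, ∀ᶠ h in L, r n - ε < u n h) (N : ℕ) :
    ∀ ε > 0, ∀ᶠ h in L, (∑ n ∈ Finset.range N, r n) - ε < ∑ n ∈ Finset.range N, u n h := by
  induction N with
  | zero =>
    intro ε hε
    refine Eventually.of_forall fun h => ?_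
    simp only [Finset.range_zero, Finset.sum_empty]
    linarith
  | succ N ih =>
    simp only [Finset.sum_range_succ]
    exact lsc_add ih (hu N)

private theorem lsc_sq {u : α → ℝ} {r : ℝ} (hr : 0 ≤ r)
    (hu : ∀ a < r, ∀ᶠ h in L, a < u h) : ∀ ε > 0, ∀ᶠ h in L, r ^ 2 - ε < u h ^ 2 := by
  intro ε hε
  rcases lt_or_ge (r ^ 2) ε with hlt | hge
  · refine Eventually.of_forall fun h => ?_
    have := sq_nonneg (u h)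
    linarith
  · have hr0 : 0 < r := by
      rcases hr.eq_or_lt with h0 | h0
      · rw [← h0] at hge
        norm_num at hge
        linarith
      · exact h0
    have h1 : Real.sqrt (r ^ 2 - ε) < r := by
      rw [Real.sqrt_lt' hr0]
      linarith
    filter_upwards [hu _ h1] with h h2
    have h3 := pow_lt_pow_left₀ h2 (Real.sqrt_nonneg _) two_ne_zero
    rwa [Real.sq_sqrt (by linarith)] at h3

private theorem lsc_tendsto {u : α → ℝ} {r : ℝ} (hu : Tendsto u L (𝓝 r)) :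
    ∀ ε > 0, ∀ᶠ h in L, r - ε < u h := by
  intro ε hε
  exact hu.eventually_const_lt (by linarith)

end Lsc

theorem gf_le_of_tendsto {κ : ℝ} (hκ : 0 ≤ κ) (f : ℕ → (X →L[ℝ] ℝ)) {x : ℕ → X}
    (hx : ∀ n, ‖x n‖ ≤ 1) {L : Filter (X →L[ℝ] ℝ)} [L.NeBot] {k : X →L[ℝ] ℝ}
    (hL : ∀ y, Tendsto (fun h : X →L[ℝ] ℝ => h y) L (𝓝 (k y))) {c : ℝ}
    (hc : ∀ δ > 0, ∀ᶠ h in L, gf κ f x h ≤ c + δ) : gf κ f x k ≤ c := by
  have hN : ∀ N : ℕ, ‖k‖ ^ 2 + κ * (∑ n ∈ Finset.range N, (1 / 2 : ℝ) ^ n * dn f n k ^ 2) +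
      ∑ n ∈ Finset.range N, (1 / 2 : ℝ) ^ n * (k (x n)) ^ 2 ≤ c := by
    intro N
    have a1 : ∀ ε > 0, ∀ᶠ h in L, ‖k‖ ^ 2 - ε < ‖h‖ ^ 2 :=
      lsc_sq (norm_nonneg k) fun a ha => lt_norm_of_tendsto hL ha
    have a2 : ∀ n, ∀ ε > 0, ∀ᶠ h in L, (1 / 2 : ℝ) ^ n * dn f n k ^ 2 - ε < (1 / 2 : ℝ) ^ n * dn f n h ^ 2 :=
      fun n => lsc_mul (by positivity) (lsc_sq (dn_nonneg f n k) fun a ha => lt_dn_of_tendsto f n hL ha)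
    have a3 : ∀ n, ∀ ε > 0, ∀ᶠ h : X →L[ℝ] ℝ in L,
        (1 / 2 : ℝ) ^ n * (k (x n)) ^ 2 - ε < (1 / 2 : ℝ) ^ n * (h (x n)) ^ 2 :=
      fun n => lsc_mul (by positivity) (lsc_tendsto ((hL (x n)).pow 2))
    have a4 := lsc_add (lsc_add a1 (lsc_mul hκ (lsc_sum a2 N))) (lsc_sum a3 N)
    by_contra hcon
    have hcon' := not_le.1 hcon
    obtain ⟨δ, hδ⟩ : ∃ δ : ℝ, δ = (‖k‖ ^ 2 + κ * (∑ n ∈ Finset.range N, (1 / 2 : ℝ) ^ n * dn f n k ^ 2) +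
      (∑ n ∈ Finset.range N, (1 / 2 : ℝ) ^ n * (k (x n)) ^ 2) - c) / 2 := ⟨_, rfl⟩
    have hδ0 : 0 < δ := by rw [hδ]; linarith
    obtain ⟨h, h1, h2⟩ := ((a4 δ hδ0).and (hc δ hδ0)).exists
    have h3 : ∑ n ∈ Finset.range N, (1 / 2 : ℝ) ^ n * dn f n h ^ 2 ≤ ∑' n, (1 / 2 : ℝ) ^ n * dn f n h ^ 2 :=
      (sumA f h).sum_le_tsum _ fun n _ => by positivity
    have h4 : ∑ n ∈ Finset.range N, (1 / 2 : ℝ) ^ n * (h (x n)) ^ 2 ≤ ∑' n, (1 / 2 : ℝ) ^ n * (h (x n)) ^ 2 :=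
      (sumB hx h).sum_le_tsum _ fun n _ => by positivity
    have h5 := mul_le_mul_of_nonneg_left h3 hκ
    unfold gf at h2
    linarith
  have t1 := (sumA f k).hasSum.tendsto_sum_nat
  have t2 := (sumB hx k).hasSum.tendsto_sum_nat
  have t3 : Tendsto (fun N : ℕ => ‖k‖ ^ 2 + κ * (∑ n ∈ Finset.range N, (1 / 2 : ℝ) ^ n * dn f n k ^ 2) +
      ∑ n ∈ Finset.range N, (1 / 2 : ℝ) ^ n * (k (x n)) ^ 2) atTop (𝓝 (gf κ f x k)) := by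
    unfold gf
    exact (tendsto_const_nhds.add (t1.const_mul κ)).add t2
  exact le_of_tendsto' t3 hN

end Pool.Agent.H36.BL
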