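import Pool.Agent.H36.BL.Maxi

set_option autoImplicit false

open Set Filter Topology

/-!
# Module PhiDiff: a separable dual gives a `C^1` bump

PROOF. Let `M y` be a maximiser at `y` (`exists_max`). (1) `M (y + h) y - gf (M (y + h)) = phi (y + h) - M (y+h) h →
phi y` as `h → 0`: `|phi (y+h) - phi y| → 0` since `M y h ≤ phi (y+h) - phi y ≤ M (y+h) h` and
`‖M z‖ ≤ ‖z‖ + 1` (from `‖M z‖^2 ≤ gf ≤ M z z ≤ ‖M z‖ ‖z‖`). So `M` is continuous at `y` in norm by `strong_conv`
applied to the filter `map M (𝓝 y)`. (2) `0 ≤ phi (y+h) - phi y - M y h ≤ (M (y+h) - M y) h`, hence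
`HasFDerivAt phi (M y) y`. So `phi` is `C^1` (`contDiff_one_iff_hasFDerivAt`-type lemma).
(3) `b y = Real.smoothTransition (1 - phi y)`: `b 0 = 1` and `b y ≠ 0` gives `phi y < 1`, `‖y‖^2 < 20`.
(4) the data: `f` a dense sequence of the dual; `x n`: a dense sequence of `X` scaled to the unit ball, for instance
`x n = (‖u n‖ + 1)⁻¹ • u n`, `u` dense; `h (x n) = 0` for all `n` gives `h = 0` by density.
-/

namespace Pool.Agent.H36.BL

theorem exists_sep_seq (X : Type*) [NormedAddCommGroup X] [NormedSpace ℝ X]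
    [TopologicalSpace.SeparableSpace X] : ∃ x : ℕ → X, (∀ n, ‖x n‖ ≤ 1) ∧
      ∀ h : X →L[ℝ] ℝ, (∀ n, h (x n) = 0) → h = 0 := by
  obtain ⟨u, hu⟩ := TopologicalSpace.exists_dense_seq X
  refine ⟨fun n => (‖u n‖ + 1)⁻¹ • u n, fun n => ?_, fun h hh => ?_⟩
  · have h0 := norm_nonneg (u n)
    have h1 : 0 < ‖u n‖ + 1 := by linarith
    rw [norm_smul, norm_inv, Real.norm_eq_abs, abs_of_pos h1, inv_mul_le_iff₀ h1]
    linarith
  · have h1 : ∀ n, h (u n) = 0 := by
      intro n
      have h0 := norm_nonneg (u n)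
      have h2 : (‖u n‖ + 1)⁻¹ ≠ 0 := inv_ne_zero (by linarith)
      have h3 := hh n
      rw [map_smul, smul_eq_mul] at h3
      exact (mul_eq_zero.1 h3).resolve_left h2
    have h2 : (h : X → ℝ) = (0 : X →L[ℝ] ℝ) := by
      refine hu.equalizer h.continuous (0 : X →L[ℝ] ℝ).continuous ?_
      funext n
      exact h1 n
    exact DFunLike.coe_injective h2

section aux

variable {X : Type*} [NormedAddCommGroup X] [NormedSpace ℝ X]

private theorem pd_norm {f : ℕ → (X →L[ℝ] ℝ)} {x : ℕ → X} (hx : ∀ n, ‖x n‖ ≤ 1) {y : X}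
    {k : X →L[ℝ] ℝ} (hk : k y - gf 1 f x k = phi 1 f x y) : ‖k‖ ≤ ‖y‖ := by
  have h1 := norm_sq_le_gf zero_le_one f hx k
  have h2 := phi_ge zero_le_one le_rfl f hx y
  have h3 : k y ≤ ‖k‖ * ‖y‖ := (le_abs_self _).trans (k.le_opNorm y)
  have h4 : 0 ≤ ‖y‖ ^ 2 / 20 := by positivity
  by_contra hcon
  push Not at hcon
  have h5 := norm_nonneg y
  have h6 : ‖k‖ ^ 2 ≤ ‖k‖ * ‖y‖ := by linarith
  nlinarith

private theorem pd_low {f : ℕ → (X →L[ℝ] ℝ)} {x : ℕ → X} (hx : ∀ n, ‖x n‖ ≤ 1) {y z : X}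
    {k : X →L[ℝ] ℝ} (hk : k y - gf 1 f x k = phi 1 f x y) :
    k (z - y) ≤ phi 1 f x z - phi 1 f x y := by
  have h1 := le_phi zero_le_one f hx z k
  rw [map_sub]
  linarith

end aux

theorem hasBump_of_separable_dual {X : Type*} [NormedAddCommGroup X] [NormedSpace ℝ X]
    [TopologicalSpace.SeparableSpace X] [TopologicalSpace.SeparableSpace (X →L[ℝ] ℝ)] :
    HasBump X 1 := by
  obtain ⟨x, hx, hsep⟩ := exists_sep_seq X
  obtain ⟨f, hf⟩ := TopologicalSpace.exists_dense_seq (X →L[ℝ] ℝ)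
  choose M hM using exists_max (X := X) (κ := 1) zero_le_one f hx
  have hn : ∀ y, ‖M y‖ ≤ ‖y‖ := fun y => pd_norm hx (hM y)
  have hlow : ∀ y z, M y (z - y) ≤ phi 1 f x z - phi 1 f x y := fun y z => pd_low hx (hM y)
  have hup : ∀ y z, phi 1 f x z - phi 1 f x y ≤ M z (z - y) := by
    intro y z
    have h1 := hlow z y
    rw [map_sub] at h1 ⊢
    linarith
  have happ : ∀ (k : X →L[ℝ] ℝ) (v : X), |k v| ≤ ‖k‖ * ‖v‖ := fun k v => k.le_opNorm v
  have hcont : Continuous M := by
    rw [continuous_iff_continuousAt]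
    intro y
    refine strong_conv hf hx hsep y (hM y) (F := map M (𝓝 y)) ?_
    rw [tendsto_map'_iff]
    have h1 : ∀ z, -((‖y‖ + ‖z‖) * ‖z - y‖) ≤ (M z y - gf 1 f x (M z)) - phi 1 f x y ∧
        (M z y - gf 1 f x (M z)) - phi 1 f x y ≤ 0 := by
      intro z
      have e1 := hM z
      have e2 := hlow y z
      have e3 := hup y z
      have e4 : M z y = M z z - M z (z - y) := by rw [map_sub]; ring
      have e5 := abs_le.1 (happ (M y) (z - y))
      have e6 := abs_le.1 (happ (M z) (z - y))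
      have e7 := mul_le_mul_of_nonneg_right (hn y) (norm_nonneg (z - y))
      have e8 := mul_le_mul_of_nonneg_right (hn z) (norm_nonneg (z - y))
      rw [e4]
      constructor
      · rw [add_mul]
        linarith
      · linarith
    have h2 : Tendsto (fun z => (M z y - gf 1 f x (M z)) - phi 1 f x y) (𝓝 y) (𝓝 0) := by
      have h3 : Tendsto (fun z : X => -((‖y‖ + ‖z‖) * ‖z - y‖)) (𝓝 y) (𝓝 0) := by
        have h4 : Continuous fun z : X => -((‖y‖ + ‖z‖) * ‖z - y‖) := by fun_prop
        have h5 := h4.tendsto y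
        simpa using h5
      exact tendsto_of_tendsto_of_tendsto_of_le_of_le h3 tendsto_const_nhds (fun z => (h1 z).1)
        (fun z => (h1 z).2)
    have h3 := h2.add_const (phi 1 f x y)
    rw [zero_add] at h3
    refine h3.congr fun z => ?_
    show M z y - gf 1 f x (M z) - phi 1 f x y + phi 1 f x y = M z y - gf 1 f x (M z)
    ring
  have hder : ∀ y, HasFDerivAt (phi 1 f x) (M y) y := by
    intro y
    rw [hasFDerivAt_iff_isLittleO, Asymptotics.isLittleO_iff]
    intro c hc
    have h1 : ∀ᶠ z in 𝓝 y, ‖M z - M y‖ < c := by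
      have h2 := Metric.ball_mem_nhds (M y) hc
      filter_upwards [hcont.continuousAt.preimage_mem_nhds h2] with z hz
      rw [← dist_eq_norm]
      exact hz
    filter_upwards [h1] with z hz
    have e1 := hlow y z
    have e2 := hup y z
    have e3 := abs_le.1 (happ (M z - M y) (z - y))
    have e4 : (M z - M y) (z - y) = M z (z - y) - M y (z - y) := rfl
    have e5 := mul_le_mul_of_nonneg_right hz.le (norm_nonneg (z - y))
    rw [Real.norm_eq_abs, abs_of_nonneg (by linarith)]
    linarith [e3.2]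
  have hC1 : ContDiff ℝ 1 (phi 1 f x) := contDiff_one_iff_hasFDerivAt.2 ⟨M, hcont, hder⟩
  refine ⟨fun y => Real.smoothTransition (1 - phi 1 f x y), ?_, ⟨0, ?_⟩, ?_⟩
  · have h1 : ContDiff ℝ 1 Real.smoothTransition := Real.smoothTransition.contDiff
    exact h1.comp (contDiff_const.sub hC1)
  · show Real.smoothTransition (1 - phi 1 f x 0) ≠ 0
    rw [phi_zero zero_le_one f hx, sub_zero, Real.smoothTransition.one]
    exact one_ne_zero
  · refine (Metric.isBounded_closedBall (x := (0 : X)) (r := 5)).subset fun y hy => ?_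
    rw [Function.mem_support] at hy
    have h1 : phi 1 f x y < 1 := by
      by_contra hcon
      push Not at hcon
      exact hy (Real.smoothTransition.zero_of_nonpos (by linarith))
    have h2 := phi_ge zero_le_one le_rfl f hx y
    rw [mem_closedBall_zero_iff]
    by_contra hcon
    push Not at hcon
    nlinarith

end Pool.Agent.H36.BL
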