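import Pool.Agent.H36.BL.Maxi
import Pool.Agent.H36.BL.PhiDiff

set_option autoImplicit false

open Set Filter Topology

/-!
# Module PhiG: the Gateaux smooth function (`κ = 0`)

PROOF. As in module PhiDiff with `κ = 0` (the functionals `f` do not matter, take `0`): `M y` a maximiser,
`‖M y‖ ≤ ‖y‖ + 1`, `M y h ≤ phi (y+h) - phi y ≤ M (y+h) h`; so `phi` is continuous; `M (y + h) z → M y z` for every
fixed `z` as `h → 0` (`weak_conv` with the filter `map M (𝓝 y)`); with local boundedness `(y, h) ↦ M y h` is jointly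
continuous: `|M y' h' - M y h| ≤ ‖M y'‖ ‖h' - h‖ + |M y' h - M y h|`. Derivative of `s ↦ phi (y + s • h)` at `0`:
`s M y h ≤ phi (y + s h) - phi y ≤ s M (y + s h) h` for all real `s`.
-/

namespace Pool.Agent.H36.BL

theorem gateauxC1_phi {X : Type*} [NormedAddCommGroup X] [NormedSpace ℝ X] {x : ℕ → X}
    (hx : ∀ n, ‖x n‖ ≤ 1) (hsep : ∀ h : X →L[ℝ] ℝ, (∀ n, h (x n) = 0) → h = 0) :
    GateauxC1 (phi 0 (fun _ => (0 : X →L[ℝ] ℝ)) x) := by
  set F : ℕ → (X →L[ℝ] ℝ) := fun _ => (0 : X →L[ℝ] ℝ) with hF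
  choose M hM using fun y => exists_max (le_refl (0 : ℝ)) F hx y
  have hle : ∀ z h, h z - gf 0 F x h ≤ phi 0 F x z := le_phi (le_refl (0 : ℝ)) F hx
  have hlow : ∀ y h, M y h ≤ phi 0 F x (y + h) - phi 0 F x y := by
    intro y h
    have h1 := hle (y + h) (M y)
    have h2 := hM y
    rw [map_add] at h1
    linarith
  have hup : ∀ y h, phi 0 F x (y + h) - phi 0 F x y ≤ M (y + h) h := by
    intro y h
    have h1 := hlow (y + h) (-h)
    rw [map_neg, add_neg_cancel_right] at h1
    linarith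
  have hnn : ∀ z, 0 ≤ phi 0 F x z := by
    intro z
    have h1 := hle z 0
    have h2 := gf_le (le_refl (0 : ℝ)) zero_le_one F hx 0
    simp only [norm_zero, zero_apply] at h1 h2
    nlinarith
  have hMn : ∀ z, ‖M z‖ ≤ ‖z‖ := by
    intro z
    have h1 := hM z
    have h2 := norm_sq_le_gf (le_refl (0 : ℝ)) F hx (M z)
    have h3 := hnn z
    have h4 : M z z ≤ ‖M z‖ * ‖z‖ := (le_abs_self _).trans ((M z).le_opNorm z)
    have h5 : ‖M z‖ * ‖M z‖ ≤ ‖M z‖ * ‖z‖ := by nlinarith
    rcases (norm_nonneg (M z)).eq_or_lt with h0 | h0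
    · rw [← h0]; exact norm_nonneg z
    · exact le_of_mul_le_mul_left h5 h0
  have hlip : ∀ y z, |phi 0 F x z - phi 0 F x y| ≤ (‖y‖ + ‖z‖) * ‖z - y‖ := by
    intro y z
    have h1 := hlow y (z - y)
    have h2 := hup y (z - y)
    rw [add_sub_cancel] at h1 h2
    have h3 : -(‖M y‖ * ‖z - y‖) ≤ M y (z - y) :=
      (neg_le_neg ((M y).le_opNorm (z - y))).trans (neg_abs_le _)
    have h4 : M z (z - y) ≤ ‖M z‖ * ‖z - y‖ := (le_abs_self _).trans ((M z).le_opNorm _)
    have h5 : ‖M y‖ * ‖z - y‖ ≤ ‖y‖ * ‖z - y‖ :=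
      mul_le_mul_of_nonneg_right (hMn y) (norm_nonneg _)
    have h6 : ‖M z‖ * ‖z - y‖ ≤ ‖z‖ * ‖z - y‖ :=
      mul_le_mul_of_nonneg_right (hMn z) (norm_nonneg _)
    have h7 : 0 ≤ ‖y‖ * ‖z - y‖ := by positivity
    have h8 : 0 ≤ ‖z‖ * ‖z - y‖ := by positivity
    rw [abs_le, add_mul]
    constructor <;> linarith
  have hcont : Continuous (phi 0 F x) := by
    rw [continuous_iff_continuousAt]
    intro y
    rw [ContinuousAt, tendsto_iff_dist_tendsto_zero]
    have hg : Tendsto (fun z : X => (‖y‖ + ‖z‖) * ‖z - y‖) (𝓝 y) (𝓝 0) := by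
      have hc : Continuous (fun z : X => (‖y‖ + ‖z‖) * ‖z - y‖) := by fun_prop
      simpa using hc.tendsto y
    refine squeeze_zero (fun _ => dist_nonneg) (fun z => ?_) hg
    rw [Real.dist_eq]
    exact hlip y z
  have hweak : ∀ y z, Tendsto (fun y' => M y' z) (𝓝 y) (𝓝 (M y z)) := by
    intro y z
    have key : Tendsto (fun h : X →L[ℝ] ℝ => h y - gf 0 F x h) (map M (𝓝 y))
        (𝓝 (phi 0 F x y)) := by
      rw [tendsto_map'_iff]
      have h1 : ((fun h : X →L[ℝ] ℝ => h y - gf 0 F x h) ∘ M) =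
          fun y' => phi 0 F x y' + M y' (y - y') := by
        funext y'
        have := hM y'
        simp only [Function.comp_apply, map_sub]
        linarith
      rw [h1]
      have h2 : Tendsto (fun y' => M y' (y - y')) (𝓝 y) (𝓝 0) := by
        refine squeeze_zero_norm (a := fun y' => ‖y'‖ * ‖y - y'‖) (fun y' => ?_) ?_
        · exact ((M y').le_opNorm _).trans
            (mul_le_mul_of_nonneg_right (hMn y') (norm_nonneg _))
        · have hc : Continuous (fun y' : X => ‖y'‖ * ‖y - y'‖) := by fun_prop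
          simpa using hc.tendsto y
      simpa using (hcont.tendsto y).add h2
    have := weak_conv (le_refl (0 : ℝ)) F hx hsep y (hM y) key z
    exact tendsto_map'_iff.1 this
  refine ⟨hcont, M, ?_, ?_⟩
  · intro y h
    rw [hasDerivAt_iff_isLittleO_nhds_zero, Asymptotics.isLittleO_iff]
    intro c hc
    have h1 : Tendsto (fun s : ℝ => M (y + s • h) h) (𝓝 0) (𝓝 (M y h)) := by
      have h2 : Tendsto (fun s : ℝ => y + s • h) (𝓝 0) (𝓝 y) := by
        have hc : Continuous (fun s : ℝ => y + s • h) := by fun_prop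
        simpa using hc.tendsto 0
      exact (hweak y h).comp h2
    have h3 : ∀ᶠ s : ℝ in 𝓝 0, |M (y + s • h) h - M y h| < c := by
      have := (Metric.tendsto_nhds.1 h1) c hc
      simpa [Real.dist_eq] using this
    filter_upwards [h3] with s hs
    have h4 := hlow y (s • h)
    have h5 := hup y (s • h)
    rw [map_smul, smul_eq_mul] at h4 h5
    simp only [zero_add, zero_smul, add_zero, smul_eq_mul, Real.norm_eq_abs]
    have h6 : |phi 0 F x (y + s • h) - phi 0 F x y - s * M y h| ≤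
        |s * (M (y + s • h) h - M y h)| := by
      rw [abs_of_nonneg (by linarith)]
      refine le_trans ?_ (le_abs_self _)
      rw [mul_sub]
      linarith
    refine h6.trans ?_
    rw [abs_mul, mul_comm]
    exact mul_le_mul_of_nonneg_right hs.le (abs_nonneg s)
  · rw [continuous_iff_continuousAt]
    rintro ⟨y, h⟩
    have h1 : Tendsto (fun p : X × X => M p.1 (p.2 - h)) (𝓝 (y, h)) (𝓝 0) := by
      refine squeeze_zero_norm (a := fun p : X × X => ‖p.1‖ * ‖p.2 - h‖) (fun p => ?_) ?_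
      · exact ((M p.1).le_opNorm _).trans
          (mul_le_mul_of_nonneg_right (hMn p.1) (norm_nonneg _))
      · have hc : Continuous (fun p : X × X => ‖p.1‖ * ‖p.2 - h‖) := by fun_prop
        simpa using hc.tendsto (y, h)
    have h2 : Tendsto (fun p : X × X => M p.1 h) (𝓝 (y, h)) (𝓝 (M y h)) :=
      (hweak y h).comp (continuous_fst.tendsto (y, h))
    have h3 : (fun p : X × X => M p.1 p.2) = fun p => M p.1 (p.2 - h) + M p.1 h := by
      funext p
      rw [← map_add, sub_add_cancel]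
    show Tendsto (fun p : X × X => M p.1 p.2) (𝓝 (y, h)) (𝓝 (M y h))
    rw [h3]
    simpa using h1.add h2

end Pool.Agent.H36.BL
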