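import Pool.Agent.H36.BL.Lift
import Pool.Agent.H36.BL.GClass
import Pool.Agent.H36.BL.PhiG

set_option autoImplicit false

open Set Filter Topology

/-!
# Module GMain: Gateaux smooth blid maps in every separable space

PROOF. `Enough` for `gClass`: with `phi` from `gateauxC1_phi` and `exists_sep_seq`,
`φ y = Real.smoothTransition (1 - phi (K • (y - x)))`, `φ x = 1` (`phi_zero`) and `φ y ≠ 0` gives `phi (K • (y - x)) < 1`,
`K^2 ‖y - x‖^2 < 20` (`phi_ge`), so `‖y - x‖ < ε` for `K = 5 / ε`. Then `exists_lift` and `gateauxC1_sum`.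
-/

namespace Pool.Agent.H36.BL

theorem admitsGateaux {X : Type*} [NormedAddCommGroup X] [NormedSpace ℝ X]
    [TopologicalSpace.SeparableSpace X] {S : Set X} (hSc : IsClosed S) (hS : AdmitsBlidMaps 0 S) :
    AdmitsGateauxBlidMaps S := by
  obtain ⟨x, hx, hsep⟩ := exists_sep_seq X
  have hphi := gateauxC1_phi hx hsep
  have hE : (gClass X).Enough := by
    intro a U hU
    obtain ⟨ε, hε, hball⟩ := Metric.mem_nhds_iff.1 hU
    refine ⟨fun y => Real.smoothTransition
      (1 - phi 0 (fun _ => (0 : X →L[ℝ] ℝ)) x ((5 / ε) • (y - a))), ?_, ?_, ?_, ?_⟩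
    · have h2 : (gClass X).mem
          (fun y => phi 0 (fun _ => (0 : X →L[ℝ] ℝ)) x ((5 / ε) • (y - a))) :=
        hphi.comp_affine _ _
      exact (gClass X).comp (θ := fun t => Real.smoothTransition (1 - t)) h2
        (Real.smoothTransition.contDiff.comp (contDiff_const.sub contDiff_id))
    · intro y
      exact Real.smoothTransition.nonneg _
    · have h0 : phi 0 (fun _ => (0 : X →L[ℝ] ℝ)) x ((5 / ε) • (a - a)) = 0 := by
        rw [sub_self, smul_zero]
        exact phi_zero le_rfl _ hx
      show 0 < Real.smoothTransition _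
      rw [h0]
      exact Real.smoothTransition.pos_of_pos (by norm_num)
    · intro y hy
      have h1 : phi 0 (fun _ => (0 : X →L[ℝ] ℝ)) x ((5 / ε) • (y - a)) < 1 := by
        by_contra h
        apply hy
        exact Real.smoothTransition.zero_of_nonpos (by linarith)
      have h2 := phi_ge le_rfl zero_le_one (fun _ => (0 : X →L[ℝ] ℝ)) hx ((5 / ε) • (y - a))
      rw [norm_smul, Real.norm_of_nonneg (by positivity : (0 : ℝ) ≤ 5 / ε)] at h2
      apply hball
      rw [Metric.mem_ball, dist_eq_norm]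
      by_contra h3
      push Not at h3
      have h4 : 5 ≤ 5 / ε * ‖y - a‖ := by
        have h5 : 5 / ε * ε = 5 := by field_simp
        calc (5 : ℝ) = 5 / ε * ε := h5.symm
          _ ≤ 5 / ε * ‖y - a‖ := mul_le_mul_of_nonneg_left h3 (by positivity)
      nlinarith
  intro U hU
  obtain ⟨θ, v, hθ, hlf, hm, V, hV, hVU, hid⟩ := exists_lift (gClass X) hE hSc hS hU
  exact ⟨_, gateauxC1_sum hθ hlf v, hm, V, hV, hVU, hid⟩

end Pool.Agent.H36.BL
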