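import Pool.Agent.H36.BL.POU

set_option autoImplicit false

open Set Filter Topology

/-!
# Module Lift: from continuous blid maps to blid maps `x + ∑ θ_n(x) v_n`

PROOF. Let `U ∈ 𝓝ˢ S`, `O` open, `S ⊆ O ⊆ U`. If `O = univ` take all `θ n = 0`. Let `H` be a continuous blid
map for `O` (`hS`), identity on `V ∈ 𝓝ˢ S`; `V' = interior V` is an open set containing `S`; by normality
(`SeparatedNhds`/`normal_exists_closure_subset`, `S` closed) there is an open `V1` with
`S ⊆ V1 ⊆ closure V1 ⊆ V'`; replace `V1` by `V1 ∩ O`. For `z ∈ X` let `η = infDist (H z) Oᶜ / 4 > 0` and let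
`ρ z > 0` be such that `ρ z ≤ η / 2` and `‖H y - H z‖ < η / 2` for `‖y - z‖ < ρ z`, and: if `z ∈ V'` then
`ball z (ρ z) ⊆ V'`; if `z ∉ V'` then `ball z (ρ z)` is disjoint from `V1` (possible, `z ∉ closure V1`).
So for `y, y' ∈ ball z (ρ z)`: `‖y - y'‖ + ‖H y - H y'‖ < 2 * η ≤ infDist (H y) Oᶜ`
(because `infDist (H y) Oᶜ ≥ 4 η - η / 2`).
Take the partition of unity for `W z = ball z (ρ z)`, centres `z n`, and `v n = H (z n) - z n`. For every `y`
and every `n` with `θ n y ≠ 0`: `y ∈ ball (z n) (ρ (z n))`, `‖y + v n - H y‖ ≤ ‖y - z n‖ + ‖H (z n) - H y‖ <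
infDist (H y) Oᶜ`; `y + ∑ᶠ n, θ n y • v n` is a convex combination of the finitely many points `y + v n`
(with `θ n y ≠ 0`), all of them in the ball of radius `infDist (H y) Oᶜ` around `H y` (convex), which is
contained in `O`. If `y ∈ V1` then all `n` with `θ n y ≠ 0` have `z n ∈ V'` (otherwise the ball misses `V1`), so
`H (z n) = z n`, `v n = 0` and the sum is `0`.
-/

namespace Pool.Agent.H36.BL

theorem exists_lift {X : Type*} [NormedAddCommGroup X] [NormedSpace ℝ X]
    [TopologicalSpace.SeparableSpace X] (A : SmClass X) (hA : A.Enough) {S : Set X} (hSc : IsClosed S)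
    (hS : AdmitsBlidMaps 0 S) {U : Set X} (hU : U ∈ 𝓝ˢ S) :
    ∃ (θ : ℕ → X → ℝ) (v : ℕ → X), (∀ n, A.mem (θ n)) ∧
      (LocallyFinite fun n => Function.support (θ n)) ∧
      (∀ x, x + ∑ᶠ n, θ n x • v n ∈ U) ∧
      ∃ V : Set X, V ∈ 𝓝ˢ S ∧ V ⊆ U ∧ ∀ x ∈ V, x + ∑ᶠ n, θ n x • v n = x := by
  obtain ⟨O, hO, hSO, hOU⟩ := mem_nhdsSet_iff_exists.mp hU
  by_cases hOu : O = Set.univ
  · have hUu : U = Set.univ := by
      apply Set.eq_univ_of_univ_subset
      rw [← hOu]; exact hOU
    refine ⟨fun _ _ => 0, fun _ => 0, fun _ => A.const 0, ?_, ?_, U, hU, subset_rfl, ?_⟩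
    · intro x
      refine ⟨Set.univ, Filter.univ_mem, ?_⟩
      have h0 : {i : ℕ | ((Function.support (fun _ : X => (0 : ℝ))) ∩ Set.univ).Nonempty} = ∅ := by
        ext i
        simp
      rw [h0]
      exact Set.finite_empty
    · intro x
      rw [hUu]; trivial
    · intro x _
      simp
  · have hOc : (Oᶜ).Nonempty := by
      rw [Set.nonempty_compl]; exact hOu
    obtain ⟨H, hHc, hHO, V, hV, hVO, hHV⟩ := hS O (hO.mem_nhdsSet.mpr hSO)
    have hHc' : Continuous H := by
      have h : ContDiff ℝ 0 H := by exact_mod_cast hHc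
      exact contDiff_zero.mp h
    have hSV : S ⊆ interior V := subset_interior_iff_mem_nhdsSet.mpr hV
    obtain ⟨V1, hV1o, hSV1, hV1c⟩ := normal_exists_closure_subset hSc isOpen_interior hSV
    have hD : ∀ y, 0 < Metric.infDist (H y) Oᶜ := by
      intro y
      refine (hO.isClosed_compl.notMem_iff_infDist_pos hOc).mp ?_
      intro h
      exact h (hHO y)
    haveI : SecondCountableTopology X := UniformSpace.secondCountable_of_separable X
    let W : X → Set X := fun z => {y | dist y z + dist (H y) (H z) < Metric.infDist (H y) Oᶜ} ∩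
      {y | z ∉ interior V → y ∉ closure V1}
    have hW : ∀ x, W x ∈ 𝓝 x := by
      intro x
      refine Filter.inter_mem ?_ ?_
      · refine IsOpen.mem_nhds ?_ ?_
        · refine isOpen_lt ?_ ?_
          · exact (continuous_id.dist continuous_const).add (hHc'.dist continuous_const)
          · exact (Metric.continuous_infDist_pt _).comp hHc'
        · show dist x x + dist (H x) (H x) < _
          rw [dist_self, dist_self, add_zero]
          exact hD x
      · by_cases hx : x ∈ interior V
        · refine Filter.mem_of_superset Filter.univ_mem ?_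
          intro y _ h
          exact absurd hx h
        · refine Filter.mem_of_superset
            ((isClosed_closure (s := V1)).isOpen_compl.mem_nhds (fun h => hx (hV1c h))) ?_
          intro y hy _
          exact hy
    obtain ⟨z, θ, hθA, hθ0, hlf, hsupp, hsum⟩ := A.exists_pou hA W hW
    have hmem : ∀ y n, θ n y ≠ 0 → y ∈ W (z n) := fun y n h => hsupp n h
    refine ⟨θ, fun n => H (z n) - z n, hθA, hlf, ?_, V1 ∩ O, ?_, ?_, ?_⟩
    · intro y
      have hfin : (Function.support fun n => θ n y).Finite := by
        refine (hlf.point_finite y).subset ?_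
        intro n hn
        exact hn
      have e1 : y + ∑ᶠ n, θ n y • (H (z n) - z n) = ∑ᶠ n, θ n y • (y + (H (z n) - z n)) := by
        have h1 : ∑ᶠ n, θ n y • (y + (H (z n) - z n)) =
            ∑ᶠ n, θ n y • y + ∑ᶠ n, θ n y • (H (z n) - z n) := by
          rw [← finsum_add_distrib]
          · apply finsum_congr
            intro n
            rw [smul_add]
          · refine hfin.subset ?_
            intro n hn h
            apply hn
            show θ n y • y = 0
            have h' : θ n y = 0 := h
            rw [h', zero_smul]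
          · refine hfin.subset ?_
            intro n hn h
            apply hn
            show θ n y • (H (z n) - z n) = 0
            have h' : θ n y = 0 := h
            rw [h', zero_smul]
        rw [h1, ← finsum_smul, hsum y, one_smul]
      rw [e1]
      apply hOU
      have hb : ∑ᶠ n, θ n y • (y + (H (z n) - z n)) ∈ Metric.ball (H y) (Metric.infDist (H y) Oᶜ) := by
        refine (convex_ball (H y) _).finsum_mem (fun n => hθ0 n y) (hsum y) ?_
        intro n hn
        have hw := (hmem y n hn).1
        have hw' : dist y (z n) + dist (H y) (H (z n)) < Metric.infDist (H y) Oᶜ := hw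
        rw [Metric.mem_ball]
        have h2 : dist (y + (H (z n) - z n)) (H y) ≤ dist y (z n) + dist (H y) (H (z n)) := by
          rw [dist_eq_norm, dist_eq_norm, dist_eq_norm]
          have h3 : y + (H (z n) - z n) - H y = (y - z n) - (H y - H (z n)) := by abel
          rw [h3]
          exact norm_sub_le _ _
        exact lt_of_le_of_lt h2 hw'
      by_contra hno
      have h4 := Metric.infDist_le_dist_of_mem (x := H y) (show _ ∈ Oᶜ from hno)
      rw [Metric.mem_ball, dist_comm] at hb
      exact absurd hb (not_lt.mpr h4)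
    · exact (hV1o.inter hO).mem_nhdsSet.mpr (fun x hx => ⟨hSV1 hx, hSO hx⟩)
    · exact fun x hx => hOU hx.2
    · intro x hx
      have h0 : ∀ n, θ n x • (H (z n) - z n) = 0 := by
        intro n
        by_cases hn : θ n x = 0
        · rw [hn, zero_smul]
        · have hw := (hmem x n hn).2
          have hz : z n ∈ interior V := by
            by_contra hz
            exact hw hz (subset_closure hx.1)
          rw [hHV (z n) (interior_subset hz), sub_self, smul_zero]
      have h1 : ∑ᶠ n, θ n x • (H (z n) - z n) = 0 := by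
        rw [finsum_congr h0]
        exact finsum_zero
      rw [h1, add_zero]

end Pool.Agent.H36.BL
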