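import Pool.Agent.H36.BL.Lift

set_option autoImplicit false

open Set Filter Topology

/-!
# Module LiftCq: the class of `C^q` functions; bump implies `C^q` blid maps

PROOF. The class: `mem f = ContDiff ℝ q f`; `loc` by `contDiff_iff_contDiffAt` and
`ContDiffAt.congr_of_eventuallyEq`; `inv` by `ContDiff.inv` (never zero). `Enough`: `b x1 ≠ 0`,
`support b ⊆ closedBall 0 R`, `R > 0`; for `x` and `U ⊇ ball x ε` put
`φ y = b (x1 + K • (y - x)) ^ 2` with `K = 2 * (R + ‖x1‖ + 1) / ε`: `φ x = (b x1)^2 > 0`, and `φ y ≠ 0` gives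
`‖x1 + K • (y - x)‖ ≤ R`, `K ‖y - x‖ ≤ R + ‖x1‖`, `‖y - x‖ < ε`.
`H x = x + ∑ᶠ n, θ n x • v n` is `C^q`: near every point the sum is a finite sum.
-/

namespace Pool.Agent.H36.BL

private def cqClass (X : Type*) [NormedAddCommGroup X] [NormedSpace ℝ X] (q : ℕ∞) : SmClass X where
  mem f := ContDiff ℝ q f
  cont hf := hf.continuous
  const _ := contDiff_const
  add hf hg := hf.add hg
  mul hf hg := hf.mul hg
  comp hf hθ := (hθ.of_le (by exact_mod_cast le_top)).comp hf
  inv hf hpos := hf.inv fun x => (hpos x).ne'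
  loc h := contDiff_iff_contDiffAt.2 fun x => by
    obtain ⟨g, hg, he⟩ := h x
    exact hg.contDiffAt.congr_of_eventuallyEq he

private lemma cqClass_enough {X : Type*} [NormedAddCommGroup X] [NormedSpace ℝ X] {q : ℕ∞}
    (hb : HasBump X q) : (cqClass X q).Enough := by
  obtain ⟨b, hbC, ⟨x1, hx1⟩, hbd⟩ := hb
  obtain ⟨R0, hR0⟩ := hbd.subset_closedBall (0 : X)
  intro x U hU
  obtain ⟨ε, hε, hεU⟩ := Metric.mem_nhds_iff.1 hU
  set R := max R0 0 with hR
  have hRpos : 0 ≤ R := le_max_right _ _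
  have hx1n : 0 ≤ ‖x1‖ := norm_nonneg _
  set K : ℝ := 2 * (R + ‖x1‖ + 1) / ε with hK
  have hKpos : 0 < K := by positivity
  refine ⟨fun y => b (x1 + K • (y - x)) ^ 2, ?_, fun y => sq_nonneg _, ?_, ?_⟩
  · have h1 : ContDiff ℝ q fun y : X => x1 + K • (y - x) :=
      contDiff_const.add ((contDiff_id.sub contDiff_const).const_smul K)
    exact (hbC.comp h1).pow 2
  · simp only [sub_self, smul_zero, add_zero]
    positivity
  · intro y hy
    have hy' : b (x1 + K • (y - x)) ≠ 0 := fun h0 => hy (by simp only [h0]; norm_num)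
    have h2 := hR0 hy'
    rw [Metric.mem_closedBall, dist_zero_right] at h2
    have h3 : ‖K • (y - x)‖ ≤ R + ‖x1‖ := by
      calc ‖K • (y - x)‖ = ‖(x1 + K • (y - x)) - x1‖ := by congr 1; abel
        _ ≤ ‖x1 + K • (y - x)‖ + ‖x1‖ := norm_sub_le _ _
        _ ≤ R + ‖x1‖ := by linarith [le_max_left R0 0]
    rw [norm_smul, Real.norm_of_nonneg hKpos.le] at h3
    apply hεU
    rw [Metric.mem_ball, dist_eq_norm]
    by_contra hc
    push Not at hc
    have h4 : K * ε ≤ K * ‖y - x‖ := mul_le_mul_of_nonneg_left hc hKpos.le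
    have h5 : K * ε = 2 * (R + ‖x1‖ + 1) := by
      rw [hK]
      field_simp
    linarith

private lemma contDiff_lf {X : Type*} [NormedAddCommGroup X] [NormedSpace ℝ X] {q : ℕ∞}
    {θ : ℕ → X → ℝ} (hθ : ∀ n, ContDiff ℝ q (θ n))
    (hlf : LocallyFinite fun n => Function.support (θ n)) (v : ℕ → X) :
    ContDiff ℝ q (fun x => x + ∑ᶠ n, θ n x • v n) := by
  refine contDiff_id.add (contDiff_iff_contDiffAt.2 fun x => ?_)
  obtain ⟨t, ht, hfin⟩ := hlf x
  have he : (fun y => ∑ᶠ n, θ n y • v n) =ᶠ[𝓝 x] fun y => ∑ n ∈ hfin.toFinset, θ n y • v n := by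
    filter_upwards [ht] with y hy
    refine finsum_eq_sum_of_support_subset _ ?_
    intro n hn
    rw [Finite.coe_toFinset]
    refine ⟨y, ?_, hy⟩
    intro h0
    exact hn (by simp only [h0, zero_smul])
  have hs : ContDiff ℝ q fun y => ∑ n ∈ hfin.toFinset, θ n y • v n :=
    ContDiff.sum fun n _ => (hθ n).smul contDiff_const
  exact hs.contDiffAt.congr_of_eventuallyEq he

theorem admits_of_hasBump {X : Type*} [NormedAddCommGroup X] [NormedSpace ℝ X]
    [TopologicalSpace.SeparableSpace X] {q : ℕ∞} (hb : HasBump X q) {S : Set X} (hSc : IsClosed S)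
    (hS : AdmitsBlidMaps 0 S) : AdmitsBlidMaps q S := by
  intro U hU
  obtain ⟨θ, v, hθ, hlf, hUx, V, hV, hVU, hVx⟩ :=
    exists_lift (cqClass X q) (cqClass_enough hb) hSc hS hU
  exact ⟨fun x => x + ∑ᶠ n, θ n x • v n, contDiff_lf hθ hlf v, hUx, V, hV, hVU, hVx⟩

end Pool.Agent.H36.BL
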