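import Pool.Agent.H36.BL.GFacts

set_option autoImplicit false

open Set Filter Topology

/-!
# Module MaxEx: maximisers of `h ↦ h y - gf h`

PROOFS. `bdd`: `h y - gf h ≤ ‖h‖ ‖y‖ - ‖h‖^2 ≤ ‖y‖^2 / 4`. `phi_ge`: take a norming functional `u` of `y`
(`exists_dual_vector''`, `‖u‖ ≤ 1`, `u y = ‖y‖`), `h = (‖y‖ / 10) • u`: `h y - 5 ‖h‖^2 ≥ ‖y‖^2 / 10 - ‖y‖^2 / 20`.
`pointwise_lim` : let `L` be an ultrafilter with `h y - gf h → phi y` along `L`. Eventually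
`‖h‖^2 ≤ gf h ≤ h y - phi y + 1 ≤ ‖h‖ ‖y‖ + 1` (`phi y ≥ 0` since `h = 0` is allowed), so `‖h‖ ≤ ‖y‖ + 1`. Banach-Alaoglu: a
pointwise limit `k` exists (`WeakDual.isCompact_closedBall`, or directly: the ultrafilter limit of `h y'` exists in
`[-C ‖y'‖, C ‖y'‖]` for every `y'`, it is linear and bounded in `y'`). By `gf_le_of_tendsto` with
`c = k y - phi y`, `gf k ≤ k y - phi y`, so `k` is a maximiser.
`exists_max`: apply `pointwise_lim` to an ultrafilter containing all the sets `{h | h y - gf h > phi y - 1/n}`.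
`max_unique`: `h, k` maximisers, `m` the midpoint: `phi y ≥ m y - gf m`, so by `defect_x` all
`(h - k) (x n) = 0`; `x` separates functionals (`hsep`), so `h = k`.
-/

namespace Pool.Agent.H36.BL

variable {X : Type*} [NormedAddCommGroup X] [NormedSpace ℝ X]

private theorem mx_le (h : X →L[ℝ] ℝ) (y : X) : h y ≤ ‖h‖ * ‖y‖ :=
  (le_abs_self _).trans (h.le_opNorm y)

theorem bdd {κ : ℝ} (hκ : 0 ≤ κ) (f : ℕ → (X →L[ℝ] ℝ)) {x : ℕ → X} (hx : ∀ n, ‖x n‖ ≤ 1) (y : X)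
    (h : X →L[ℝ] ℝ) : h y - gf κ f x h ≤ ‖y‖ ^ 2 / 4 := by
  have h1 := norm_sq_le_gf hκ f hx h
  have h2 := mx_le h y
  nlinarith [sq_nonneg (‖h‖ - ‖y‖ / 2)]

private theorem mx_bdd {κ : ℝ} (hκ : 0 ≤ κ) (f : ℕ → (X →L[ℝ] ℝ)) {x : ℕ → X} (hx : ∀ n, ‖x n‖ ≤ 1)
    (y : X) : BddAbove (range fun h : X →L[ℝ] ℝ => h y - gf κ f x h) := by
  refine ⟨‖y‖ ^ 2 / 4, ?_⟩
  rintro _ ⟨h, rfl⟩
  exact bdd hκ f hx y h

theorem le_phi {κ : ℝ} (hκ : 0 ≤ κ) (f : ℕ → (X →L[ℝ] ℝ)) {x : ℕ → X} (hx : ∀ n, ‖x n‖ ≤ 1) (y : X)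
    (h : X →L[ℝ] ℝ) : h y - gf κ f x h ≤ phi κ f x y :=
  le_ciSup (mx_bdd hκ f hx y) h

private theorem mx_gf_zero (κ : ℝ) (f : ℕ → (X →L[ℝ] ℝ)) (x : ℕ → X) : gf κ f x 0 = 0 := by
  have h1 : ∀ n, dn f n 0 = 0 := by
    intro n
    unfold dn
    rw [ContinuousLinearMap.zero_comp]
    exact ContinuousLinearMap.opNorm_zero
  unfold gf
  simp [h1]

private theorem mx_phi_nonneg {κ : ℝ} (hκ : 0 ≤ κ) (f : ℕ → (X →L[ℝ] ℝ)) {x : ℕ → X}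
    (hx : ∀ n, ‖x n‖ ≤ 1) (y : X) : 0 ≤ phi κ f x y := by
  have h := le_phi hκ f hx y 0
  rw [mx_gf_zero] at h
  simpa using h

theorem phi_zero {κ : ℝ} (hκ : 0 ≤ κ) (f : ℕ → (X →L[ℝ] ℝ)) {x : ℕ → X} (hx : ∀ n, ‖x n‖ ≤ 1) :
    phi κ f x 0 = 0 := by
  refine le_antisymm ?_ (mx_phi_nonneg hκ f hx 0)
  refine ciSup_le fun h => ?_
  have := bdd hκ f hx 0 h
  simpa using this

theorem phi_ge {κ : ℝ} (hκ : 0 ≤ κ) (hκ1 : κ ≤ 1) (f : ℕ → (X →L[ℝ] ℝ)) {x : ℕ → X}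
    (hx : ∀ n, ‖x n‖ ≤ 1) (y : X) : ‖y‖ ^ 2 / 20 ≤ phi κ f x y := by
  obtain ⟨g, hg, hgy⟩ := exists_dual_vector'' ℝ y
  have hgy' : g y = ‖y‖ := by simpa using hgy
  have h1 := le_phi hκ f hx y ((‖y‖ / 10) • g)
  have h2 := gf_le hκ hκ1 f hx ((‖y‖ / 10) • g)
  have h3 : ‖(‖y‖ / 10) • g‖ ≤ ‖y‖ / 10 := by
    rw [norm_smul, Real.norm_eq_abs, abs_of_nonneg (by positivity)]
    nlinarith [norm_nonneg y, norm_nonneg g]
  have h4 : ((‖y‖ / 10) • g) y = ‖y‖ ^ 2 / 10 := by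
    change (‖y‖ / 10) * g y = _
    rw [hgy']
    ring
  rw [h4] at h1
  have h5 : ‖(‖y‖ / 10) • g‖ ^ 2 ≤ (‖y‖ / 10) ^ 2 := pow_le_pow_left₀ (norm_nonneg _) h3 2
  nlinarith

/-- along a maximising ultrafilter the functionals are bounded and converge pointwise to a maximiser -/
theorem pointwise_lim {κ : ℝ} (hκ : 0 ≤ κ) (f : ℕ → (X →L[ℝ] ℝ)) {x : ℕ → X}
    (hx : ∀ n, ‖x n‖ ≤ 1) (y : X) (L : Ultrafilter (X →L[ℝ] ℝ))
    (hL : Tendsto (fun h : X →L[ℝ] ℝ => h y - gf κ f x h) L (𝓝 (phi κ f x y))) :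
    (∀ᶠ h in (L : Filter (X →L[ℝ] ℝ)), ‖h‖ ≤ ‖y‖ + 1) ∧
    ∃ k : X →L[ℝ] ℝ, (∀ z, Tendsto (fun h : X →L[ℝ] ℝ => h z) L (𝓝 (k z))) ∧
      k y - gf κ f x k = phi κ f x y := by
  have hφ := mx_phi_nonneg hκ f hx y
  have hb : ∀ᶠ h in (L : Filter (X →L[ℝ] ℝ)), ‖h‖ ≤ ‖y‖ + 1 := by
    have h1 : ∀ᶠ h in (L : Filter (X →L[ℝ] ℝ)), phi κ f x y - 1 < h y - gf κ f x h :=
      hL.eventually_const_lt (by linarith)
    filter_upwards [h1] with h h2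
    have h3 := norm_sq_le_gf hκ f hx h
    have h4 := mx_le h y
    by_contra hcon
    push Not at hcon
    nlinarith [norm_nonneg h, norm_nonneg y]
  refine ⟨hb, ?_⟩
  have hcomp := WeakDual.isCompact_closedBall (𝕜 := ℝ) (0 : StrongDual ℝ X) (‖y‖ + 1)
  set T : (X →L[ℝ] ℝ) → WeakDual ℝ X := fun h => StrongDual.toWeakDual h with hT
  have hmem : (L.map T : Filter (WeakDual ℝ X)) ≤
      𝓟 (WeakDual.toStrongDual ⁻¹' Metric.closedBall (0 : StrongDual ℝ X) (‖y‖ + 1)) := by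
    rw [le_principal_iff]
    change ∀ᶠ h in (L : Filter (X →L[ℝ] ℝ)), _
    filter_upwards [hb] with h h2
    change h ∈ Metric.closedBall (0 : StrongDual ℝ X) (‖y‖ + 1)
    rwa [mem_closedBall_zero_iff]
  obtain ⟨k, -, hk⟩ := isCompact_iff_ultrafilter_le_nhds.1 hcomp (L.map T) hmem
  have hlim : ∀ z, Tendsto (fun h : X →L[ℝ] ℝ => h z) L (𝓝 ((WeakDual.toStrongDual k) z)) := by
    intro z
    have h1 : Tendsto (fun g : WeakDual ℝ X => g z) (𝓝 k) (𝓝 (k z)) :=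
      (WeakDual.eval_continuous z).tendsto k
    exact h1.comp hk
  refine ⟨WeakDual.toStrongDual k, hlim, ?_⟩
  have hle : gf κ f x (WeakDual.toStrongDual k) ≤ (WeakDual.toStrongDual k) y - phi κ f x y := by
    refine gf_le_of_tendsto hκ f hx hlim ?_
    intro δ hδ
    have h1 : Tendsto (fun h : X →L[ℝ] ℝ => h y - (h y - gf κ f x h)) L
        (𝓝 ((WeakDual.toStrongDual k) y - phi κ f x y)) := (hlim y).sub hL
    have h2 := h1.eventually_lt_const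
      (show (WeakDual.toStrongDual k) y - phi κ f x y < (WeakDual.toStrongDual k) y - phi κ f x y + δ by linarith)
    filter_upwards [h2] with h h3
    linarith
  have hge := le_phi hκ f hx y (WeakDual.toStrongDual k)
  linarith

theorem exists_max {κ : ℝ} (hκ : 0 ≤ κ) (f : ℕ → (X →L[ℝ] ℝ)) {x : ℕ → X} (hx : ∀ n, ‖x n‖ ≤ 1)
    (y : X) : ∃ k : X →L[ℝ] ℝ, k y - gf κ f x k = phi κ f x y := by
  obtain ⟨u, -, hu, hmem⟩ := exists_seq_tendsto_sSup (range_nonempty fun h : X →L[ℝ] ℝ => h y - gf κ f x h)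
    (mx_bdd hκ f hx y)
  choose g hg using hmem
  set L : Ultrafilter (X →L[ℝ] ℝ) := Ultrafilter.of (map g atTop) with hLdef
  have h1 : Tendsto (fun h : X →L[ℝ] ℝ => h y - gf κ f x h) (map g atTop) (𝓝 (phi κ f x y)) := by
    rw [tendsto_map'_iff]
    refine hu.congr fun n => ?_
    exact (hg n).symm
  obtain ⟨-, k, -, hk⟩ := pointwise_lim hκ f hx y L (h1.mono_left (Ultrafilter.of_le _))
  exact ⟨k, hk⟩

theorem max_unique {κ : ℝ} (hκ : 0 ≤ κ) (f : ℕ → (X →L[ℝ] ℝ)) {x : ℕ → X} (hx : ∀ n, ‖x n‖ ≤ 1)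
    (hsep : ∀ h : X →L[ℝ] ℝ, (∀ n, h (x n) = 0) → h = 0) (y : X) {h k : X →L[ℝ] ℝ}
    (hh : h y - gf κ f x h = phi κ f x y) (hk : k y - gf κ f x k = phi κ f x y) : h = k := by
  rw [← sub_eq_zero]
  refine hsep _ fun n => ?_
  have h1 := defect_x hκ f hx h k n
  have h2 := le_phi hκ f hx y ((1 / 2 : ℝ) • (h + k))
  have h3 : ((1 / 2 : ℝ) • (h + k)) y = (h y + k y) / 2 := by
    change (1 / 2 : ℝ) * (h y + k y) = _
    ring
  rw [h3] at h2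
  have h4 : (1 / 2 : ℝ) ^ n * ((h - k) (x n)) ^ 2 / 4 ≤ 0 := by linarith
  have h5 : 0 < (1 / 2 : ℝ) ^ n := by positivity
  have h6 : ((h - k) (x n)) ^ 2 ≤ 0 := by
    by_contra hcon
    push Not at hcon
    have := mul_pos h5 hcon
    linarith
  exact pow_eq_zero_iff two_ne_zero |>.1 (le_antisymm h6 (sq_nonneg _))

end Pool.Agent.H36.BL
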