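import Pool.Agent.H36.BL.DnFacts

set_option autoImplicit false

open Set Filter Topology

/-!
# Module NormConv: pointwise convergence plus convergence of all `dn` gives norm convergence

PROOF. Let `ε > 0`; choose `n` with `dn f n k < ε` (`dn_tendsto`). Eventually along the ultrafilter `L`:
`dn f n h < ε`, `‖h‖ ≤ C`. So `dn f n (h - k) < 2 ε` and `h - k = h' + y`, `‖h'‖ < 2 ε`,
`y = y(h) ∈ F := span (f '' Iio n)` (finite dimensional), `‖y‖ ≤ C + ‖k‖ + 2 ε`. The closed ball of radius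
`C + ‖k‖ + 2 ε` of `F` is compact (`FiniteDimensional.proper`), so the ultrafilter `L.map y` converges in norm to
some `y0 ∈ F` (`IsCompact.ultrafilter_le_nhds`). For `‖x‖ ≤ 1`:
`|y(h) x| ≤ |(h - k) x| + 2 ε`, in the limit `|y0 x| ≤ 2 ε`; so `‖y0‖ ≤ 2 ε`, and eventually
`‖h - k‖ ≤ ‖h'‖ + ‖y(h) - y0‖ + ‖y0‖ < 5 ε`.
-/

namespace Pool.Agent.H36.BL

variable {X : Type*} [NormedAddCommGroup X] [NormedSpace ℝ X]

theorem norm_conv {f : ℕ → (X →L[ℝ] ℝ)} (hf : DenseRange f) (L : Ultrafilter (X →L[ℝ] ℝ))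
    {k : X →L[ℝ] ℝ} {C : ℝ} (hC : ∀ᶠ h in (L : Filter (X →L[ℝ] ℝ)), ‖h‖ ≤ C)
    (hL : ∀ y, Tendsto (fun h : X →L[ℝ] ℝ => h y) L (𝓝 (k y)))
    (hd : ∀ n, Tendsto (fun h : X →L[ℝ] ℝ => dn f n h) L (𝓝 (dn f n k))) :
    (L : Filter (X →L[ℝ] ℝ)) ≤ 𝓝 k := by
  rw [Metric.nhds_basis_ball.ge_iff]
  intro δ hδ
  obtain ⟨ε, hε, hδε⟩ : ∃ ε : ℝ, 0 < ε ∧ 5 * ε = δ := ⟨δ / 5, by positivity, by ring⟩
  obtain ⟨n, hn⟩ := ((dn_tendsto hf k).eventually (gt_mem_nhds hε)).exists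
  have hev : ∀ᶠ h in (L : Filter (X →L[ℝ] ℝ)), dn f n h < ε :=
    (hd n).eventually (gt_mem_nhds hn)
  have hnk : dn f n (-k) = dn f n k := by
    have := dn_smul f n (-1) k
    rw [neg_one_smul ℝ k] at this
    rw [this]
    simp
  have hsmall : ∀ h : X →L[ℝ] ℝ, dn f n h < ε → dn f n (h - k) < 2 * ε := by
    intro h hh
    have := dn_add_le f n h (-k)
    rw [← sub_eq_add_neg, hnk] at this
    linarith
  choose h' y hsum hnorm hmem using fun h : X →L[ℝ] ℝ => dn_split f n (h - k)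
  have : FiniteDimensional ℝ (Submodule.span ℝ (f '' Iio n)) :=
    FiniteDimensional.span_of_finite ℝ ((Set.finite_Iio n).image f)
  have : ProperSpace (Submodule.span ℝ (f '' Iio n)) := FiniteDimensional.proper ℝ (Submodule.span ℝ (f '' Iio n))
  let yy : (X →L[ℝ] ℝ) → Submodule.span ℝ (f '' Iio n) := fun h => ⟨y h, hmem h⟩
  have hball : ∀ᶠ h in (L : Filter (X →L[ℝ] ℝ)),
      yy h ∈ Metric.closedBall (0 : Submodule.span ℝ (f '' Iio n)) (C + ‖k‖ + 2 * ε) := by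
    filter_upwards [hev, hC] with h h1 h2
    rw [Metric.mem_closedBall]
    change dist (y h) 0 ≤ _
    rw [dist_zero_right]
    have e1 : y h = (h - k) - h' h := by rw [hsum h]; abel
    have e2 := hsmall h h1
    rw [e1]
    calc ‖(h - k) - h' h‖ ≤ ‖h - k‖ + ‖h' h‖ := norm_sub_le _ _
      _ ≤ (‖h‖ + ‖k‖) + ‖h' h‖ := by gcongr; exact norm_sub_le _ _
      _ ≤ C + ‖k‖ + 2 * ε := by rw [hnorm h]; linarith
  obtain ⟨y0, _, hy0⟩ := (isCompact_closedBall (0 : Submodule.span ℝ (f '' Iio n))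
    (C + ‖k‖ + 2 * ε)).ultrafilter_le_nhds' (L.map yy) hball
  have hyy : Tendsto yy (L : Filter (X →L[ℝ] ℝ)) (𝓝 y0) := hy0
  have hy0n : ‖(y0 : X →L[ℝ] ℝ)‖ ≤ 2 * ε := by
    apply ContinuousLinearMap.opNorm_le_bound _ (by positivity)
    intro x
    have t1 : Tendsto (fun h => ‖(yy h : X →L[ℝ] ℝ) x‖) (L : Filter (X →L[ℝ] ℝ))
        (𝓝 ‖(y0 : X →L[ℝ] ℝ) x‖) := by
      have hc : Continuous fun z : Submodule.span ℝ (f '' Iio n) => ‖(z : X →L[ℝ] ℝ) x‖ := by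
        fun_prop
      exact (hc.tendsto y0).comp hyy
    have t2 : Tendsto (fun h : X →L[ℝ] ℝ => ‖h x - k x‖ + 2 * ε * ‖x‖)
        (L : Filter (X →L[ℝ] ℝ)) (𝓝 (‖k x - k x‖ + 2 * ε * ‖x‖)) :=
      (((hL x).sub_const (k x)).norm).add_const _
    rw [sub_self, norm_zero, zero_add] at t2
    refine le_of_tendsto_of_tendsto t1 t2 ?_
    filter_upwards [hev] with h h1
    change ‖y h x‖ ≤ _
    have e1 : y h x = (h x - k x) - h' h x := by
      have := congrArg (fun z : X →L[ℝ] ℝ => z x) (hsum h)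
      simp only [sub_apply, add_apply] at this
      linarith
    rw [e1]
    calc ‖(h x - k x) - h' h x‖ ≤ ‖h x - k x‖ + ‖h' h x‖ := norm_sub_le _ _
      _ ≤ ‖h x - k x‖ + ‖h' h‖ * ‖x‖ := by gcongr; exact (h' h).le_opNorm x
      _ ≤ ‖h x - k x‖ + 2 * ε * ‖x‖ := by
        have := (hsmall h h1).le
        rw [← hnorm h] at this
        gcongr
  have hnear : ∀ᶠ h in (L : Filter (X →L[ℝ] ℝ)), dist (yy h) y0 < ε :=
    hyy.eventually (Metric.ball_mem_nhds y0 hε)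
  change ∀ᶠ h in (L : Filter (X →L[ℝ] ℝ)), h ∈ Metric.ball k δ
  filter_upwards [hev, hnear] with h h1 h2
  rw [Metric.mem_ball, dist_eq_norm, ← hδε]
  have e2 : ‖y h - y0‖ < ε := by
    rw [← dist_eq_norm]
    exact h2
  have e3 := hsmall h h1
  rw [← hnorm h] at e3
  have e4 : h - k = h' h + ((y h - y0) + y0) := by
    rw [hsum h]
    abel
  calc ‖h - k‖ ≤ ‖h' h‖ + (‖y h - y0‖ + ‖(y0 : X →L[ℝ] ℝ)‖) := by
        rw [e4]
        exact (norm_add_le _ _).trans (by gcongr; exact norm_add_le _ _)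
    _ < 5 * ε := by linarith

end Pool.Agent.H36.BL
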