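import Pool.Agent.H36.BL.MaxEx
import Pool.Agent.H36.BL.NormConv

set_option autoImplicit false

open Set Filter Topology

/-!
# Module Maxi: continuity of the maximiser

PROOFS. Let `M y` be the unique maximiser. Weak form (`κ ≥ 0`): if along a filter `F` the values
`h y - gf h → phi y`, then `h z → M y z` for every `z`: check along every ultrafilter `L ≤ F` (`tendsto_iff_ultrafilter`),
`pointwise_lim` and `max_unique`. Norm form (`κ = 1`, `f` dense): moreover along `L` the defect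
`(gf h + gf k) / 2 - gf (midpoint) → 0` with `k = M y`: `gf h → k y - phi y = gf k` (since `h y → k y`) and
`gf (midpoint) ≥ (midpoint) y - phi y → k y - phi y = gf k`. By `defect_dn`, `dn f n h → dn f n k` for each `n`;
`norm_conv` finishes.
-/

namespace Pool.Agent.H36.BL

variable {X : Type*} [NormedAddCommGroup X] [NormedSpace ℝ X]

theorem weak_conv {κ : ℝ} (hκ : 0 ≤ κ) (f : ℕ → (X →L[ℝ] ℝ)) {x : ℕ → X} (hx : ∀ n, ‖x n‖ ≤ 1)
    (hsep : ∀ h : X →L[ℝ] ℝ, (∀ n, h (x n) = 0) → h = 0) (y : X) {k : X →L[ℝ] ℝ}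
    (hk : k y - gf κ f x k = phi κ f x y) {F : Filter (X →L[ℝ] ℝ)}
    (hF : Tendsto (fun h : X →L[ℝ] ℝ => h y - gf κ f x h) F (𝓝 (phi κ f x y))) (z : X) :
    Tendsto (fun h : X →L[ℝ] ℝ => h z) F (𝓝 (k z)) := by
  rw [tendsto_iff_ultrafilter]
  intro L hLF
  obtain ⟨_, k', hk', hmax⟩ := pointwise_lim hκ f hx y L (hF.mono_left hLF)
  have hkk : k' = k := max_unique hκ f hx hsep y hmax hk
  rw [← hkk]
  exact hk' z

theorem strong_conv {f : ℕ → (X →L[ℝ] ℝ)} (hf : DenseRange f) {x : ℕ → X} (hx : ∀ n, ‖x n‖ ≤ 1)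
    (hsep : ∀ h : X →L[ℝ] ℝ, (∀ n, h (x n) = 0) → h = 0) (y : X) {k : X →L[ℝ] ℝ}
    (hk : k y - gf 1 f x k = phi 1 f x y) {F : Filter (X →L[ℝ] ℝ)}
    (hF : Tendsto (fun h : X →L[ℝ] ℝ => h y - gf 1 f x h) F (𝓝 (phi 1 f x y))) :
    F ≤ 𝓝 k := by
  rw [le_iff_ultrafilter]
  intro L hLF
  have hL := hF.mono_left hLF
  obtain ⟨hbd, k', hk', hmax⟩ := pointwise_lim zero_le_one f hx y L hL
  have hkk : k' = k := max_unique zero_le_one f hx hsep y hmax hk
  rw [hkk] at hk'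
  refine norm_conv hf L hbd hk' ?_
  intro n
  have h1 : Tendsto (fun h : X →L[ℝ] ℝ => gf 1 f x h) L (𝓝 (gf 1 f x k)) := by
    have h2 := (hk' y).sub hL
    have e1 : k y - phi 1 f x y = gf 1 f x k := by
      rw [← hk]
      ring
    rw [e1] at h2
    refine h2.congr ?_
    intro h
    ring
  have h3 : Tendsto (fun h : X →L[ℝ] ℝ => 4 * 2 ^ n *
      ((gf 1 f x h + gf 1 f x k) / 2 - ((h y + k y) / 2 - phi 1 f x y))) L (𝓝 0) := by
    have h4 := (((h1.add_const (gf 1 f x k)).div_const 2).sub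
      ((((hk' y).add_const (k y)).div_const 2).sub_const (phi 1 f x y))).const_mul
        ((4 : ℝ) * 2 ^ n)
    have e2 : (4 : ℝ) * 2 ^ n * ((gf 1 f x k + gf 1 f x k) / 2 -
        ((k y + k y) / 2 - phi 1 f x y)) = 0 := by
      rw [← hk]
      ring
    rw [e2] at h4
    exact h4
  have h5 : Tendsto (fun h : X →L[ℝ] ℝ => (dn f n h - dn f n k) ^ 2) L (𝓝 0) := by
    refine squeeze_zero (fun h => sq_nonneg _) (fun h => ?_) h3
    have h6 := defect_dn zero_le_one f hx h k n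
    have h7 := le_phi zero_le_one f hx y ((1 / 2 : ℝ) • (h + k))
    have h8 : ((1 / 2 : ℝ) • (h + k)) y = (h y + k y) / 2 := by
      simp only [smul_apply, add_apply, smul_eq_mul]
      ring
    rw [h8] at h7
    have h9 : (1 / 2 : ℝ) ^ n * (dn f n h - dn f n k) ^ 2 ≤
        4 * ((gf 1 f x h + gf 1 f x k) / 2 - ((h y + k y) / 2 - phi 1 f x y)) := by
      linarith
    have h10 : (2 : ℝ) ^ n * (1 / 2 : ℝ) ^ n = 1 := by
      rw [← mul_pow]
      norm_num
    calc (dn f n h - dn f n k) ^ 2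
        = 2 ^ n * ((1 / 2 : ℝ) ^ n * (dn f n h - dn f n k) ^ 2) := by
          rw [← mul_assoc, h10, one_mul]
      _ ≤ 2 ^ n * (4 * ((gf 1 f x h + gf 1 f x k) / 2 - ((h y + k y) / 2 - phi 1 f x y))) :=
          mul_le_mul_of_nonneg_left h9 (by positivity)
      _ = _ := by ring
  have h11 : Tendsto (fun h : X →L[ℝ] ℝ => |dn f n h - dn f n k|) L (𝓝 0) := by
    have h12 := (Real.continuous_sqrt.tendsto 0).comp h5
    rw [Real.sqrt_zero] at h12
    refine h12.congr ?_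
    intro h
    exact Real.sqrt_sq_eq_abs _
  have h13 := (tendsto_zero_iff_abs_tendsto_zero _).2 h11
  exact tendsto_sub_nhds_zero_iff.1 h13

end Pool.Agent.H36.BL
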