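import Pool.Agent.H36.BL.Defs

set_option autoImplicit false

open Set Filter Topology

/-!
# Module Path: the polygonal path and its separation

`pth e t = (1 - fract t) • e ⌊t⌋₊ + fract t • e (⌊t⌋₊ + 1)` for `t ≥ 0`.

PROOF of `pth_sep`. `z` lies in the span of `e 0, …, e (n+1)`, hence in the span of `e i`, `i < m`.
`x = (1 - β) • e m + β • e (m+1)`, `β ∈ [0,1]`. If `β ≥ 1/4` then
`x - z = β • (e (m+1) - y)` with `y ∈ span {e i | i ≤ m}`, so `‖x - z‖ ≥ β / 2 ≥ 1/8`. If `β < 1/4` then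
`x - z = (1 - β) • (e m - y) + β • e (m+1)` with `y ∈ span {e i | i < m}`, so
`‖x - z‖ ≥ (1-β)/2 - β ≥ 3/8 - 1/4 = 1/8`.

PROOF of `continuous_pth`: on `[n, n+1]` the path is affine; glue (for instance with
`LocallyFinite.continuous` on the closed sets `Icc n (n+1)`, or show
`pth e t = e 0 + ∑ …`, or use that `t ↦ pth e t` is Lipschitz with constant 2 because
`‖pth e s - pth e t‖ ≤ 2 * |s - t|`).
-/

namespace Pool.Agent.H36.BL

variable {X : Type*} [NormedAddCommGroup X] [NormedSpace ℝ X]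

/-- the segment from `e n` to `e (n+1)` -/
def seg (e : ℕ → X) (n : ℕ) : Set X := {x | ∃ β : ℝ, 0 ≤ β ∧ β ≤ 1 ∧ x = (1 - β) • e n + β • e (n + 1)}

/-- the polygonal path through the points `e n` -/
noncomputable def pth (e : ℕ → X) (t : ℝ) : X :=
  (1 - (t - (⌊t⌋₊ : ℝ))) • e ⌊t⌋₊ + (t - (⌊t⌋₊ : ℝ)) • e (⌊t⌋₊ + 1)

theorem pth_mem_seg (e : ℕ → X) {t : ℝ} (ht : 0 ≤ t) : pth e t ∈ seg e ⌊t⌋₊ := by
  refine ⟨t - (⌊t⌋₊ : ℝ), ?_, ?_, rfl⟩
  · have := Nat.floor_le ht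
    linarith
  · have := Nat.lt_floor_add_one t
    linarith

theorem pth_nat (e : ℕ → X) (n : ℕ) : pth e (n : ℝ) = e n := by
  simp [pth]

theorem norm_seg_le (e : ℕ → X) (he : ∀ n, ‖e n‖ ≤ 1) {n : ℕ} {x : X} (hx : x ∈ seg e n) :
    ‖x‖ ≤ 1 := by
  obtain ⟨β, h0, h1, rfl⟩ := hx
  have h2 : ‖(1 - β) • e n + β • e (n + 1)‖ ≤ ‖(1 - β) • e n‖ + ‖β • e (n + 1)‖ :=
    norm_add_le _ _
  have h3 : ‖(1 - β) • e n‖ ≤ 1 - β := by
    rw [norm_smul, Real.norm_of_nonneg (by linarith : (0 : ℝ) ≤ 1 - β)]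
    have := he n
    nlinarith [norm_nonneg (e n)]
  have h4 : ‖β • e (n + 1)‖ ≤ β := by
    rw [norm_smul, Real.norm_of_nonneg h0]
    have := he (n + 1)
    nlinarith [norm_nonneg (e (n + 1))]
  linarith

/-- on `[n, n+1]` the path is the affine map between `e n` and `e (n+1)` -/
theorem pth_eq_of_mem (e : ℕ → X) (n : ℕ) {t : ℝ} (ht : t ∈ Icc (n : ℝ) (n + 1)) :
    pth e t = (1 - (t - (n : ℝ))) • e n + (t - (n : ℝ)) • e (n + 1) := by
  rcases eq_or_lt_of_le ht.2 with h | h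
  · have h1 : t = ((n + 1 : ℕ) : ℝ) := by rw [h]; push_cast; ring
    rw [h1, pth_nat]
    push_cast
    have h2 : (n : ℝ) + 1 - n = 1 := by ring
    rw [h2]
    simp
  · have h1 : ⌊t⌋₊ = n := by
      rw [Nat.floor_eq_iff (le_trans (Nat.cast_nonneg n) ht.1)]
      exact ⟨ht.1, h⟩
    simp only [pth, h1]

theorem continuousOn_pth_Icc (e : ℕ → X) (n : ℕ) :
    ContinuousOn (pth e) (Icc (n : ℝ) (n + 1)) := by
  have h : ContinuousOn (fun t : ℝ => (1 - (t - (n : ℝ))) • e n + (t - (n : ℝ)) • e (n + 1))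
      (Icc (n : ℝ) (n + 1)) := by
    apply Continuous.continuousOn
    fun_prop
  exact h.congr (fun t ht => pth_eq_of_mem e n ht)

theorem continuousOn_pth_Icc_zero (e : ℕ → X) (n : ℕ) :
    ContinuousOn (pth e) (Icc (0 : ℝ) (n + 1)) := by
  induction n with
  | zero =>
    have := continuousOn_pth_Icc e 0
    simpa using this
  | succ k ih =>
    have h1 := continuousOn_pth_Icc e (k + 1)
    have h2 : ContinuousOn (pth e) (Icc (0 : ℝ) (k + 1) ∪ Icc ((k + 1 : ℕ) : ℝ) ((k + 1 : ℕ) + 1)) :=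
      ContinuousOn.union_of_isClosed ih h1 isClosed_Icc isClosed_Icc
    have h3 : Icc (0 : ℝ) ((k + 1 : ℕ) + 1) ⊆
        Icc (0 : ℝ) (k + 1) ∪ Icc ((k + 1 : ℕ) : ℝ) ((k + 1 : ℕ) + 1) := by
      intro t ht
      rcases le_total t (k + 1) with h | h
      · exact Or.inl ⟨ht.1, h⟩
      · refine Or.inr ⟨?_, ht.2⟩
        push_cast
        exact h
    exact h2.mono h3

theorem continuousOn_pth (e : ℕ → X) (he : ∀ n, ‖e n‖ ≤ 1) : ContinuousOn (pth e) (Ici 0) := by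
  intro t ht
  have ht0 : (0 : ℝ) ≤ t := ht
  have hlt : t < (⌊t⌋₊ : ℝ) + 1 := Nat.lt_floor_add_one t
  have h1 := continuousOn_pth_Icc_zero e ⌊t⌋₊ t ⟨ht0, hlt.le⟩
  refine h1.mono_of_mem_nhdsWithin ?_
  have h2 : Iio ((⌊t⌋₊ : ℝ) + 1) ∈ 𝓝 t := Iio_mem_nhds hlt
  have h3 : Ici (0 : ℝ) ∩ Iio ((⌊t⌋₊ : ℝ) + 1) ∈ 𝓝[Ici 0] t :=
    inter_mem self_mem_nhdsWithin (mem_nhdsWithin_of_mem_nhds h2)
  exact mem_of_superset h3 (fun s hs => ⟨hs.1, le_of_lt hs.2⟩)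

theorem seg_sep (e : ℕ → X) (he : ∀ n, ‖e n‖ ≤ 1)
    (hfar : ∀ n, ∀ y ∈ Submodule.span ℝ (e '' Iio n), 1 / 2 ≤ ‖e n - y‖)
    {n m : ℕ} (hnm : n + 2 ≤ m) {z x : X} (hz : z ∈ seg e n) (hx : x ∈ seg e m) :
    1 / 8 ≤ ‖x - z‖ := by
  obtain ⟨γ, hγ0, hγ1, hzeq⟩ := hz
  obtain ⟨β, hβ0, hβ1, hxeq⟩ := hx
  have hzm : z ∈ Submodule.span ℝ (e '' Iio m) := by
    rw [hzeq]
    refine Submodule.add_mem _ (Submodule.smul_mem _ _ (Submodule.subset_span ?_))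
      (Submodule.smul_mem _ _ (Submodule.subset_span ?_))
    · exact ⟨n, by simp only [mem_Iio]; omega, rfl⟩
    · exact ⟨n + 1, by simp only [mem_Iio]; omega, rfl⟩
  have hzm1 : z ∈ Submodule.span ℝ (e '' Iio (m + 1)) := by
    refine Submodule.span_mono (image_mono ?_) hzm
    intro i hi
    simp only [mem_Iio] at hi ⊢
    omega
  rcases le_or_gt (1 / 4) β with hβ | hβ
  · have hβpos : 0 < β := by linarith
    have hem : e m ∈ Submodule.span ℝ (e '' Iio (m + 1)) :=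
      Submodule.subset_span ⟨m, by simp, rfl⟩
    have hy : β⁻¹ • (z - (1 - β) • e m) ∈ Submodule.span ℝ (e '' Iio (m + 1)) :=
      Submodule.smul_mem _ _ (Submodule.sub_mem _ hzm1 (Submodule.smul_mem _ _ hem))
    have h1 := hfar (m + 1) _ hy
    have h2 : x - z = β • (e (m + 1) - β⁻¹ • (z - (1 - β) • e m)) := by
      rw [hxeq, smul_sub, smul_smul, mul_inv_cancel₀ hβpos.ne', one_smul]
      abel
    rw [h2, norm_smul, Real.norm_of_nonneg hβ0]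
    nlinarith
  · have hpos : 0 < 1 - β := by linarith
    have hy : (1 - β)⁻¹ • z ∈ Submodule.span ℝ (e '' Iio m) := Submodule.smul_mem _ _ hzm
    have h1 := hfar m _ hy
    have h2 : x - z = (1 - β) • (e m - (1 - β)⁻¹ • z) + β • e (m + 1) := by
      rw [hxeq, smul_sub, smul_smul, mul_inv_cancel₀ hpos.ne', one_smul]
      abel
    have h3 : ‖(1 - β) • (e m - (1 - β)⁻¹ • z)‖ = (1 - β) * ‖e m - (1 - β)⁻¹ • z‖ := by
      rw [norm_smul, Real.norm_of_nonneg hpos.le]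
    have h4 : ‖β • e (m + 1)‖ ≤ β := by
      rw [norm_smul, Real.norm_of_nonneg hβ0]
      have := he (m + 1)
      nlinarith [norm_nonneg (e (m + 1))]
    have h5 : ‖(1 - β) • (e m - (1 - β)⁻¹ • z)‖ - ‖β • e (m + 1)‖ ≤ ‖x - z‖ := by
      rw [h2]
      have := norm_sub_le ((1 - β) • (e m - (1 - β)⁻¹ • z) + β • e (m + 1)) (β • e (m + 1))
      rw [add_sub_cancel_right] at this
      linarith
    rw [h3] at h5
    nlinarith

end Pool.Agent.H36.BL
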