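import Pool.Agent.H36.BL.Seq
import Pool.Agent.H36.BL.Path

set_option autoImplicit false

open Set Filter Topology

/-!
# Module NoFix: a bounded continuous map without fixed points

PROOF. Take `e` from `exists_far_seq`. Let `β n x = max 0 (1 - 32 * infDist x (seg e n))` and
`P x = ∑ᶠ n, (n + 1) * β n x`. The supports of the `β n` are locally finite: if `x` has distance `< 1/32` from
`seg e n` and `y` (with `‖x - y‖ < 1/64`) has distance `< 1/32` from `seg e m`, then the two segments have
points at distance `< 1/16 + 1/64 < 1/8`, so `|n - m| ≤ 1` by `seg_sep`; so the ball of radius `1/128` around any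
point meets the supports of at most 3 of them. Hence `P` is continuous, `P ≥ 0`, and
`P (pth e t) ≥ ⌊t⌋₊ + 1 > t` for `t ≥ 0` because `pth e t ∈ seg e ⌊t⌋₊`.
Put `f x = pth e (P x)`. If `f x = x`, then with `t = P x ≥ 0`, `P (pth e t) = P x = t`, contradiction with
`P (pth e t) > t`.
(`infDist` to a nonempty set is continuous: `Metric.continuous_infDist_pt`; the terms with `n` outside a
finite set vanish near a point: `LocallyFinite` and `continuous_finsum`.)
-/

namespace Pool.Agent.H36.BL

variable {X : Type*} [NormedAddCommGroup X] [NormedSpace ℝ X]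

/-- the bump around the segment `n` -/
private noncomputable def bp (e : ℕ → X) (n : ℕ) (x : X) : ℝ :=
  ((n : ℝ) + 1) * max 0 (1 - 32 * Metric.infDist x (seg e n))

private theorem seg_nonempty (e : ℕ → X) (n : ℕ) : (seg e n).Nonempty :=
  ⟨e n, 0, le_rfl, zero_le_one, by simp⟩

private theorem bp_nonneg (e : ℕ → X) (n : ℕ) (x : X) : 0 ≤ bp e n x :=
  mul_nonneg (by positivity) (le_max_left _ _)

private theorem bp_continuous (e : ℕ → X) (n : ℕ) : Continuous (bp e n) := by
  unfold bp
  exact continuous_const.mul (continuous_const.max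
    (continuous_const.sub (continuous_const.mul (Metric.continuous_infDist_pt _))))

private theorem bp_near (e : ℕ → X) (n : ℕ) (x : X) (h : bp e n x ≠ 0) :
    ∃ z ∈ seg e n, dist x z < 1 / 32 := by
  rw [← Metric.infDist_lt_iff (seg_nonempty e n)]
  by_contra hcon
  push Not at hcon
  apply h
  unfold bp
  rw [max_eq_left (by linarith), mul_zero]

private theorem bp_locallyFinite (e : ℕ → X) (he : ∀ n, ‖e n‖ ≤ 1)
    (hfar : ∀ n, ∀ y ∈ Submodule.span ℝ (e '' Iio n), 1 / 2 ≤ ‖e n - y‖) :
    LocallyFinite fun n => Function.support (bp e n) := by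
  intro x
  refine ⟨Metric.ball x (1 / 128), Metric.ball_mem_nhds x (by norm_num), ?_⟩
  have key : ∀ n m : ℕ, (Function.support (bp e n) ∩ Metric.ball x (1 / 128)).Nonempty →
      (Function.support (bp e m) ∩ Metric.ball x (1 / 128)).Nonempty → m < n + 2 := by
    rintro n m ⟨y, hy, hyx⟩ ⟨y', hy', hyx'⟩
    by_contra hcon
    push Not at hcon
    obtain ⟨z, hz, hyz⟩ := bp_near e n y hy
    obtain ⟨z', hz', hyz'⟩ := bp_near e m y' hy'
    have h1 := seg_sep e he hfar hcon hz hz'
    rw [← dist_eq_norm] at h1
    have h2 : dist z' z ≤ dist z' y' + dist y' x + dist x y + dist y z := by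
      calc dist z' z ≤ dist z' y' + dist y' z := dist_triangle _ _ _
        _ ≤ dist z' y' + (dist y' x + dist x z) := by gcongr; exact dist_triangle _ _ _
        _ ≤ dist z' y' + (dist y' x + (dist x y + dist y z)) := by
          gcongr; exact dist_triangle _ _ _
        _ = _ := by ring
    rw [Metric.mem_ball] at hyx hyx'
    rw [dist_comm z' y', dist_comm x y] at h2
    linarith
  rcases Set.eq_empty_or_nonempty
    {n : ℕ | (Function.support (bp e n) ∩ Metric.ball x (1 / 128)).Nonempty} with h0 | ⟨n, hn⟩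
  · rw [h0]; exact Set.finite_empty
  · refine (Set.finite_Iio (n + 2)).subset ?_
    intro m hm
    exact key n m hn hm

theorem exists_noFix (hX : ¬ FiniteDimensional ℝ X) :
    ∃ f : X → X, Continuous f ∧ (∀ x, ‖f x‖ ≤ 1) ∧ ∀ x, f x ≠ x := by
  obtain ⟨e, he, hfar⟩ := exists_far_seq hX
  have hlf := bp_locallyFinite e he hfar
  let P : X → ℝ := fun x => ∑ᶠ n, bp e n x
  have hPc : Continuous P := continuous_finsum (bp_continuous e) hlf
  have hP0 : ∀ x, 0 ≤ P x := fun x => finsum_nonneg fun n => bp_nonneg e n x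
  have hPt : ∀ t : ℝ, 0 ≤ t → t < P (pth e t) := by
    intro t ht
    have h1 : bp e ⌊t⌋₊ (pth e t) = (⌊t⌋₊ : ℝ) + 1 := by
      unfold bp
      rw [Metric.infDist_zero_of_mem (pth_mem_seg e ht)]
      norm_num
    have h2 : bp e ⌊t⌋₊ (pth e t) ≤ P (pth e t) := by
      refine single_le_finsum ⌊t⌋₊ ?_ (fun n => bp_nonneg e n _)
      exact hlf.point_finite (pth e t)
    rw [h1] at h2
    have h3 := Nat.lt_floor_add_one t
    linarith
  refine ⟨fun x => pth e (P x), ?_, ?_, ?_⟩
  · exact (continuousOn_pth e he).comp_continuous hPc (fun x => hP0 x)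
  · intro x
    exact norm_seg_le e he (pth_mem_seg e (hP0 x))
  · intro x hx
    have h1 := hPt (P x) (hP0 x)
    have hx' : pth e (P x) = x := hx
    rw [hx'] at h1
    exact lt_irrefl _ h1

end Pool.Agent.H36.BL
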