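import Pool.Agent.H36.BL.Defs

set_option autoImplicit false

open Set Filter Topology

/-!
# Module POU: partitions of unity in a smoothness class

PROOF. For every `x` take `φ x ∈ A`, `φ x ≥ 0`, `φ x x > 0`, `{φ x ≠ 0} ⊆ W x` (from `Enough`). The sets
`{y | 0 < φ x y}` are neighbourhoods of `x`; by `TopologicalSpace.countable_cover_nhds` countably many,
for `x ∈ s`, cover. `s` is nonempty (if `X` is empty the statement is trivial: take constants), so
`s = range z`, `z : ℕ → X`. Put `a n = φ (z n)`,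
`ψ n y = a n y * ∏ j ∈ range n, smoothTransition (1 / (n + 1) - a j y)` (`Real.smoothTransition`: it is
`0` for arguments `≤ 0`, `> 0` for arguments `> 0`, smooth). `ψ n ∈ A`, `ψ n ≥ 0`, `{ψ n ≠ 0} ⊆ W (z n)`.
Positivity of the sum: for given `y` let `m` be least with `a m y > 0`; then `a j y = 0` for `j < m`
and `ψ m y > 0`. Local finiteness at `y`: choose `m` with `a m y > 0`, neighbourhood
`{y' | a m y' > a m y / 2}`; for `n > m` with `1 / (n + 1) < a m y / 2` the factor `j = m` of `ψ n` is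
`smoothTransition` of a negative number, `= 0`. `Ψ y = ∑ᶠ n, ψ n y` is in `A` by `loc` (near every point it
is a finite sum) and positive; `θ n = ψ n * Ψ⁻¹`.
-/

namespace Pool.Agent.H36.BL

private theorem mem_fsum {X : Type*} [TopologicalSpace X] (A : SmClass X) {ψ : ℕ → X → ℝ}
    (hψ : ∀ n, A.mem (ψ n)) (S : Finset ℕ) : A.mem (fun y => ∑ n ∈ S, ψ n y) := by
  classical
  induction S using Finset.induction_on with
  | empty =>
    have h := A.const 0
    simpa using h
  | insert a S ha ih =>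
    have h := A.add (hψ a) ih
    have e : (fun y => ∑ n ∈ insert a S, ψ n y) = fun y => ψ a y + ∑ n ∈ S, ψ n y := by
      funext y
      exact Finset.sum_insert ha
    rw [e]
    exact h

private theorem mem_fprod {X : Type*} [TopologicalSpace X] (A : SmClass X) {ψ : ℕ → X → ℝ}
    (hψ : ∀ n, A.mem (ψ n)) (S : Finset ℕ) : A.mem (fun y => ∏ n ∈ S, ψ n y) := by
  classical
  induction S using Finset.induction_on with
  | empty =>
    have h := A.const 1
    simpa using h
  | insert a S ha ih =>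
    have h := A.mul (hψ a) ih
    have e : (fun y => ∏ n ∈ insert a S, ψ n y) = fun y => ψ a y * ∏ n ∈ S, ψ n y := by
      funext y
      exact Finset.prod_insert ha
    rw [e]
    exact h

/-- locally finite sums stay in the class -/
theorem SmClass.mem_finsum {X : Type*} [TopologicalSpace X] (A : SmClass X) {ψ : ℕ → X → ℝ}
    (hψ : ∀ n, A.mem (ψ n)) (hlf : LocallyFinite fun n => Function.support (ψ n)) :
    A.mem (fun y => ∑ᶠ n, ψ n y) := by
  refine A.loc fun x => ?_
  obtain ⟨U, hU, hfin⟩ := hlf x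
  refine ⟨fun y => ∑ n ∈ hfin.toFinset, ψ n y, mem_fsum A hψ _, ?_⟩
  filter_upwards [hU] with y hy
  refine finsum_eq_sum_of_support_subset _ ?_
  intro n hn
  rw [Set.Finite.coe_toFinset]
  exact ⟨y, hn, hy⟩

theorem SmClass.exists_pou {X : Type*} [TopologicalSpace X] [SecondCountableTopology X]
    (A : SmClass X) (hA : A.Enough) (W : X → Set X) (hW : ∀ x, W x ∈ 𝓝 x) [Nonempty X] :
    ∃ (z : ℕ → X) (θ : ℕ → X → ℝ), (∀ n, A.mem (θ n)) ∧ (∀ n y, 0 ≤ θ n y) ∧
      (LocallyFinite fun n => Function.support (θ n)) ∧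
      (∀ n, Function.support (θ n) ⊆ W (z n)) ∧ ∀ y, ∑ᶠ n, θ n y = 1 := by
  classical
  choose φ hφA hφ0 hφx hφW using fun x => hA x (W x) (hW x)
  have hV : ∀ x, {y | 0 < φ x y} ∈ 𝓝 x := fun x =>
    (isOpen_lt continuous_const (A.cont (hφA x))).mem_nhds (hφx x)
  obtain ⟨s, hsc, hs⟩ := TopologicalSpace.countable_cover_nhds hV
  have hsne : s.Nonempty := by
    obtain ⟨x⟩ := ‹Nonempty X›
    have hx : x ∈ ⋃ x ∈ s, {y | 0 < φ x y} := by rw [hs]; exact mem_univ x
    simp only [mem_iUnion] at hx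
    obtain ⟨w, hw, _⟩ := hx
    exact ⟨w, hw⟩
  obtain ⟨z, hz⟩ := hsc.exists_eq_range hsne
  have hcov : ∀ y, ∃ m, 0 < φ (z m) y := by
    intro y
    have hy : y ∈ ⋃ x ∈ s, {y | 0 < φ x y} := by rw [hs]; exact mem_univ y
    simp only [mem_iUnion] at hy
    obtain ⟨w, hw, hwy⟩ := hy
    rw [hz] at hw
    obtain ⟨m, rfl⟩ := hw
    exact ⟨m, hwy⟩
  set ψ : ℕ → X → ℝ := fun n y => φ (z n) y *
    ∏ j ∈ Finset.range n, Real.smoothTransition (1 / ((n : ℝ) + 1) - φ (z j) y) with hψdef
  have hψA : ∀ n, A.mem (ψ n) := by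
    intro n
    refine A.mul (hφA (z n)) ?_
    refine mem_fprod A (ψ := fun j y => Real.smoothTransition (1 / ((n : ℝ) + 1) - φ (z j) y)) ?_ _
    intro j
    refine A.comp (θ := fun r => Real.smoothTransition (1 / ((n : ℝ) + 1) - r)) (hφA (z j)) ?_
    exact Real.smoothTransition.contDiff.comp (contDiff_const.sub contDiff_id)
  have hψ0 : ∀ n y, 0 ≤ ψ n y := fun n y =>
    mul_nonneg (hφ0 _ _) (Finset.prod_nonneg fun j _ => Real.smoothTransition.nonneg _)
  have hψs : ∀ n, Function.support (ψ n) ⊆ W (z n) := by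
    intro n y hy
    refine hφW (z n) y ?_
    intro h0
    apply hy
    show φ (z n) y * _ = 0
    rw [h0, zero_mul]
  have hlf : LocallyFinite fun n => Function.support (ψ n) := by
    intro y
    obtain ⟨m, hm⟩ := hcov y
    refine ⟨{y' | φ (z m) y / 2 < φ (z m) y'},
      (isOpen_lt continuous_const (A.cont (hφA (z m)))).mem_nhds (by
        show φ (z m) y / 2 < φ (z m) y
        linarith), ?_⟩
    obtain ⟨N, hN⟩ := exists_nat_one_div_lt (half_pos hm)
    refine (Set.finite_Iic (max m N)).subset ?_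
    rintro n ⟨y', hy', hyU⟩
    rw [mem_Iic]
    by_contra hn
    push Not at hn
    have hmn : m < n := lt_of_le_of_lt (le_max_left _ _) hn
    have hNn : N < n := lt_of_le_of_lt (le_max_right _ _) hn
    apply hy'
    show φ (z n) y' * _ = 0
    rw [Finset.prod_eq_zero (Finset.mem_range.2 hmn), mul_zero]
    refine Real.smoothTransition.zero_of_nonpos ?_
    have h1 : 1 / ((n : ℝ) + 1) ≤ 1 / ((N : ℝ) + 1) := by
      refine one_div_le_one_div_of_le (by positivity) ?_
      have : (N : ℝ) < n := by exact_mod_cast hNn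
      linarith
    have h2 : φ (z m) y / 2 < φ (z m) y' := hyU
    linarith
  have hpos : ∀ y, ∃ n, 0 < ψ n y := by
    intro y
    refine ⟨Nat.find (hcov y), ?_⟩
    refine mul_pos (Nat.find_spec (hcov y)) (Finset.prod_pos fun j hj => ?_)
    have h1 := Nat.find_min (hcov y) (Finset.mem_range.1 hj)
    have h2 : φ (z j) y = 0 := le_antisymm (not_lt.1 h1) (hφ0 _ _)
    rw [h2, sub_zero]
    exact Real.smoothTransition.pos_of_pos (by positivity)
  have hfin : ∀ y, (Function.support fun n => ψ n y).Finite := fun y => hlf.point_finite y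
  have hΨA : A.mem (fun y => ∑ᶠ n, ψ n y) := A.mem_finsum hψA hlf
  have hΨ0 : ∀ y, 0 < ∑ᶠ n, ψ n y := fun y =>
    finsum_pos' (fun n => hψ0 n y) (hpos y) (hfin y)
  refine ⟨z, fun n y => ψ n y * (∑ᶠ n, ψ n y)⁻¹, ?_, ?_, ?_, ?_, ?_⟩
  · intro n
    exact A.mul (hψA n) (A.inv hΨA hΨ0)
  · intro n y
    exact mul_nonneg (hψ0 n y) (inv_nonneg.2 (hΨ0 y).le)
  · refine hlf.subset fun n y hy => ?_
    intro h0
    apply hy
    show ψ n y * _ = 0
    rw [h0, zero_mul]
  · intro n y hy
    refine hψs n ?_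
    intro h0
    apply hy
    show ψ n y * _ = 0
    rw [h0, zero_mul]
  · intro y
    rw [← finsum_mul]
    exact mul_inv_cancel₀ (hΨ0 y).ne'

end Pool.Agent.H36.BL
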