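import Pool.Agent.H36.BL.Defs

set_option autoImplicit false

open Set Filter Topology

/-!
# Module RetBlid: a closed retract of `X` admits continuous blid maps

PROOF. Let `R : X → X` be continuous with values in `S` and `R x = x` on `S`; let `U` be a neighbourhood of
`S`; choose an open `O` with `S ⊆ O ⊆ U` (`mem_nhdsSet_iff_exists`). If `O = univ` take `H = id`
(`V = univ`). Otherwise let `u x = Metric.infDist (R x) Oᶜ > 0` (`R x ∈ S ⊆ O`, `Oᶜ` closed and nonempty:
`IsClosed.notMem_iff_infDist_pos`), `d x = ‖x - R x‖`, `lam x = max 0 (min 1 (2 - 3 * d x / u x))`,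
`H x = R x + lam x • (x - R x)`. Then `‖H x - R x‖ = lam x * d x < u x`
(if `lam x > 0` then `d x < 2 * u x / 3` and `lam x ≤ 1`), so `H x ∈ O` (a point at distance `< infDist` of
`R x` is not in `Oᶜ`: `Metric.infDist_le_dist_of_mem`). `V = {x | 3 * d x < u x}` is open, contains `S`
(`d = 0` there), `lam = 1` and `H x = x` on `V`, and `V ⊆ O` for the same reason.
`ContDiff ℝ ((0 : ℕ∞) : WithTop ℕ∞) H` is continuity (`contDiff_zero`).
-/

namespace Pool.Agent.H36.BL

variable {X : Type*} [NormedAddCommGroup X] [NormedSpace ℝ X]

theorem admits_zero_of_retraction {S : Set X} {R : X → X} (hR : Continuous R) (hRS : ∀ x, R x ∈ S)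
    (hid : ∀ x ∈ S, R x = x) : AdmitsBlidMaps 0 S := by
  intro U hU
  obtain ⟨O, hO, hSO, hOU⟩ := mem_nhdsSet_iff_exists.1 hU
  have hcd : ∀ {H : X → X}, Continuous H → ContDiff ℝ (((0 : ℕ∞) : WithTop ℕ∞)) H := by
    intro H hH
    have := contDiff_zero (𝕜 := ℝ) (f := H) |>.2 hH
    exact_mod_cast this
  by_cases hOu : O = univ
  · refine ⟨id, hcd continuous_id, fun x => hOU (by rw [hOu]; trivial), univ, univ_mem, ?_, fun x _ => rfl⟩
    rw [← hOu]
    exact hOU
  · have hne : Oᶜ.Nonempty := by
      rw [Set.nonempty_compl]
      exact hOu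
    set u : X → ℝ := fun x => Metric.infDist (R x) Oᶜ with hu
    have huc : Continuous u := (Metric.continuous_infDist_pt _).comp hR
    have hu0 : ∀ x, 0 < u x := by
      intro x
      refine (hO.isClosed_compl.notMem_iff_infDist_pos hne).1 ?_
      intro h
      exact h (hSO (hRS x))
    have hball : ∀ x y, ‖y - R x‖ < u x → y ∈ O := by
      intro x y hy
      by_contra hc
      have h1 := Metric.infDist_le_dist_of_mem (x := R x) (show y ∈ Oᶜ from hc)
      rw [dist_comm, dist_eq_norm] at h1
      exact absurd (lt_of_lt_of_le hy h1) (lt_irrefl _)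
    set d : X → ℝ := fun x => ‖x - R x‖ with hd
    have hdc : Continuous d := (continuous_id.sub hR).norm
    set lam : X → ℝ := fun x => max 0 (min 1 (2 - 3 * d x / u x)) with hlam
    have hlc : Continuous lam := by
      refine continuous_const.max (continuous_const.min (continuous_const.sub ?_))
      exact (hdc.const_mul 3 |>.div huc (fun x => (hu0 x).ne'))
    have hl0 : ∀ x, 0 ≤ lam x := fun x => le_max_left _ _
    have hl1 : ∀ x, lam x ≤ 1 := fun x => max_le zero_le_one (min_le_left _ _)
    have hd0 : ∀ x, 0 ≤ d x := fun x => norm_nonneg _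
    refine ⟨fun x => R x + lam x • (x - R x), hcd (hR.add (hlc.smul (continuous_id.sub hR))), ?_,
      {x | 3 * d x < u x}, ?_, ?_, ?_⟩
    · intro x
      apply hOU
      apply hball x
      simp only [add_sub_cancel_left]
      rw [norm_smul, Real.norm_eq_abs, abs_of_nonneg (hl0 x)]
      have hux := hu0 x
      rcases eq_or_lt_of_le (hl0 x) with h | h
      · rw [← h, zero_mul]
        exact hux
      · have h2 : 0 < 2 - 3 * d x / u x := by
          by_contra hc
          push Not at hc
          have : lam x = 0 := by
            rw [hlam]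
            simp only
            exact max_eq_left ((min_le_right _ _).trans hc)
          linarith
        have h3 : 3 * d x / u x < 2 := by linarith
        rw [div_lt_iff₀ hux] at h3
        have h4 : lam x * d x ≤ 1 * d x := mul_le_mul_of_nonneg_right (hl1 x) (hd0 x)
        have h5 : ‖x - R x‖ = d x := rfl
        rw [h5]
        linarith
    · refine mem_nhdsSet_iff_exists.2 ⟨{x | 3 * d x < u x}, isOpen_lt (hdc.const_mul 3) huc, ?_, le_rfl⟩
      intro x hx
      have h1 : d x = 0 := by
        rw [hd]
        simp only
        rw [hid x hx, sub_self, norm_zero]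
      show 3 * d x < u x
      rw [h1, mul_zero]
      exact hu0 x
    · intro x hx
      apply hOU
      apply hball x
      have h1 : 3 * d x < u x := hx
      have h5 : ‖x - R x‖ = d x := rfl
      rw [h5]
      linarith [hd0 x]
    · intro x hx
      have h1 : 3 * d x < u x := hx
      have hux := hu0 x
      have h2 : 3 * d x / u x ≤ 1 := by
        rw [div_le_one hux]
        exact h1.le
      have h3 : lam x = 1 := by
        rw [hlam]
        simp only
        rw [min_eq_left (by linarith), max_eq_right zero_le_one]
      simp only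
      rw [h3, one_smul, add_sub_cancel]

end Pool.Agent.H36.BL
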