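import Pool.Agent.H36.BL.Defs

set_option autoImplicit false

open Set Filter Topology

/-!
# Module Retr: a retraction of `X` onto the sphere from a bounded map without fixed points

PROOF. Replace `f` by `F x = (r / 2) • f ((2 / r) • x)`: `‖F x‖ ≤ r / 2`, `F x ≠ x`, continuous. Let
`μ x = max 0 (min 1 (2 - 2 * ‖x‖ / r))` and `G x = x - μ x • F x`. Then `G x ≠ 0`: if `‖x‖ ≤ r / 2` then `μ x = 1`
and `G x = x - F x ≠ 0`; if `r / 2 < ‖x‖` then `‖μ x • F x‖ ≤ r / 2 < ‖x‖`. If `‖x‖ = r` then `μ x = 0`, `G x = x`.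
`R x = (r / ‖G x‖) • G x`.
-/

namespace Pool.Agent.H36.BL

variable {X : Type*} [NormedAddCommGroup X] [NormedSpace ℝ X]

theorem exists_retraction {f : X → X} (hf : Continuous f) (hf1 : ∀ x, ‖f x‖ ≤ 1)
    (hf2 : ∀ x, f x ≠ x) {r : ℝ} (hr : 0 < r) :
    ∃ R : X → X, Continuous R ∧ (∀ x, ‖R x‖ = r) ∧ ∀ x, ‖x‖ = r → R x = x := by
  set F : X → X := fun x => (r / 2) • f ((2 / r) • x) with hF
  have hFc : Continuous F := (hf.comp (continuous_const_smul _)).const_smul _
  have hF1 : ∀ x, ‖F x‖ ≤ r / 2 := by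
    intro x
    rw [hF]
    simp only
    rw [norm_smul, Real.norm_eq_abs, abs_of_pos (by linarith)]
    calc r / 2 * ‖f ((2 / r) • x)‖ ≤ r / 2 * 1 := by gcongr; exact hf1 _
      _ = r / 2 := mul_one _
  have hF2 : ∀ x, F x ≠ x := by
    intro x hx
    apply hf2 ((2 / r) • x)
    have h1 : (2 / r) • F x = (2 / r) • x := by rw [hx]
    rw [hF] at h1
    simp only at h1
    rw [smul_smul] at h1
    have h2 : 2 / r * (r / 2) = 1 := by field_simp
    rwa [h2, one_smul] at h1
  set μ : X → ℝ := fun x => max 0 (min 1 (2 - 2 * ‖x‖ / r)) with hμ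
  have hμc : Continuous μ := by
    rw [hμ]
    fun_prop
  have hμ0 : ∀ x, 0 ≤ μ x := fun x => le_max_left _ _
  have hμ1 : ∀ x, μ x ≤ 1 := fun x => max_le zero_le_one (min_le_left _ _)
  set G : X → X := fun x => x - μ x • F x with hG
  have hGc : Continuous G := continuous_id.sub (hμc.smul hFc)
  have hG0 : ∀ x, G x ≠ 0 := by
    intro x hx
    have h1 : x = μ x • F x := sub_eq_zero.1 hx
    rcases le_or_gt ‖x‖ (r / 2) with h | h
    · have h2 : μ x = 1 := by
        rw [hμ]
        simp only
        have h3 : 2 * ‖x‖ / r ≤ 1 := by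
          rw [div_le_one hr]
          linarith
        rw [min_eq_left (by linarith), max_eq_right zero_le_one]
      rw [h2, one_smul] at h1
      exact hF2 x h1.symm
    · have h2 : ‖x‖ ≤ r / 2 := by
        conv_lhs => rw [h1]
        rw [norm_smul, Real.norm_eq_abs, abs_of_nonneg (hμ0 x)]
        calc μ x * ‖F x‖ ≤ 1 * (r / 2) := by
              gcongr
              · exact hμ1 x
              · exact hF1 x
          _ = r / 2 := one_mul _
      linarith
  refine ⟨fun x => (r / ‖G x‖) • G x, ?_, ?_, ?_⟩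
  · refine Continuous.smul ?_ hGc
    exact continuous_const.div hGc.norm (fun x => norm_ne_zero_iff.2 (hG0 x))
  · intro x
    have h1 : 0 < ‖G x‖ := norm_pos_iff.2 (hG0 x)
    rw [norm_smul, Real.norm_eq_abs, abs_of_pos (div_pos hr h1)]
    field_simp
  · intro x hx
    have h1 : μ x = 0 := by
      rw [hμ]
      simp only
      rw [hx]
      have : 2 - 2 * r / r = 0 := by field_simp; ring
      rw [this, min_eq_right zero_le_one, max_self]
    have h2 : G x = x := by
      rw [hG]
      simp only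
      rw [h1, zero_smul, sub_zero]
    simp only
    rw [h2, hx, div_self hr.ne', one_smul]

end Pool.Agent.H36.BL
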