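import Pool.Agent.H36.BL.Defs

set_option autoImplicit false

open Set Filter Topology

/-!
# Module Rigid: rigidity in `C[0,1]` with finitely many exact conditions

PROOF. This is the proof of `rigid`, `reach`, `exists_spike`, `exists_tent` of
`Pool/Agent/Results/MP_a52dbe_an/NoBlid.lean` with two changes: (1) instead of one point `t₀` a finite set `T` of points
(the tents avoid `T`: the infinite set `W` minus `T` is infinite, take `δ` smaller than the distances to `T`); for the
conclusion at a point `t₀` use the finite set `insert t₀ T`; (2) `f` is only continuous on the closed ball and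
differentiable at the points of the open ball: in `reach` the chain lives in the closed ball, continuity is used there
(`ContinuousOn`), differentiability only at the maximal element, which is in the open ball.
-/

namespace Pool.Agent.H36.BL

/-- the space `C[0,1]` -/
private abbrev Xc : Type := C(Set.Icc (0:ℝ) 1, ℝ)

/-- tent function of height one around `a` of radius `δ` -/
private noncomputable def tent (a : Set.Icc (0:ℝ) 1) (δ : ℝ) : Xc where
  toFun t := max 0 (1 - dist t a / δ)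
  continuous_toFun := by fun_prop

private theorem tent_apply (a : Set.Icc (0:ℝ) 1) (δ : ℝ) (t : Set.Icc (0:ℝ) 1) :
    tent a δ t = max 0 (1 - dist t a / δ) := rfl

private theorem tent_self (a : Set.Icc (0:ℝ) 1) (δ : ℝ) : tent a δ a = 1 := by
  rw [tent_apply, dist_self]; simp

private theorem tent_nonneg (a : Set.Icc (0:ℝ) 1) (δ : ℝ) (t : Set.Icc (0:ℝ) 1) : 0 ≤ tent a δ t :=
  le_max_left _ _

private theorem tent_le_one (a : Set.Icc (0:ℝ) 1) {δ : ℝ} (hδ : 0 < δ) (t : Set.Icc (0:ℝ) 1) :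
    tent a δ t ≤ 1 := by
  rw [tent_apply]
  apply max_le zero_le_one
  have : 0 ≤ dist t a / δ := by positivity
  linarith

private theorem tent_eq_zero (a : Set.Icc (0:ℝ) 1) {δ : ℝ} (hδ : 0 < δ) (t : Set.Icc (0:ℝ) 1)
    (h : δ ≤ dist t a) : tent a δ t = 0 := by
  rw [tent_apply]
  apply max_eq_left
  have : 1 ≤ dist t a / δ := by rwa [le_div_iff₀ hδ, one_mul]
  linarith

private theorem norm_tent (a : Set.Icc (0:ℝ) 1) {δ : ℝ} (hδ : 0 < δ) : ‖tent a δ‖ ≤ 1 := by
  rw [ContinuousMap.norm_le _ zero_le_one]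
  intro t
  rw [Real.norm_of_nonneg (tent_nonneg a δ t)]
  exact tent_le_one a hδ t

/-- Among many disjoint tents one is nearly invisible to a given functional. -/
private theorem exists_tent (μ : Xc →L[ℝ] ℝ) (W : Set (Set.Icc (0:ℝ) 1)) (hW : W.Infinite)
    (T : Finset (Set.Icc (0:ℝ) 1)) {η : ℝ} (hη : 0 < η) :
    ∃ a ∈ W, ∃ h : Xc, (∀ t ∈ T, h t = 0) ∧ ‖h‖ ≤ 1 ∧ h a = 1 ∧ |μ h| ≤ η := by
  classical
  -- choose n
  obtain ⟨n, hn⟩ := exists_nat_gt (‖μ‖ / η)
  have hn0 : 0 < (n : ℝ) := lt_of_le_of_lt (by positivity) hn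
  have hW' : (W \ (T : Set (Set.Icc (0:ℝ) 1))).Infinite := hW.sdiff T.finite_toSet
  obtain ⟨F, hFW, hFn⟩ := hW'.exists_subset_card_eq n
  have hFne : F.Nonempty := by
    rw [← Finset.card_pos, hFn]; exact_mod_cast hn0
  -- choose δ
  obtain ⟨δ, hδ0, hδ1, hδ2⟩ : ∃ δ : ℝ, 0 < δ ∧ (∀ t ∈ T, ∀ a ∈ F, δ ≤ dist t a) ∧
      (∀ a ∈ F, ∀ b ∈ F, a ≠ b → 2 * δ ≤ dist a b) := by
    -- finite set of positive reals has a positive lower bound
    have h1 : ∀ S : Finset ℝ, (∀ s ∈ S, 0 < s) → ∃ δ : ℝ, 0 < δ ∧ ∀ s ∈ S, δ ≤ s := by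
      intro S hS
      rcases S.eq_empty_or_nonempty with h | h
      · exact ⟨1, one_pos, by simp [h]⟩
      · exact ⟨S.min' h, hS _ (S.min'_mem h), fun s hs => S.min'_le s hs⟩
    obtain ⟨δ₁, hδ₁, hδ₁'⟩ := h1 ((T ×ˢ F).image (fun p => dist p.1 p.2)) (by
      intro s hs
      obtain ⟨p, hp, rfl⟩ := Finset.mem_image.mp hs
      rw [Finset.mem_product] at hp
      have := hFW hp.2
      exact dist_pos.mpr (fun h => this.2 (h ▸ hp.1)))
    obtain ⟨δ₂, hδ₂, hδ₂'⟩ := h1 ((F.offDiag).image (fun a => dist a.1 a.2)) (by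
      intro s hs
      obtain ⟨a, ha, rfl⟩ := Finset.mem_image.mp hs
      rw [Finset.mem_offDiag] at ha
      exact dist_pos.mpr ha.2.2)
    refine ⟨min δ₁ (δ₂ / 2), by positivity, ?_, ?_⟩
    · intro t ht a ha
      exact (min_le_left _ _).trans (hδ₁' _ (Finset.mem_image.mpr ⟨(t, a), Finset.mem_product.mpr ⟨ht, ha⟩, rfl⟩))
    · intro a ha b hb hab
      have h2 := hδ₂' (dist a b) (Finset.mem_image.mpr ⟨(a, b), by
        rw [Finset.mem_offDiag]; exact ⟨ha, hb, hab⟩, rfl⟩)
      have h3 : min δ₁ (δ₂ / 2) ≤ δ₂ / 2 := min_le_right _ _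
      linarith
  -- the signed sum has norm at most one
  set s : Set.Icc (0:ℝ) 1 → ℝ := fun a => SignType.sign (μ (tent a δ)) with hs
  have hs1 : ∀ a, |s a| ≤ 1 := by
    intro a
    simp only [hs]
    rcases lt_trichotomy (μ (tent a δ)) 0 with h | h | h
    · rw [sign_neg h]; simp
    · rw [h]; simp
    · rw [sign_pos h]; simp
  have hnorm : ‖∑ a ∈ F, s a • tent a δ‖ ≤ 1 := by
    rw [ContinuousMap.norm_le _ zero_le_one]
    intro t
    rw [ContinuousMap.sum_apply]
    by_cases hex : ∃ a ∈ F, dist t a < δ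
    · obtain ⟨a, haF, hat⟩ := hex
      rw [Finset.sum_eq_single_of_mem a haF]
      · rw [ContinuousMap.smul_apply, smul_eq_mul, norm_mul]
        have h1 := hs1 a
        have h2 : ‖tent a δ t‖ ≤ 1 := by
          rw [Real.norm_of_nonneg (tent_nonneg a δ t)]
          exact tent_le_one a hδ0 t
        rw [← Real.norm_eq_abs] at h1
        calc _ ≤ (1:ℝ) * 1 := by gcongr
          _ = 1 := by norm_num
      · intro b hb hba
        rw [ContinuousMap.smul_apply, tent_eq_zero b hδ0 t, smul_zero]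
        have h1 := hδ2 a haF b hb (Ne.symm hba)
        have h2 := dist_triangle a t b
        rw [dist_comm a t] at h2
        linarith
    · push Not at hex
      rw [Finset.sum_eq_zero]
      · simp
      · intro a ha
        rw [ContinuousMap.smul_apply, tent_eq_zero a hδ0 t (hex a ha), smul_zero]
  have hsum : ∑ a ∈ F, |μ (tent a δ)| ≤ ‖μ‖ := by
    have h1 : μ (∑ a ∈ F, s a • tent a δ) = ∑ a ∈ F, |μ (tent a δ)| := by
      rw [map_sum]
      apply Finset.sum_congr rfl
      intro a _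
      rw [map_smul, smul_eq_mul]
      simp only [hs]
      rw [sign_mul_self]
    rw [← h1]
    calc μ (∑ a ∈ F, s a • tent a δ) ≤ ‖μ (∑ a ∈ F, s a • tent a δ)‖ := Real.le_norm_self _
      _ ≤ ‖μ‖ * ‖∑ a ∈ F, s a • tent a δ‖ := μ.le_opNorm _
      _ ≤ ‖μ‖ * 1 := by gcongr
      _ = ‖μ‖ := mul_one _
  obtain ⟨a, haF, ha⟩ : ∃ a ∈ F, |μ (tent a δ)| ≤ η := by
    by_contra hcon
    push Not at hcon
    have h1 : ∑ a ∈ F, η < ∑ a ∈ F, |μ (tent a δ)| := Finset.sum_lt_sum_of_nonempty hFne hcon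
    rw [Finset.sum_const, hFn, nsmul_eq_mul] at h1
    rw [div_lt_iff₀ hη] at hn
    linarith
  exact ⟨a, (hFW haF).1, tent a δ, fun t ht => tent_eq_zero a hδ0 t (hδ1 t ht a haF), norm_tent a hδ0,
    tent_self a δ, ha⟩

/-- Spikes: small perturbations vanishing at `t₀`, almost invisible to `μ`, increasing the norm. -/
private theorem exists_spike (μ : Xc →L[ℝ] ℝ) (m : Xc) (T : Finset (Set.Icc (0:ℝ) 1)) {η l : ℝ} (hη : 0 < η)
    (hl : 0 < l) :
    ∃ h : Xc, (∀ t ∈ T, h t = 0) ∧ ‖h‖ ≤ l ∧ |μ h| ≤ η * l ∧ ‖m‖ + l / 2 ≤ ‖m + h‖ := by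
  -- a point where the norm is attained
  obtain ⟨t, -, ht⟩ := isCompact_univ.exists_isMaxOn (s := (Set.univ : Set (Set.Icc (0:ℝ) 1)))
    ⟨⟨0, by norm_num⟩, mem_univ _⟩ (f := fun t => |m t|) (by fun_prop)
  have hmt : ‖m‖ ≤ |m t| := by
    rw [ContinuousMap.norm_le _ (abs_nonneg _)]
    intro s
    exact ht (mem_univ s)
  -- sign
  obtain ⟨σ, hσ1, hσ2⟩ : ∃ σ : ℝ, |σ| = 1 ∧ σ * m t = |m t| := by
    rcases le_total 0 (m t) with h | h
    · exact ⟨1, by simp, by rw [abs_of_nonneg h, one_mul]⟩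
    · exact ⟨-1, by simp, by rw [abs_of_nonpos h]; ring⟩
  have hσσ : σ * σ = 1 := by
    rw [← abs_mul_abs_self, hσ1]; norm_num
  set W : Set (Set.Icc (0:ℝ) 1) := {s | ‖m‖ - l / 2 < σ * m s} with hWdef
  have hWnhds : W ∈ 𝓝 t := by
    apply IsOpen.mem_nhds
    · exact isOpen_lt (by fun_prop) (by fun_prop)
    · simp only [hWdef, mem_ofPred_eq]
      linarith
  have hWinf : W.Infinite := infinite_of_mem_nhds t hWnhds
  obtain ⟨a, haW, h, hh0, hh1, hha, hμ⟩ := exists_tent μ W hWinf T hη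
  refine ⟨(σ * l) • h, ?_, ?_, ?_, ?_⟩
  · intro s hs
    rw [ContinuousMap.smul_apply, hh0 s hs, smul_zero]
  · rw [norm_smul, norm_mul, Real.norm_eq_abs, hσ1, Real.norm_of_nonneg hl.le, one_mul]
    nlinarith
  · rw [map_smul, smul_eq_mul, abs_mul, abs_mul, hσ1, abs_of_pos hl, one_mul]
    nlinarith
  · have h1 : σ * (m + (σ * l) • h) a = σ * m a + l := by
      rw [ContinuousMap.add_apply, ContinuousMap.smul_apply, hha, smul_eq_mul]
      linear_combination l * hσσ
    have h2 : σ * (m + (σ * l) • h) a ≤ ‖m + (σ * l) • h‖ := by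
      calc σ * (m + (σ * l) • h) a ≤ |σ * (m + (σ * l) • h) a| := le_abs_self _
        _ = ‖(m + (σ * l) • h) a‖ := by rw [abs_mul, hσ1, one_mul, Real.norm_eq_abs]
        _ ≤ _ := ContinuousMap.norm_coe_le_norm _ _
    have h3 : ‖m‖ - l / 2 < σ * m a := haW
    linarith

/-- A continuous function on the closure of a bounded open set `D` in `C[0,1]`, differentiable at the points of `D`,
stays nearly constant along some way from a point of `D` to the frontier that does not move the values on `T`. -/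
private theorem reach {D : Set Xc} {r ε : ℝ} (hD : IsOpen D) (hb : ∀ x ∈ closure D, ‖x‖ ≤ r) (f : Xc → ℝ)
    (hfc : ContinuousOn f (closure D))
    (hf : ∀ x ∈ D, DifferentiableAt ℝ f x) (T : Finset (Set.Icc (0:ℝ) 1)) (hε : 0 < ε)
    (x₀ : Xc) (hx₀ : x₀ ∈ closure D) :
    ∃ x : Xc, x ∈ frontier D ∧ (∀ t ∈ T, x t = x₀ t) ∧ |f x - f x₀| ≤ ε * (‖x‖ - ‖x₀‖) := by
  classical
  -- the relation
  set R : Xc → Xc → Prop := fun x y => ‖y - x‖ ≤ 2 * (‖y‖ - ‖x‖) ∧ |f y - f x| ≤ ε * (‖y‖ - ‖x‖) with hR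
  have hRtrans : ∀ x y z, R x y → R y z → R x z := by
    intro x y z hxy hyz
    simp only [hR] at *
    constructor
    · have : z - x = (z - y) + (y - x) := by abel
      rw [this]
      refine (norm_add_le _ _).trans ?_
      linarith [hxy.1, hyz.1]
    · have : f z - f x = (f z - f y) + (f y - f x) := by ring
      rw [this]
      refine (abs_add_le _ _).trans ?_
      linarith [hxy.2, hyz.2]
  have hRrefl : ∀ x, R x x := by intro x; simp [hR]
  -- the set
  set Y : Set Xc := {x | x ∈ closure D ∧ ∀ t ∈ T, x t = x₀ t} with hY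
  have hYclosed : IsClosed Y := by
    apply IsClosed.and
    · exact isClosed_closure
    · have e : {x : Xc | ∀ t ∈ T, x t = x₀ t} = ⋂ t ∈ T, {x : Xc | x t = x₀ t} := by
        ext x
        simp
      rw [e]
      exact isClosed_biInter fun t _ => isClosed_eq (by fun_prop) (by fun_prop)
  have hxY : x₀ ∈ Y := ⟨hx₀, fun _ _ => rfl⟩
  have : Nonempty {x // x ∈ Y ∧ R x₀ x} := ⟨⟨x₀, hxY, hRrefl x₀⟩⟩
  obtain ⟨m, hm⟩ := exists_maximal_of_nonempty_chains_bounded
    (α := {x // x ∈ Y ∧ R x₀ x}) (r := fun x y => R x.1 y.1) (by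
      intro c hc hcne
      -- the supremum of the norms
      have hbdd : BddAbove ((fun x : {x // x ∈ Y ∧ R x₀ x} => ‖x.1‖) '' c) := by
        refine ⟨r, ?_⟩
        rintro _ ⟨x, -, rfl⟩
        exact hb _ x.2.1.1
      set S := sSup ((fun x : {x // x ∈ Y ∧ R x₀ x} => ‖x.1‖) '' c) with hS
      have hSne : ((fun x : {x // x ∈ Y ∧ R x₀ x} => ‖x.1‖) '' c).Nonempty := hcne.image _
      have hle : ∀ x ∈ c, ‖x.1‖ ≤ S := fun x hx => le_csSup hbdd ⟨x, hx, rfl⟩
      -- comparability gives distance bounds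
      have hcomp : ∀ x ∈ c, ∀ y ∈ c, ‖y.1 - x.1‖ ≤ 2 * |‖y.1‖ - ‖x.1‖| := by
        intro x hx y hy
        by_cases hxy : x = y
        · subst hxy; simp
        · rcases hc hx hy hxy with h | h
          · exact h.1.trans (by gcongr; exact le_abs_self _)
          · rw [norm_sub_rev, abs_sub_comm]
            exact h.1.trans (by gcongr; exact le_abs_self _)
      have hseq : ∀ n : ℕ, ∃ x ∈ c, S - 1 / ((n:ℝ) + 1) < ‖x.1‖ := by
        intro n
        have h1 : S - 1 / ((n:ℝ) + 1) < S := by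
          have : 0 < 1 / ((n:ℝ) + 1) := by positivity
          linarith
        obtain ⟨_, ⟨x, hx, rfl⟩, hx2⟩ := exists_lt_of_lt_csSup hSne h1
        exact ⟨x, hx, hx2⟩
      choose y hyc hyS using hseq
      have hnorm : Tendsto (fun n => ‖(y n).1‖) atTop (𝓝 S) := by
        have h1 : Tendsto (fun n : ℕ => S - 1 / ((n:ℝ) + 1)) atTop (𝓝 (S - 0)) :=
          tendsto_const_nhds.sub tendsto_one_div_add_atTop_nhds_zero_nat
        rw [sub_zero] at h1
        exact tendsto_of_tendsto_of_tendsto_of_le_of_le h1 tendsto_const_nhds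
          (fun n => (hyS n).le) (fun n => hle _ (hyc n))
      have hcauchy : CauchySeq (fun n => (y n).1) := by
        rw [Metric.cauchySeq_iff]
        intro δ hδ
        have h1 := (Metric.cauchySeq_iff.mp hnorm.cauchySeq) (δ / 2) (by positivity)
        obtain ⟨M, hM⟩ := h1
        refine ⟨M, fun a ha b hb => ?_⟩
        have h2 := hM a ha b hb
        rw [Real.dist_eq] at h2
        rw [dist_eq_norm]
        have h3 := hcomp (y b) (hyc b) (y a) (hyc a)
        linarith
      obtain ⟨z, hz⟩ := cauchySeq_tendsto_of_complete hcauchy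
      have hznorm : ‖z‖ = S := tendsto_nhds_unique hz.norm hnorm
      have hzY : z ∈ Y := hYclosed.mem_of_tendsto hz (Eventually.of_forall fun n => (y n).2.1)
      have hfz : Tendsto (fun n => f (y n).1) atTop (𝓝 (f z)) := by
        have h1 := hfc z hzY.1
        exact h1.tendsto.comp (tendsto_nhdsWithin_of_tendsto_nhds_of_eventually_within _ hz
          (Eventually.of_forall fun n => (y n).2.1.1))
      have hub : ∀ x ∈ c, R x.1 z := by
        intro x hx
        rcases (hle x hx).lt_or_eq with hlt | heq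
        · -- eventually above x
          have hev : ∀ᶠ n in atTop, R x.1 (y n).1 := by
            filter_upwards [hnorm.eventually (lt_mem_nhds hlt)] with n hn
            by_cases hxy : x = y n
            · rw [← hxy]; exact hRrefl _
            · rcases hc hx (hyc n) hxy with h | h
              · exact h
              · exfalso
                have := h.1
                have h2 := norm_nonneg (x.1 - (y n).1)
                linarith
          constructor
          · exact le_of_tendsto_of_tendsto (hz.sub_const x.1).norm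
              ((hz.norm.sub_const ‖x.1‖).const_mul 2) (hev.mono fun n hn => hn.1)
          · have h1 : Tendsto (fun n => |f (y n).1 - f x.1|) atTop (𝓝 |f z - f x.1|) :=
              ((hfz).sub_const (f x.1)).abs
            exact le_of_tendsto_of_tendsto h1
              ((hz.norm.sub_const ‖x.1‖).const_mul ε) (hev.mono fun n hn => hn.2)
        · have hxz : x.1 = z := by
            have h1 : Tendsto (fun n => ‖(y n).1 - x.1‖) atTop (𝓝 0) := by
              have h2 : Tendsto (fun n => 2 * |‖(y n).1‖ - ‖x.1‖|) atTop (𝓝 (2 * |S - ‖x.1‖|)) :=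
                ((hnorm.sub_const ‖x.1‖).abs).const_mul 2
              rw [heq, sub_self, abs_zero, mul_zero] at h2
              exact squeeze_zero (fun n => norm_nonneg _)
                (fun n => by rw [← heq]; exact hcomp x hx (y n) (hyc n)) h2
            have h3 := tendsto_iff_norm_sub_tendsto_zero.mpr h1
            exact tendsto_nhds_unique h3 hz
          rw [hxz]; exact hRrefl z
      obtain ⟨x₁, hx₁⟩ := hcne
      refine ⟨⟨z, hzY, hRtrans _ _ _ x₁.2.2 (hub x₁ hx₁)⟩, fun x hx => hub x hx⟩)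
    (by intro a b c' hab hbc; exact hRtrans _ _ _ hab hbc)
  -- the maximal element reaches the frontier
  have hmr : m.1 ∉ D := by
    intro hmD
    have hdiff := (hf m.1 hmD).hasFDerivAt
    have hsmall := hdiff.isLittleO.def (c := ε / 4) (by positivity)
    rw [Metric.eventually_nhds_iff] at hsmall
    obtain ⟨δ, hδ, hδ2⟩ := hsmall
    obtain ⟨ρ, hρ, hρ2⟩ := Metric.isOpen_iff.mp hD m.1 hmD
    set l : ℝ := min (δ / 2) (ρ / 4) with hl
    have hl0 : 0 < l := lt_min (by positivity) (by positivity)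
    obtain ⟨h, hh0, hh1, hh2, hh3⟩ := exists_spike (fderiv ℝ f m.1) m.1 T (η := ε / 4) (by positivity) hl0
    have hlr : l ≤ ρ / 4 := min_le_right _ _
    have hlδ : l ≤ δ / 2 := min_le_left _ _
    have hnew : m.1 + h ∈ Y := by
      constructor
      · apply subset_closure
        apply hρ2
        rw [Metric.mem_ball, dist_eq_norm, add_sub_cancel_left]
        linarith
      · intro t ht
        rw [ContinuousMap.add_apply, hh0 t ht, add_zero]; exact m.2.1.2 t ht
    have hRnew : R m.1 (m.1 + h) := by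
      constructor
      · rw [add_sub_cancel_left]; linarith
      · have h1 := hδ2 (y := m.1 + h) (by
          rw [dist_eq_norm, add_sub_cancel_left]; linarith)
        rw [add_sub_cancel_left, Real.norm_eq_abs] at h1
        have h2 : f (m.1 + h) - f m.1 = (f (m.1 + h) - f m.1 - (fderiv ℝ f m.1) h) + (fderiv ℝ f m.1) h := by ring
        rw [h2]
        refine (abs_add_le _ _).trans ?_
        nlinarith
    have hRnew' : R x₀ (m.1 + h) := hRtrans _ _ _ m.2.2 hRnew
    have := hm ⟨m.1 + h, hnew, hRnew'⟩ hRnew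
    have h4 := this.1
    simp only at h4
    have h5 := norm_nonneg (m.1 - (m.1 + h))
    linarith
  refine ⟨m.1, ?_, m.2.1.2, m.2.2.2⟩
  rw [hD.frontier_eq]
  exact ⟨m.2.1.1, hmr⟩

/-- rigidity for an arbitrary bounded open set -/
theorem rigid_open {D : Set C(Set.Icc (0:ℝ) 1, ℝ)} (hD : IsOpen D) (hb : Bornology.IsBounded D)
    (H : C(Set.Icc (0:ℝ) 1, ℝ) → C(Set.Icc (0:ℝ) 1, ℝ)) (hc : ContinuousOn H (closure D))
    (hd : ∀ x ∈ D, DifferentiableAt ℝ H x)
    (T : Finset (Set.Icc (0:ℝ) 1)) (a : C(Set.Icc (0:ℝ) 1, ℝ))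
    (hfix : ∀ x ∈ frontier D, (∀ t ∈ T, x t = a t) → H x = x)
    (x : C(Set.Icc (0:ℝ) 1, ℝ)) (hx : x ∈ D)
    (hxT : ∀ t ∈ T, x t = a t) : H x = x := by
  classical
  ext t₀
  have hx' : x ∈ closure D := subset_closure hx
  obtain ⟨r, hr2⟩ := hb.closure.exists_norm_le
  -- the functional
  set f : Xc → ℝ := fun x => ContinuousMap.evalCLM ℝ t₀ (H x) with hf
  have hfc : ContinuousOn f (closure D) :=
    (ContinuousMap.evalCLM ℝ t₀ (M := ℝ)).continuous.comp_continuousOn hc
  have hfd : ∀ x ∈ D, DifferentiableAt ℝ f x := fun y hy =>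
    (ContinuousMap.evalCLM ℝ t₀ (M := ℝ)).differentiableAt.comp y (hd y hy)
  have hr : 0 ≤ r := (norm_nonneg _).trans (hr2 x hx')
  have key : ∀ ε : ℝ, 0 < ε → |x t₀ - (H x) t₀| ≤ ε := by
    intro ε hε
    obtain ⟨y, hy1, hy2, hy3⟩ := reach (ε := ε / (r + 1)) hD hr2 f hfc hfd (insert t₀ T) (by positivity) x hx'
    have h1 : f y = x t₀ := by
      simp only [hf]
      rw [hfix y hy1
        (fun t ht => (hy2 t (Finset.mem_insert_of_mem ht)).trans (hxT t ht))]
      exact hy2 t₀ (Finset.mem_insert_self _ _)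
    have h2 : f x = (H x) t₀ := rfl
    have hyr : ‖y‖ ≤ r := hr2 y (frontier_subset_closure hy1)
    rw [h1, h2] at hy3
    refine hy3.trans ?_
    rw [div_mul_eq_mul_div, div_le_iff₀ (by positivity)]
    nlinarith [norm_nonneg x]
  have h3 : |x t₀ - (H x) t₀| ≤ 0 := le_of_forall_pos_le_add (fun ε hε => by simpa using key ε hε)
  have h4 := abs_eq_zero.mp (le_antisymm h3 (abs_nonneg _))
  linarith

theorem rigid_finite {r : ℝ} (H : C(Set.Icc (0:ℝ) 1, ℝ) → C(Set.Icc (0:ℝ) 1, ℝ))
    (hc : ContinuousOn H (Metric.closedBall 0 r))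
    (hd : ∀ x ∈ Metric.ball (0 : C(Set.Icc (0:ℝ) 1, ℝ)) r, DifferentiableAt ℝ H x)
    (T : Finset (Set.Icc (0:ℝ) 1)) (a : C(Set.Icc (0:ℝ) 1, ℝ))
    (hfix : ∀ x ∈ Metric.sphere (0 : C(Set.Icc (0:ℝ) 1, ℝ)) r, (∀ t ∈ T, x t = a t) → H x = x)
    (x : C(Set.Icc (0:ℝ) 1, ℝ)) (hx : x ∈ Metric.closedBall (0 : C(Set.Icc (0:ℝ) 1, ℝ)) r)
    (hxT : ∀ t ∈ T, x t = a t) : H x = x := by
  rcases eq_or_lt_of_le (mem_closedBall_zero_iff.mp hx) with h | h
  · exact hfix x (mem_sphere_zero_iff_norm.mpr h) hxT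
  · have hr : r ≠ 0 := ((norm_nonneg x).trans_lt h).ne'
    refine rigid_open (D := Metric.ball 0 r) Metric.isOpen_ball Metric.isBounded_ball H ?_ hd T a ?_ x
      (mem_ball_zero_iff.mpr h) hxT
    · rw [closure_ball _ hr]
      exact hc
    · rw [frontier_ball _ hr]
      exact hfix

end Pool.Agent.H36.BL
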