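import Pool.Agent.H36.BL.Defs

set_option autoImplicit false

open Set Filter Topology

/-!
# Module Seq: a sequence far from the span of its predecessors

PROOF. For a finite dimensional subspace `F` of an infinite dimensional normed space there is `e` with
`‖e‖ ≤ 1` and `1/2 ≤ ‖e - y‖` for all `y ∈ F` (Mathlib: `riesz_lemma_of_lt_one` with `r = 1/2`, `F` is
closed and `≠ ⊤`). Choose `E F` for every `F : {F : Submodule ℝ X // FiniteDimensional ℝ F}`, define
`F 0 = ⊥`, `F (n+1) = F n ⊔ span {E (F n)}` by recursion, `e n = E (F n)`; then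
`span (e '' Iio n) ≤ F n`.
-/

namespace Pool.Agent.H36.BL

variable {X : Type*} [NormedAddCommGroup X] [NormedSpace ℝ X]

/-- a vector far from a finite dimensional subspace -/
private theorem Seq_far (hX : ¬ FiniteDimensional ℝ X) (F : Submodule ℝ X) [FiniteDimensional ℝ F] :
    ∃ e : X, ‖e‖ ≤ 1 ∧ ∀ y ∈ F, 1 / 2 ≤ ‖e - y‖ := by
  have hc : IsClosed (F : Set X) := Submodule.closed_of_finiteDimensional F
  have hne : ∃ x : X, x ∉ F := by
    by_contra h
    push Not at h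
    have h1 : F = ⊤ := (Submodule.eq_top_iff').2 h
    apply hX
    have h2 : FiniteDimensional ℝ (⊤ : Submodule ℝ X) := by
      rw [← h1]; infer_instance
    exact Module.finite_def.2 ((Submodule.fg_iff_finiteDimensional _).2 h2)
  obtain ⟨x, hx, h⟩ := riesz_lemma hc hne (show (1 / 2 : ℝ) < 1 by norm_num)
  have hx0 : x ≠ 0 := fun h0 => hx (h0 ▸ F.zero_mem)
  have hn : 0 < ‖x‖ := norm_pos_iff.2 hx0
  refine ⟨‖x‖⁻¹ • x, ?_, ?_⟩
  · rw [norm_smul, norm_inv, norm_norm, inv_mul_cancel₀ hn.ne']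
  · intro y hy
    have h1 := h (‖x‖ • y) (F.smul_mem _ hy)
    have h2 : ‖x‖⁻¹ • x - y = ‖x‖⁻¹ • (x - ‖x‖ • y) := by
      rw [smul_sub, smul_smul, inv_mul_cancel₀ hn.ne', one_smul]
    rw [h2, norm_smul, norm_inv, norm_norm, inv_mul_eq_div, le_div_iff₀ hn]
    exact h1

theorem exists_far_seq (hX : ¬ FiniteDimensional ℝ X) :
    ∃ e : ℕ → X, (∀ n, ‖e n‖ ≤ 1) ∧
      ∀ n, ∀ y ∈ Submodule.span ℝ (e '' Iio n), 1 / 2 ≤ ‖e n - y‖ := by
  classical
  have hE : ∀ F : {F : Submodule ℝ X // FiniteDimensional ℝ F},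
      ∃ e : X, ‖e‖ ≤ 1 ∧ ∀ y ∈ F.1, 1 / 2 ≤ ‖e - y‖ := by
    intro F
    have := F.2
    exact Seq_far hX F.1
  choose E hE1 hE2 using hE
  have hsup : ∀ F : {F : Submodule ℝ X // FiniteDimensional ℝ F},
      FiniteDimensional ℝ (F.1 ⊔ Submodule.span ℝ {E F} : Submodule ℝ X) := by
    intro F
    have := F.2
    infer_instance
  let F : ℕ → {F : Submodule ℝ X // FiniteDimensional ℝ F} :=
    fun n => Nat.rec ⟨⊥, inferInstance⟩ (fun _ F => ⟨F.1 ⊔ Submodule.span ℝ {E F}, hsup F⟩) n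
  have hF : ∀ n, (F (n + 1)).1 = (F n).1 ⊔ Submodule.span ℝ {E (F n)} := fun n => rfl
  have hmono : ∀ n m, n ≤ m → (F n).1 ≤ (F m).1 := by
    intro n m h
    induction m, h using Nat.le_induction with
    | base => exact le_rfl
    | succ m _ ih => rw [hF]; exact ih.trans le_sup_left
  refine ⟨fun n => E (F n), fun n => hE1 _, ?_⟩
  intro n y hy
  refine hE2 (F n) y ?_
  refine (Submodule.span_le.2 ?_) hy
  rintro _ ⟨i, hi, rfl⟩
  have h1 : E (F i) ∈ (F (i + 1)).1 := by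
    rw [hF]
    exact (le_sup_right : Submodule.span ℝ {E (F i)} ≤ _) (Submodule.mem_span_singleton_self _)
  exact hmono (i + 1) n hi h1

end Pool.Agent.H36.BL
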