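import Pool.Agent.H36.BL.NoFix
import Pool.Agent.H36.BL.Retr
import Pool.Agent.H36.BL.RetBlid
import Pool.Agent.H36.BL.LiftCq
import Pool.Agent.H36.BL.BlidBump
import Pool.Agent.H36.BL.Encl
import Pool.Agent.H36.BL.BumpSep
import Pool.Agent.H36.BL.PhiDiff
import Pool.Agent.H36.BL.CDual
import Pool.Agent.H36.BL.Rigid
import Pool.Agent.H36.BL.GMain

set_option autoImplicit false

open Set Filter Topology

namespace Pool.Agent.H36.BL

variable {X : Type*} [NormedAddCommGroup X] [NormedSpace ℝ X]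

theorem sphere_admits_zero (hX : ¬ FiniteDimensional ℝ X) {r : ℝ} (hr : 0 < r) :
    AdmitsBlidMaps 0 (Metric.sphere (0 : X) r) := by
  obtain ⟨f, hf, hf1, hf2⟩ := exists_noFix hX
  obtain ⟨R, hR, hRr, hRid⟩ := exists_retraction hf hf1 hf2 hr
  refine admits_zero_of_retraction hR (fun x => ?_) (fun x hx => hRid x ?_)
  · rw [mem_sphere_iff_norm, sub_zero]; exact hRr x
  · rwa [mem_sphere_iff_norm, sub_zero] at hx

theorem sphere_iff_bump [TopologicalSpace.SeparableSpace X] (hX : ¬ FiniteDimensional ℝ X) {r : ℝ}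
    (hr : 0 < r) (q : ℕ∞) : AdmitsBlidMaps q (Metric.sphere (0 : X) r) ↔ HasBump X q :=
  ⟨fun h => hasBump_of_admits hr h, fun h => admits_of_hasBump h Metric.isClosed_sphere
    (sphere_admits_zero hX hr)⟩

theorem all_iff_bump [TopologicalSpace.SeparableSpace X] (hX : ¬ FiniteDimensional ℝ X) (q : ℕ∞) :
    (∀ S : Set X, IsClosed S → AdmitsBlidMaps 0 S → AdmitsBlidMaps q S) ↔ HasBump X q := by
  constructor
  · intro h
    exact hasBump_of_admits one_pos (h _ Metric.isClosed_sphere (sphere_admits_zero hX one_pos))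
  · intro hb S hSc hS
    exact admits_of_hasBump hb hSc hS

theorem bump_one_iff [CompleteSpace X] [TopologicalSpace.SeparableSpace X] :
    HasBump X 1 ↔ TopologicalSpace.SeparableSpace (X →L[ℝ] ℝ) := by
  constructor
  · intro h
    exact separable_dual_of_bump h
  · intro h
    exact hasBump_of_separable_dual

theorem admits_zero_of {q : ℕ∞} {S : Set X} (h : AdmitsBlidMaps q S) : AdmitsBlidMaps 0 S := by
  intro U hU
  obtain ⟨H, hH, h1, h2⟩ := h U hU
  refine ⟨H, ?_, h1, h2⟩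
  have h3 : ContDiff ℝ (0 : WithTop ℕ∞) H := contDiff_zero.mpr hH.continuous
  simpa using h3

theorem admits_zero_of_diff {S : Set X} (h : AdmitsDiffBlidMaps S) : AdmitsBlidMaps 0 S := by
  intro U hU
  obtain ⟨H, hH, h1, h2⟩ := h U hU
  refine ⟨H, ?_, h1, h2⟩
  have h3 : ContDiff ℝ (0 : WithTop ℕ∞) H := contDiff_zero.mpr hH.continuous
  simpa using h3

theorem admits_zero_of_gateaux {S : Set X} (h : AdmitsGateauxBlidMaps S) :
    AdmitsBlidMaps 0 S := by
  intro U hU
  obtain ⟨H, hH, h1, h2⟩ := h U hU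
  refine ⟨H, ?_, h1, h2⟩
  have h3 : ContDiff ℝ (0 : WithTop ℕ∞) H := contDiff_zero.mpr hH.1
  simpa using h3

theorem admits_diff_of_one {S : Set X} (h : AdmitsBlidMaps 1 S) : AdmitsDiffBlidMaps S := by
  intro U hU
  obtain ⟨H, hH, h1, h2⟩ := h U hU
  exact ⟨H, hH.differentiable (by simp), h1, h2⟩

/-- sets that enclose a point of their complement: `C^q` blid maps need exactly a `C^q` bump -/
theorem encl_iff [TopologicalSpace.SeparableSpace X] {S D : Set X} (hS : IsClosed S)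
    (hD : IsOpen D) (hb : Bornology.IsBounded D) (hfr : frontier D ⊆ S) (hDS : ¬ D ⊆ S) (q : ℕ∞) :
    AdmitsBlidMaps q S ↔ AdmitsBlidMaps 0 S ∧ HasBump X q :=
  ⟨fun h => ⟨admits_zero_of h, hasBump_of_encl hD hb hfr hDS h⟩,
    fun h => admits_of_hasBump h.2 hS h.1⟩

/-- differentiable blid maps at such a set need exactly a separable dual -/
theorem encl_diff_iff [CompleteSpace X] [TopologicalSpace.SeparableSpace X] {S D : Set X}
    (hS : IsClosed S) (hD : IsOpen D) (hb : Bornology.IsBounded D) (hfr : frontier D ⊆ S)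
    (hDS : ¬ D ⊆ S) :
    AdmitsDiffBlidMaps S ↔
      AdmitsBlidMaps 0 S ∧ TopologicalSpace.SeparableSpace (X →L[ℝ] ℝ) := by
  constructor
  · intro h
    obtain ⟨b, hb1, hne, hbd⟩ := diffBump_of_encl hD hb hfr hDS h
    exact ⟨admits_zero_of_diff h, separable_dual_of_diff_bump hb1 hne hbd⟩
  · intro h
    exact admits_diff_of_one (admits_of_hasBump (bump_one_iff.mpr h.2) hS h.1)

theorem not_finiteDimensional_C : ¬ FiniteDimensional ℝ C(Set.Icc (0:ℝ) 1, ℝ) := by
  intro h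
  apply not_separable_dual_C
  have h1 : FiniteDimensional ℝ (C(Set.Icc (0:ℝ) 1, ℝ) →L[ℝ] ℝ) := inferInstance
  have h2 : ProperSpace (C(Set.Icc (0:ℝ) 1, ℝ) →L[ℝ] ℝ) :=
    FiniteDimensional.proper ℝ (C(Set.Icc (0:ℝ) 1, ℝ) →L[ℝ] ℝ)
  infer_instance

end Pool.Agent.H36.BL
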